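import Pool.Agent.Helper69.WZ.Stm3

/-!
Project WZ: module ARC1 (arcs). -/

set_option autoImplicit false

namespace Pool.Agent.Helper69.WZ.Arc1

open Pool.Agent.Helper69.WZ Pool.Agent.Helper69.WZ.T

theorem main : S_ARC1 := by
  intro m g Y hm hg h0 hgY hcard
  haveI : NeZero m := ⟨hm.ne'⟩
  have hinj : ∀ i j : ℕ, i < m → j < m → (i : ZMod m) * g = (j : ZMod m) * g → i = j := by
    intro i j hi hj h
    have h1 : (i : ZMod m) = (j : ZMod m) := hg.mul_left_injective h
    rw [ZMod.natCast_eq_natCast_iff'] at h1
    rwa [Nat.mod_eq_of_lt hi, Nat.mod_eq_of_lt hj] at h1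
  have hlast : ((m - 1 : ℕ) : ZMod m) * g ∉ Y := by
    have h1 : ((m - 1 : ℕ) : ZMod m) = -1 := by
      rw [Nat.cast_sub (by omega), Nat.cast_one, ZMod.natCast_self, zero_sub]
    rw [h1, neg_one_mul]
    exact hgY
  classical
  have hex : ∃ s : ℕ, (s : ZMod m) * g ∉ Y := ⟨m - 1, hlast⟩
  obtain ⟨s, hsY, hsmin⟩ : ∃ s : ℕ, (s : ZMod m) * g ∉ Y ∧ ∀ i < s, (i : ZMod m) * g ∈ Y :=
    ⟨Nat.find hex, Nat.find_spec hex, fun i hi => by
      have := Nat.find_min hex hi
      exact not_not.1 this⟩
  have hs1 : 1 ≤ s := by
    rcases Nat.eq_zero_or_pos s with h | h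
    · rw [h, Nat.cast_zero, zero_mul] at hsY
      exact absurd h0 hsY
    · exact h
  have hsm : s ≤ m - 1 := by
    by_contra hcon
    exact hlast (hsmin (m - 1) (by omega))
  have hstep : ∀ j : ℕ, 1 ≤ j → ((j : ℕ) : ZMod m) * g = ((j - 1 : ℕ) : ZMod m) * g + g := by
    intro j hj
    obtain ⟨i, rfl⟩ : ∃ i, j = i + 1 := ⟨j - 1, by omega⟩
    rw [Nat.add_sub_cancel]
    push_cast
    ring
  have hYarc : Y = arc m s g := by
    apply Finset.Subset.antisymm
    · intro y hy
      obtain ⟨j, hjm, hjy⟩ : ∃ j : ℕ, j < m ∧ (j : ZMod m) * g = y := by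
        obtain ⟨u, rfl⟩ := hg
        refine ⟨(y * (↑u⁻¹ : ZMod m)).val, ZMod.val_lt _, ?_⟩
        rw [ZMod.natCast_zmod_val, mul_assoc, Units.inv_mul, mul_one]
      by_cases hjs : j < s
      · rw [arc, Finset.mem_image]
        exact ⟨j, Finset.mem_range.2 hjs, hjy⟩
      · exfalso
        have hjs' : s < j := by
          rcases Nat.lt_or_ge s j with h | h
          · exact h
          · have : j = s := by omega
            rw [this] at hjy
            rw [← hjy] at hy
            exact absurd hy hsY
        have hex2 : ∃ t : ℕ, j < t ∧ (t : ZMod m) * g ∉ Y := by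
          refine ⟨m - 1, ?_, hlast⟩
          rcases Nat.lt_or_ge j (m - 1) with h | h
          · exact h
          · have : j = m - 1 := by omega
            rw [this] at hjy
            rw [← hjy] at hy
            exact absurd hy hlast
        obtain ⟨t, ⟨htj, htY⟩, htmin⟩ : ∃ t : ℕ, (j < t ∧ (t : ZMod m) * g ∉ Y) ∧
            ∀ i < t, ¬ (j < i ∧ (i : ZMod m) * g ∉ Y) :=
          ⟨Nat.find hex2, Nat.find_spec hex2, fun i hi => Nat.find_min hex2 hi⟩
        have htm : t ≤ m - 1 := by
          by_contra hcon
          have h1 := htmin (m - 1) (by omega)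
          apply h1
          refine ⟨?_, hlast⟩
          rcases Nat.lt_or_ge j (m - 1) with h | h
          · exact h
          · have : j = m - 1 := by omega
            rw [this] at hjy
            rw [← hjy] at hy
            exact absurd hy hlast
        have ht1 : ((t - 1 : ℕ) : ZMod m) * g ∈ Y := by
          rcases Nat.lt_or_ge j (t - 1) with h | h
          · have h1 := htmin (t - 1) (by omega)
            by_contra hcon
            exact h1 ⟨h, hcon⟩
          · have : t - 1 = j := by omega
            rw [this, hjy]
            exact hy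
        have hs' : (s : ZMod m) * g ∈ Y.image (fun x => x + g) := by
          rw [Finset.mem_image]
          exact ⟨_, hsmin (s - 1) (by omega), (hstep s hs1).symm⟩
        have ht' : (t : ZMod m) * g ∈ Y.image (fun x => x + g) := by
          rw [Finset.mem_image]
          exact ⟨_, ht1, (hstep t (by omega)).symm⟩
        have hne : (s : ZMod m) * g ≠ (t : ZMod m) * g := by
          intro h
          have := hinj s t (by omega) (by omega) h
          omega
        have hsub : insert ((s : ZMod m) * g) (insert ((t : ZMod m) * g) Y) ⊆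
            Y ∪ Y.image (fun x => x + g) := by
          intro x hx
          rw [Finset.mem_insert, Finset.mem_insert] at hx
          rw [Finset.mem_union]
          rcases hx with rfl | rfl | hx
          · exact Or.inr hs'
          · exact Or.inr ht'
          · exact Or.inl hx
        have h1 := Finset.card_le_card hsub
        rw [Finset.card_insert_of_notMem, Finset.card_insert_of_notMem htY] at h1
        · omega
        · rw [Finset.mem_insert]
          rintro (h | h)
          · exact hne h
          · exact hsY h
    · intro y hy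
      rw [arc, Finset.mem_image] at hy
      obtain ⟨i, hi, rfl⟩ := hy
      exact hsmin i (Finset.mem_range.1 hi)
  have hYcard : Y.card = s := by
    rw [hYarc, arc, Finset.card_image_of_injOn, Finset.card_range]
    intro i hi j hj h
    have hi' := Finset.mem_range.1 (Finset.mem_coe.1 hi)
    have hj' := Finset.mem_range.1 (Finset.mem_coe.1 hj)
    exact hinj i j (by omega) (by omega) h
  rw [hYcard]
  refine ⟨hYarc, ?_⟩
  apply Finset.Subset.antisymm
  · intro x hx
    rw [Finset.mem_union] at hx
    rw [arc, Finset.mem_image]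
    rcases hx with hx | hx
    · rw [hYarc, arc, Finset.mem_image] at hx
      obtain ⟨i, hi, rfl⟩ := hx
      exact ⟨i, Finset.mem_range.2 (by have := Finset.mem_range.1 hi; omega), rfl⟩
    · rw [Finset.mem_image] at hx
      obtain ⟨y, hy, rfl⟩ := hx
      rw [hYarc, arc, Finset.mem_image] at hy
      obtain ⟨i, hi, rfl⟩ := hy
      refine ⟨i + 1, Finset.mem_range.2 (by have := Finset.mem_range.1 hi; omega), ?_⟩
      push_cast
      ring
  · intro x hx
    rw [arc, Finset.mem_image] at hx
    obtain ⟨i, hi, rfl⟩ := hx
    have hi' := Finset.mem_range.1 hi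
    rw [Finset.mem_union]
    rcases Nat.eq_zero_or_pos i with h | h
    · left
      rw [h, Nat.cast_zero, zero_mul]
      exact h0
    · right
      rw [Finset.mem_image]
      exact ⟨_, hsmin (i - 1) (by omega), (hstep i h).symm⟩

end Pool.Agent.Helper69.WZ.Arc1
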