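import Pool.Agent.Helper69.WZ.Stm3

/-!
# ARCE: an arc at a nonunit level, order `2 q^b`
-/

set_option autoImplicit false

namespace Pool.Agent.Helper69.WZ.Arce

open Finset Pool.Agent.Helper69.WZ Pool.Agent.Helper69.WZ.T

theorem card_arc {m s : ℕ} {h : ZMod m} (hh : IsUnit h) (hs : s ≤ m) : (arc m s h).card = s := by
  unfold arc
  rw [Finset.card_image_of_injOn, card_range]
  intro i hi j hj hij
  have hi' : i < s := by simpa using hi
  have hj' : j < s := by simpa using hj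
  have h1 : (i : ZMod m) = (j : ZMod m) := hh.mul_right_cancel hij
  rw [ZMod.natCast_eq_natCast_iff', Nat.mod_eq_of_lt (by omega), Nat.mod_eq_of_lt (by omega)] at h1
  exact h1

theorem card_odd (s : ℕ) : ((range s).filter (fun i => i % 2 = 1)).card = s / 2 := by
  induction s with
  | zero => rfl
  | succ s ih =>
    rw [range_add_one, filter_insert]
    split_ifs with h
    · rw [card_insert_of_notMem, ih]
      · omega
      · simp
    · rw [ih]
      omega

theorem half_mul {r : ℕ} (hr : 0 < r) {h : ZMod (2 * r)} (hh : IsUnit h) (i : ℕ) :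
    ((2 * r / 2 : ℕ) : ZMod (2 * r)) * ((i : ZMod (2 * r)) * h) ≠ 0 ↔ i % 2 = 1 := by
  rw [Nat.mul_div_cancel_left r (by norm_num), ← mul_assoc, ← Nat.cast_mul]
  rw [Ne, hh.mul_left_eq_zero, ZMod.natCast_eq_zero_iff]
  constructor
  · intro h1
    by_contra h2
    apply h1
    have h3 : 2 ∣ i := Nat.dvd_of_mod_eq_zero (by omega)
    rw [mul_comm 2 r]
    exact mul_dvd_mul_left r h3
  · rintro h1 h2
    rw [mul_comm 2 r] at h2
    have h3 := Nat.dvd_of_mul_dvd_mul_left hr h2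
    omega

theorem filter_arc {r : ℕ} (hr : 0 < r) {h : ZMod (2 * r)} (hh : IsUnit h) (s : ℕ) :
    (arc (2 * r) s h).filter (fun x => ((2 * r / 2 : ℕ) : ZMod (2 * r)) * x ≠ 0) =
      ((range s).filter (fun i => i % 2 = 1)).image (fun i : ℕ => (i : ZMod (2 * r)) * h) := by
  unfold arc
  rw [filter_image]
  congr 1
  apply filter_congr
  intro i _
  exact half_mul hr hh i

theorem od_arc_le {r : ℕ} (hr : 0 < r) {h : ZMod (2 * r)} (hh : IsUnit h) (s : ℕ) :
    od (2 * r) (arc (2 * r) s h) ≤ s / 2 := by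
  unfold od
  rw [filter_arc hr hh, ← card_odd s]
  exact card_image_le

theorem od_arc {r : ℕ} (hr : 0 < r) {h : ZMod (2 * r)} (hh : IsUnit h) {s : ℕ} (hs : s ≤ 2 * r) :
    od (2 * r) (arc (2 * r) s h) = s / 2 := by
  unfold od
  rw [filter_arc hr hh, ← card_odd s]
  apply card_image_of_injOn
  intro i hi j hj hij
  have hi' : i < s := by
    rw [coe_filter] at hi
    exact mem_range.1 hi.1
  have hj' : j < s := by
    rw [coe_filter] at hj
    exact mem_range.1 hj.1
  have h1 : (i : ZMod (2 * r)) = (j : ZMod (2 * r)) := hh.mul_right_cancel hij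
  rw [ZMod.natCast_eq_natCast_iff', Nat.mod_eq_of_lt (by omega), Nat.mod_eq_of_lt (by omega)] at h1
  exact h1

theorem od_mono {m : ℕ} {Y Z : Finset (ZMod m)} (h : Y ⊆ Z) : od m Y ≤ od m Z :=
  card_le_card (filter_subset_filter _ h)

/-- divisors of `2 q^b` -/
theorem dvd_cases {q b d : ℕ} (hq : q.Prime) (hd : d ∣ 2 * q ^ b) (h1 : 1 < d)
    (h : ¬ IsPrimePow d) : ∃ j, 1 ≤ j ∧ d = 2 * q ^ j := by
  obtain ⟨y, z, hy, hz, rfl⟩ := (Nat.dvd_mul).1 hd
  obtain ⟨j, -, rfl⟩ := (Nat.dvd_prime_pow hq).1 hz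
  rcases (Nat.dvd_prime Nat.prime_two).1 hy with rfl | rfl
  · exfalso
    apply h
    rw [one_mul] at h1 ⊢
    have hj : j ≠ 0 := by
      rintro rfl
      simp at h1
    exact hq.isPrimePow.pow hj
  · refine ⟨j, ?_, rfl⟩
    by_contra h2
    have hj : j = 0 := by omega
    apply h
    rw [hj, pow_zero, mul_one]
    exact Nat.prime_two.isPrimePow

theorem caseE {q j t : ℕ} (hq : q.Prime) (hj : 1 ≤ j)
    (Y Y' : ℕ → Finset (ZMod (2 * q ^ j))) (h : ZMod (2 * q ^ j)) (hh : IsUnit h) (ht1 : 1 ≤ t)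
    (htd : t < 2 * q ^ j) (hc : Nat.Coprime t (2 * q ^ j)) (hY : Y t = arc (2 * q ^ j) t h)
    (hY' : arc (2 * q ^ j) (t + 1) h ⊆ Y' t) :
    RaiseE (2 * q ^ j) ((2 * q ^ j) / 2).minFac Y Y' := by
  have hr : 0 < q ^ j := pow_pos hq.pos j
  have hmf : ((2 * q ^ j) / 2).minFac = q := by
    rw [Nat.mul_div_cancel_left _ (by norm_num)]
    exact Nat.Prime.pow_minFac hq (by omega)
  rw [hmf]
  have hodd : t % 2 = 1 := by
    have h1 : Nat.Coprime t 2 := Nat.Coprime.coprime_dvd_right (Dvd.intro _ rfl) hc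
    rcases Nat.mod_two_eq_zero_or_one t with h2 | h2
    · exfalso
      have h3 : 2 ∣ t := Nat.dvd_of_mod_eq_zero h2
      have h4 : 2 ∣ Nat.gcd t 2 := Nat.dvd_gcd h3 (dvd_refl 2)
      rw [h1] at h4
      omega
    · exact h2
  have nPl : ¬ Pl Y t := by
    unfold Pl
    rw [hY, card_arc hh htd.le]
    omega
  have nLo : ¬ Lo Y t := by
    unfold Lo
    rw [hY]
    have := od_arc_le hr hh t
    omega
  have yPl : Pl Y' t := by
    unfold Pl
    have h1 := card_le_card hY'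
    rw [card_arc hh (by omega)] at h1
    exact h1
  have yLo : Lo Y' t := by
    unfold Lo
    have h1 := od_mono hY'
    rw [od_arc hr hh (by omega)] at h1
    omega
  refine ⟨t, ht1, htd, hc, ?_, ?_⟩
  · rintro (⟨_, h2 | h2⟩ | ⟨_, h2, _⟩ | ⟨_, _, h2⟩)
    · exact nPl h2
    · exact nLo h2
    · exact nPl h2
    · exact nPl h2
  · by_cases c1 : t % (2 * q) = q + 2
    · exact Or.inl ⟨c1, Or.inl yPl⟩
    · by_cases c2 : t % (2 * q) = q - 2
      · exact Or.inr (Or.inl ⟨c2, yPl, Or.inr yLo⟩)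
      · exact Or.inr (Or.inr ⟨c1, c2, yPl⟩)

theorem core (hRES : S_RES) (q b m : ℕ) (hm : m = 2 * q ^ b) (g : ZMod m)
    (X X' : ℕ → Finset (ZMod m)) (hq : q.Prime) (hg : IsUnit g) (hA : ArcG m g X X') :
    RaiseSub m X X' := by
  have hm0 : 0 < m := by
    rw [hm]
    exact Nat.mul_pos (by norm_num) (pow_pos hq.pos b)
  obtain ⟨κ, k1, k2, k3, k4, k5⟩ := hA
  set e := Nat.gcd κ m with he
  have he0 : 0 < e := Nat.gcd_pos_of_pos_right _ hm0
  have hem : e ∣ m := Nat.gcd_dvd_right _ _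
  have hek : e ∣ κ := Nat.gcd_dvd_left _ _
  obtain ⟨d, hd⟩ := hem
  obtain ⟨t, ht⟩ := hek
  have he1 : e ≠ 1 := fun h => k3 h
  have hdpos : 0 < d := by
    rcases Nat.eq_zero_or_pos d with h | h
    · rw [h, mul_zero] at hd
      omega
    · exact h
  have htpos : 1 ≤ t := by
    rcases Nat.eq_zero_or_pos t with h | h
    · rw [h, mul_zero] at ht
      omega
    · exact h
  have htd : t < d := by
    have h1 : e * t < e * d := by rw [← ht, ← hd]; exact k2
    exact Nat.lt_of_mul_lt_mul_left h1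
  have hcop : Nat.Coprime t d := by
    have h1 : Nat.gcd (e * t) (e * d) = e := by rw [← ht, ← hd]
    rw [Nat.gcd_mul_left] at h1
    exact Nat.eq_of_mul_eq_mul_left he0 (by rw [h1, mul_one])
  have hdm : d ∣ m := ⟨e, by rw [hd, mul_comm]⟩
  have hmd : m / d = e := by
    rw [hd]
    exact Nat.mul_div_cancel _ hdpos
  have hkt : t * (m / d) = κ := by rw [hmd, ht, mul_comm]
  have hd1 : 1 < d := by omega
  have hdlt : d < m := by
    rw [hd]
    have : 2 ≤ e := by omega
    nlinarith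
  have hR := hRES m d t g hdm X hm0 hg
  have hR' := hRES m d t g hdm X' hm0 hg
  obtain ⟨r1, r2, -⟩ := hR
  obtain ⟨-, -, r3⟩ := hR'
  rw [hkt] at r2 r3
  obtain ⟨s1, s2⟩ := r2 htd.le k4
  have s3 := r3 htd k5
  refine ⟨d, hdm, hd1, hdlt, ?_⟩
  by_cases hpp : IsPrimePow d
  · left
    refine ⟨hpp, t, htpos, htd, hcop, ?_, ?_⟩
    · unfold Pl
      omega
    · unfold Pl
      have h1 := card_le_card s3
      rw [card_arc r1 (by omega)] at h1
      exact h1
  · right
    right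
    have hdm' : d ∣ 2 * q ^ b := by rw [← hm]; exact hdm
    obtain ⟨j, hj, hdj⟩ := dvd_cases hq hdm' hd1 hpp
    refine ⟨hpp, ⟨q ^ j, hdj⟩, ?_⟩
    clear s2 r2 r3
    generalize ZMod.castHom hdm (ZMod d) g = g' at r1 s1 s3
    generalize res m d X = Y at s1 ⊢
    generalize res m d X' = Y' at s3 ⊢
    subst hdj
    exact caseE hq hj Y Y' g' r1 htpos htd hcop s1 s3

theorem main (hRES : S_RES) : S_ARCE := by
  intro q b g X X' hq _ _ hg hA
  exact core hRES q b _ rfl g X X' hq hg hA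

end Pool.Agent.Helper69.WZ.Arce
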