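import Pool.Agent.Helper69.WZ.Res

/-!
Project WZ, ARCO: arcs for another generator, odd order (by helper17).
-/

set_option autoImplicit false

namespace Pool.Agent.Helper69.WZ.Arco

open Pool.Agent.Helper69.WZ Pool.Agent.Helper69.WZ.T Pool.Agent.Helper69.WZ.Res

lemma card_im {d : ℕ} {h : ZMod d} (hh : IsUnit h) (T : Finset ℕ) (hT : ∀ i ∈ T, i < d) :
    (T.image (fun i : ℕ => (i : ZMod d) * h)).card = T.card := by
  refine Finset.card_image_of_injOn fun i hi j hj e => ?_
  rw [Finset.mem_coe] at hi hj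
  exact inj hh (hT i hi) (hT j hj) e

lemma res_mono {m d : ℕ} (hd0 : 0 < d) {X Y : ℕ → Finset (ZMod m)} {t u : ℕ}
    (h : X (t * (m / d)) ⊆ Y (u * (m / d))) : res m d X t ⊆ res m d Y u := by
  intro y hy
  rw [mem_res hd0] at hy ⊢
  exact h hy

theorem main : S_RES → S_ARCO := by
  intro hRES m g X X' hm h2 hmono ⟨κ, h, hκ1, hκm, hnc, hh, hX, hsub, hadd, hg⟩
  have hm0 : 0 < m := by omega
  haveI : NeZero m := ⟨hm0.ne'⟩
  obtain ⟨e, he⟩ : ∃ e, e = Nat.gcd κ m := ⟨_, rfl⟩
  obtain ⟨t, ht⟩ : e ∣ κ := by rw [he]; exact Nat.gcd_dvd_left _ _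
  obtain ⟨d, hdm⟩ : e ∣ m := by rw [he]; exact Nat.gcd_dvd_right _ _
  have he0 : 0 < e := by rw [he]; exact Nat.gcd_pos_of_pos_left _ hκ1
  have he1 : e ≠ 1 := by rw [he]; exact hnc
  have hd0 : 0 < d := Nat.pos_of_ne_zero (by rintro rfl; omega)
  have ht1 : 1 ≤ t := Nat.pos_of_ne_zero (by rintro rfl; omega)
  have hcop : Nat.Coprime t d := by
    have h1 : e * Nat.gcd t d = e * 1 := by
      rw [← Nat.gcd_mul_left, ← ht, ← hdm, mul_one, he]
    exact Nat.eq_of_mul_eq_mul_left he0 h1
  have htd : t < d := by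
    rw [ht, hdm] at hκm
    exact Nat.lt_of_mul_lt_mul_left hκm
  have hd1 : 1 < d := by omega
  have hdd : d ∣ m := ⟨e, by rw [hdm, mul_comm]⟩
  have hmd : m / d = e := by rw [hdm, Nat.mul_div_cancel _ hd0]
  have hdltm : d < m := by
    rw [hdm]
    have : 2 ≤ e := by omega
    nlinarith
  have hκe : t * (m / d) = κ := by rw [hmd, ht, mul_comm]
  haveI : NeZero d := ⟨hd0.ne'⟩
  obtain ⟨hu, hr1, -⟩ := hRES m d t h hdd X hm0 hh
  obtain ⟨hres, hcard⟩ := hr1 htd.le (by rw [hκe]; exact hX)
  obtain ⟨k, hk⟩ : ∃ k, k = ZMod.castHom hdd (ZMod d) h := ⟨_, rfl⟩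
  rw [← hk] at hu hres
  -- the element `g`
  obtain ⟨b, hb1, hb2, hbg⟩ : ∃ b : ℕ, 1 ≤ b ∧ b + κ ≤ m ∧ g = (b : ZMod m) * h := by
    obtain ⟨c, hcm, hc⟩ : ∃ c : ℕ, c < m ∧ (c : ZMod m) * h = -g := by
      obtain ⟨u, hu'⟩ := hh
      refine ⟨((-g) * (↑u⁻¹ : ZMod m)).val, ZMod.val_lt _, ?_⟩
      rw [ZMod.natCast_zmod_val, ← hu', mul_assoc, Units.inv_mul, mul_one]
    have hcκ : κ ≤ c := by
      by_contra hlt
      exact hg (by rw [hX, mem_arc]; exact ⟨c, by omega, hc⟩)
    refine ⟨m - c, by omega, by omega, ?_⟩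
    rw [Nat.cast_sub hcm.le, ZMod.natCast_self, zero_sub, neg_mul, hc, neg_neg]
  -- the first multiple of `e`
  obtain ⟨s, hs1, hs2⟩ : ∃ s : ℕ, b ≤ s * e ∧ s * e < b + e := by
    refine ⟨(b + e - 1) / e, ?_, ?_⟩
    · have h1 := Nat.div_add_mod (b + e - 1) e
      have h3 := Nat.mod_lt (b + e - 1) he0
      rw [mul_comm e] at h1
      omega
    · have h1 := Nat.div_mul_le_self (b + e - 1) e
      omega
  have hs0 : 1 ≤ s := Nat.pos_of_ne_zero (by rintro rfl; omega)
  have hA : ∀ i < t, ((s + i : ℕ) : ZMod d) * k ∈ res m d X' t := by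
    intro i hi
    rw [mem_res hd0, hk, lft' hdd hm0, hκe, hmd]
    have h1 : (s + i) * e < b + κ := by
      have h3 : (i + 1) * e ≤ t * e := Nat.mul_le_mul_right e hi
      rw [ht, mul_comm e t]
      nlinarith
    have h4 : b ≤ (s + i) * e := by nlinarith
    have h5 : (((s + i) * e - b : ℕ) : ZMod m) * h ∈ X κ := by
      rw [hX, mem_arc]
      exact ⟨(s + i) * e - b, by omega, rfl⟩
    have h6 := hadd _ h5
    rw [hbg, ← add_mul, ← Nat.cast_add, Nat.sub_add_cancel h4] at h6
    exact h6
  have hst : s + t ≤ d := by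
    have h1 : (s + (t - 1)) * e < b + κ := by
      have h3 : t - 1 + 1 = t := by omega
      have h4 : (s + (t - 1)) * e + e = s * e + t * e := by
        rw [← h3]
        simp only [Nat.add_sub_cancel]
        ring
      rw [ht, mul_comm e t]
      omega
    have h4 : (s + (t - 1)) * e < d * e := by
      rw [mul_comm d e, ← hdm]
      omega
    have h5 := Nat.lt_of_mul_lt_mul_right h4
    omega
  have hB : ∀ i < t, ((i : ℕ) : ZMod d) * k ∈ res m d X' t := by
    intro i hi
    have h1 : res m d X t ⊆ res m d X' t := res_mono hd0 (by rw [hκe]; exact hsub)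
    apply h1
    rw [hres, mem_arc]
    exact ⟨i, hi, rfl⟩
  have hC : ∀ i ∈ insert (s + t - 1) (Finset.range t), ((i : ℕ) : ZMod d) * k ∈ res m d X' t := by
    intro i hi
    rw [Finset.mem_insert, Finset.mem_range] at hi
    rcases hi with rfl | hi
    · have := hA (t - 1) (by omega)
      rwa [show s + (t - 1) = s + t - 1 by omega] at this
    · exact hB i hi
  have hPl : Pl (res m d X') t := by
    show t + 1 ≤ _
    have h1 : ((insert (s + t - 1) (Finset.range t)).image
        (fun i : ℕ => (i : ZMod d) * k)).card = t + 1 := by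
      rw [card_im hu, Finset.card_insert_of_notMem, Finset.card_range]
      · rw [Finset.mem_range]
        omega
      · intro i hi
        rw [Finset.mem_insert, Finset.mem_range] at hi
        omega
    rw [← h1]
    refine Finset.card_le_card fun y hy => ?_
    rw [Finset.mem_image] at hy
    obtain ⟨i, hi, rfl⟩ := hy
    exact hC i hi
  have hnPl : ¬ Pl (res m d X) t := by
    show ¬ (t + 1 ≤ _)
    rw [hcard]
    omega
  have h2d : ¬ 2 ∣ d := fun h => h2 (h.trans hdd)
  refine ⟨d, hdd, hd1, hdltm, ?_⟩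
  by_cases hpp : IsPrimePow d
  · exact Or.inl ⟨hpp, t, ht1, htd, hcop, hnPl, hPl⟩
  · refine Or.inr (Or.inl ⟨hpp, h2d, t, ht1, htd, hcop, fun h => hnPl h.1, hPl, fun hBk => ?_⟩)
    by_cases hP2 : Pl (res m d X') (t + 1)
    · exact Or.inl hP2
    · right
      have hc1 : (res m d X' (t + 1)).card ≤ t + 1 := by
        have : ¬ (t + 1 + 1 ≤ (res m d X' (t + 1)).card) := hP2
        omega
      have hsub2 : res m d X' t ⊆ res m d X' (t + 1) :=
        res_mono hd0 (hmono (Nat.mul_le_mul_right _ (Nat.le_succ t)))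
      have ht2 : 2 ≤ t := by
        by_contra hlt
        have : t = 1 := by omega
        subst this
        exact hBk.1 ((Nat.Prime.coprime_iff_not_dvd Nat.prime_two).2 h2d)
      have hs : s = 1 := by
        by_contra hne
        have h1 : ((insert (s + t - 2) (insert (s + t - 1) (Finset.range t))).image
            (fun i : ℕ => (i : ZMod d) * k)).card = t + 2 := by
          rw [card_im hu, Finset.card_insert_of_notMem, Finset.card_insert_of_notMem,
            Finset.card_range]
          · rw [Finset.mem_range]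
            omega
          · rw [Finset.mem_insert, Finset.mem_range]
            omega
          · intro i hi
            rw [Finset.mem_insert, Finset.mem_insert, Finset.mem_range] at hi
            omega
        have h3 : t + 2 ≤ (res m d X' (t + 1)).card := by
          rw [← h1]
          refine Finset.card_le_card fun y hy => ?_
          rw [Finset.mem_image] at hy
          obtain ⟨i, hi, rfl⟩ := hy
          apply hsub2
          rw [Finset.mem_insert] at hi
          rcases hi with rfl | hi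
          · have := hA (t - 2) (by omega)
            rwa [show s + (t - 2) = s + t - 2 by omega] at this
          · exact hC i hi
        omega
      refine ⟨k, t + 1, hu, ?_⟩
      symm
      refine Finset.eq_of_subset_of_card_le (fun y hy => ?_) ?_
      · rw [mem_arc] at hy
        obtain ⟨i, hi, rfl⟩ := hy
        apply hsub2
        apply hC
        rw [Finset.mem_insert, Finset.mem_range]
        omega
      · rw [card_arc hu (by omega)]
        exact hc1

end Pool.Agent.Helper69.WZ.Arco
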