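import Pool.Agent.Helper69.WZ.Stm

/-!
WZ, module ARI (helper63).
-/

set_option autoImplicit false

namespace Pool.Agent.Helper69.WZ.Ari

theorem nc (a b k : ℕ) (ha : a.Prime) (hb : b.Prime) :
    ¬ Nat.Coprime k (a * b) ↔ (a ∣ k ∨ b ∣ k) := by
  rw [Nat.coprime_mul_iff_right, Nat.coprime_comm, ha.coprime_iff_not_dvd,
    Nat.coprime_comm (n := k) (m := b), hb.coprime_iff_not_dvd]
  tauto

theorem gap {p n n' : ℕ} (j : ℕ) (h1 : p ∣ n) (h2 : p ∣ n') (h : n' = n + j) : p ∣ j := by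
  subst h
  exact (Nat.dvd_add_right h1).1 h2

theorem n1 {p : ℕ} (hp : p.Prime) (h : p ∣ 1) : False := hp.one_lt.ne' (Nat.dvd_one.1 h)

theorem n2 {p : ℕ} (hp : p.Prime) (h2 : p ≠ 2) (h : p ∣ 2) : False :=
  h2 ((Nat.prime_dvd_prime_iff_eq hp Nat.prime_two).1 h)

theorem n3 {p : ℕ} (hp : p.Prime) (h : p ∣ 3) : p = 3 :=
  (Nat.prime_dvd_prime_iff_eq hp Nat.prime_three).1 h

theorem n4 {p : ℕ} (hp : p.Prime) (h2 : p ≠ 2) (h : p ∣ 4) : False :=
  n2 hp h2 (hp.dvd_of_dvd_pow (show p ∣ 2 ^ 2 from h))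

theorem part3 (a b k : ℕ) (ha : a.Prime) (hb : b.Prime) (h1 : 1 ≤ k) (h2 : k < a * b) (h : a ∣ k) :
    ∃ d t : ℕ, d.Prime ∧ d ∣ a * b ∧ d < a * b ∧ 1 ≤ t ∧ t < d ∧ k = t * (a * b / d) := by
  obtain ⟨c, rfl⟩ := h
  refine ⟨b, c, hb, dvd_mul_left _ _, ?_, ?_, ?_, ?_⟩
  · have := ha.two_le
    have := hb.pos
    nlinarith
  · rcases Nat.eq_zero_or_pos c with h | h
    · subst h; omega
    · exact h
  · exact lt_of_mul_lt_mul_left h2 (Nat.zero_le a)
  · rw [Nat.mul_div_cancel _ hb.pos, mul_comm]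

theorem main : S_ARI := by
  intro a b ha hb hab
  refine ⟨?_, ?_, ?_⟩
  · rintro k hk1 hk2 ⟨hk, hB⟩
    have hk2' : 2 ≤ k := by
      rw [nc a b k ha hb] at hk
      rcases hk with h | h
      · exact ha.two_le.trans (Nat.le_of_dvd hk1 h)
      · exact hb.two_le.trans (Nat.le_of_dvd hk1 h)
    refine ⟨?_, hk2'⟩
    by_contra hc
    rw [nc a b _ ha hb] at hk hc hB
    rw [nc a b _ ha hb, nc a b _ ha hb] at hB
    by_cases he : a = b
    · subst he
      simp only [or_self] at hk hB hc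
      exact n1 ha (gap 1 hc hk (by omega))
    · have h22 : a ≠ 2 ∧ b ≠ 2 := by tauto
      have key : ∀ p q : ℕ, p.Prime → q.Prime → p ≠ 2 → q ≠ 2 → p ≠ q → p ∣ k - 1 → q ∣ k →
          ((p ∣ k + 1 ∨ q ∣ k + 1) ∨ ((p ∣ k + 2 ∨ q ∣ k + 2) ∧ (p ∣ k + 3 ∨ q ∣ k + 3))) → False := by
        intro p q hp hq hp2 hq2 hpq h1 h2 h3
        rcases h3 with (h3 | h3) | ⟨h3 | h3, h4⟩
        · exact n2 hp hp2 (gap 2 h1 h3 (by omega))
        · exact n1 hq (gap 1 h2 h3 (by omega))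
        · have e1 := n3 hp (gap 3 h1 h3 (by omega))
          rcases h4 with h4 | h4
          · exact n1 hp (gap 1 h3 h4 (by omega))
          · have e2 := n3 hq (gap 3 h2 h4 (by omega))
            exact hpq (e1.trans e2.symm)
        · exact n2 hq hq2 (gap 2 h2 h3 (by omega))
      rcases hc with hc | hc <;> rcases hk with hk | hk
      · exact n1 ha (gap 1 hc hk (by omega))
      · exact key a b ha hb h22.1 h22.2 he hc hk hB
      · refine key b a hb ha h22.2 h22.1 (Ne.symm he) hc hk ?_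
        tauto
      · exact n1 hb (gap 1 hc hk (by omega))
  · rintro k hk1 hk2 hk hnB ⟨hk22, hB2⟩
    have hB : Nat.Coprime (k + 1) (a * b) ∧ (Nat.Coprime (k + 2) (a * b) ∨ Nat.Coprime (k + 3) (a * b)) := by
      unfold Bk at hnB
      tauto
    have hB3 : Nat.Coprime (k + 3) (a * b) := by tauto
    have h45 : ¬ Nat.Coprime (k + 4) (a * b) ∧ ¬ Nat.Coprime (k + 5) (a * b) := by
      rcases hB2 with h | h
      · exact absurd hB3 h
      · exact h
    obtain ⟨h4, h5⟩ := h45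
    rw [nc a b _ ha hb] at hk hk22 h4 h5
    by_cases he : a = b
    · subst he
      simp only [or_self] at hk hk22 h4 h5
      exact n1 ha (gap 1 h4 h5 (by omega))
    · have h22 : a ≠ 2 ∧ b ≠ 2 := by tauto
      rcases hk with hk | hk <;> rcases hk22 with hk22 | hk22 <;> rcases h4 with h4 | h4
      · exact n2 ha h22.1 (gap 2 hk hk22 (by omega))
      · exact n2 ha h22.1 (gap 2 hk hk22 (by omega))
      · exact n4 ha h22.1 (gap 4 hk h4 (by omega))
      · exact n2 hb h22.2 (gap 2 hk22 h4 (by omega))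
      · exact n2 ha h22.1 (gap 2 hk22 h4 (by omega))
      · exact n4 hb h22.2 (gap 4 hk h4 (by omega))
      · exact n2 hb h22.2 (gap 2 hk hk22 (by omega))
      · exact n2 hb h22.2 (gap 2 hk hk22 (by omega))
  · intro k hk1 hk2 hk
    rw [nc a b _ ha hb] at hk
    rcases hk with h | h
    · exact part3 a b k ha hb hk1 hk2 h
    · have := part3 b a k hb ha hk1 (by rwa [mul_comm b a]) h
      rwa [mul_comm b a] at this

end Pool.Agent.Helper69.WZ.Ari
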