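import Pool.Agent.Helper69.WZ.Stm3
import Pool.Agent.Helper69.WZ.Ari

/-!
WZ, module ARI2 (helper74, after ARI by helper63).
-/

set_option autoImplicit false

namespace Pool.Agent.Helper69.WZ.Ari2

open Pool.Agent.Helper69.WZ.Ari Pool.Agent.Helper69.WZ.T

theorem cop (p q a b k : ℕ) (ha : 1 ≤ a) (hb : 1 ≤ b) :
    Nat.Coprime k (p ^ a * q ^ b) ↔ Nat.Coprime k (p * q) := by
  rw [Nat.coprime_mul_iff_right, Nat.coprime_mul_iff_right, Nat.coprime_pow_right_iff (by omega),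
    Nat.coprime_pow_right_iff (by omega)]

theorem main : S_ARI2 := by
  intro p q a b hp hq hp2 hq2 hpq ha hb
  have hBk : ∀ k, Bk (p ^ a * q ^ b) k ↔ Bk (p * q) k := by
    intro k
    unfold Bk
    rw [cop p q a b _ ha hb, cop p q a b _ ha hb, cop p q a b _ ha hb, cop p q a b _ ha hb]
  refine ⟨?_, ?_⟩
  · intro k hk1
    rw [hBk, cop p q a b _ ha hb]
    rintro ⟨hk, hB⟩
    have hk2' : 2 ≤ k := by
      rw [nc p q k hp hq] at hk
      rcases hk with h | h
      · exact hp.two_le.trans (Nat.le_of_dvd hk1 h)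
      · exact hq.two_le.trans (Nat.le_of_dvd hk1 h)
    refine ⟨?_, hk2'⟩
    by_contra hc
    rw [nc p q _ hp hq] at hk hc hB
    rw [nc p q _ hp hq, nc p q _ hp hq] at hB
    have key : ∀ p q : ℕ, p.Prime → q.Prime → p ≠ 2 → q ≠ 2 → p ≠ q → p ∣ k - 1 → q ∣ k →
        ((p ∣ k + 1 ∨ q ∣ k + 1) ∨ ((p ∣ k + 2 ∨ q ∣ k + 2) ∧ (p ∣ k + 3 ∨ q ∣ k + 3))) → False := by
      intro p q hp hq hp2 hq2 hpq h1 h2 h3
      rcases h3 with (h3 | h3) | ⟨h3 | h3, h4⟩
      · exact n2 hp hp2 (gap 2 h1 h3 (by omega))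
      · exact n1 hq (gap 1 h2 h3 (by omega))
      · have e1 := n3 hp (gap 3 h1 h3 (by omega))
        rcases h4 with h4 | h4
        · exact n1 hp (gap 1 h3 h4 (by omega))
        · have e2 := n3 hq (gap 3 h2 h4 (by omega))
          exact hpq (e1.trans e2.symm)
      · exact n2 hq hq2 (gap 2 h2 h3 (by omega))
    rcases hc with hc | hc <;> rcases hk with hk | hk
    · exact n1 hp (gap 1 hc hk (by omega))
    · exact key p q hp hq hp2 hq2 hpq hc hk hB
    · refine key q p hq hp hq2 hp2 (Ne.symm hpq) hc hk ?_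
      tauto
    · exact n1 hq (gap 1 hc hk (by omega))
  · intro k hk1
    rw [hBk, hBk, cop p q a b _ ha hb]
    rintro hk hnB ⟨hk22, hB2⟩
    have hB : Nat.Coprime (k + 1) (p * q) ∧ (Nat.Coprime (k + 2) (p * q) ∨ Nat.Coprime (k + 3) (p * q)) := by
      unfold Bk at hnB
      tauto
    have hB3 : Nat.Coprime (k + 3) (p * q) := by tauto
    have h45 : ¬ Nat.Coprime (k + 4) (p * q) ∧ ¬ Nat.Coprime (k + 5) (p * q) := by
      rcases hB2 with h | h
      · exact absurd hB3 h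
      · exact h
    obtain ⟨h4, h5⟩ := h45
    rw [nc p q _ hp hq] at hk hk22 h4 h5
    rcases hk with hk | hk <;> rcases hk22 with hk22 | hk22 <;> rcases h4 with h4 | h4
    · exact n2 hp hp2 (gap 2 hk hk22 (by omega))
    · exact n2 hp hp2 (gap 2 hk hk22 (by omega))
    · exact n4 hp hp2 (gap 4 hk h4 (by omega))
    · exact n2 hq hq2 (gap 2 hk22 h4 (by omega))
    · exact n2 hp hp2 (gap 2 hk22 h4 (by omega))
    · exact n4 hq hq2 (gap 4 hk h4 (by omega))
    · exact n2 hq hq2 (gap 2 hk hk22 (by omega))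
    · exact n2 hq hq2 (gap 2 hk hk22 (by omega))

end Pool.Agent.Helper69.WZ.Ari2
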