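import Mathlib

/-!
Statements for MP_94c9ac_al (index order, element orders with at most two prime factors).
Levels: `X k` = elements `x` of `ZMod m` that are products of weight at most `k / m`.
-/

set_option autoImplicit false

namespace Pool.Agent.Helper69.WZ

/-- a legal step with the generator `g` of `ZMod m` -/
structure Step (m : ℕ) (g : ZMod m) (X X' : ℕ → Finset (ZMod m)) : Prop where
  unit : IsUnit g
  mono : Monotone X
  mono' : Monotone X'
  zero : (0 : ZMod m) ∈ X 0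
  sub : ∀ k, X k ⊆ X' k
  add : ∀ k, ∀ x ∈ X k, x + g ∈ X' (k + 1)
  legal : -g ∉ X (m - 1)

/-- number of elements of level at most `t / p` in the subgroup of order `p` -/
def cnt (m p t : ℕ) (X : ℕ → Finset (ZMod m)) : ℕ :=
  ((X (t * (m / p))).filter (fun x => (p : ZMod m) * x = 0)).card

/-- some level `t` of some proper subgroup of prime order is newly satisfied -/
def New (m : ℕ) (X X' : ℕ → Finset (ZMod m)) : Prop :=
  ∃ p t : ℕ, p.Prime ∧ p ∣ m ∧ p < m ∧ 1 ≤ t ∧ t < p ∧ cnt m p t X ≤ t ∧ t + 1 ≤ cnt m p t X'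

/-- a valid potential on `ZMod m` -/
def S_LOC (m : ℕ) : Prop := ∃ F : (ℕ → Finset (ZMod m)) → ℕ,
  (∀ X, F X ≤ m.totient) ∧
  (∀ X Y, Monotone X → Monotone Y → (0 : ZMod m) ∈ X 0 → (∀ k, X k ⊆ Y k) → F X ≤ F Y) ∧
  (∀ g X X', Step m g X X' → F X < F X' ∨ New m X X')

/-- all cosets of the subgroup of order `d` contain equally many elements of `Y` -/
def Unif (m d : ℕ) (Y : Finset (ZMod m)) : Prop :=
  ∀ y : ZMod m, (Y.filter (fun x => (d : ZMod m) * x = (d : ZMod m) * y)).card * (m / d) = Y.card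

/-- UNI.  Proof: `Y' = Y ∪ (Y + g)` is `insert y0 Y` and `insert z0 (Y + g)`.  Sum of all elements:
`y0 = z0 + |Y| g`.  With `N' c = #{x ∈ Y', d x = c}`, `N c = #{x ∈ Y, d x = c}` one has
`N' c = N c + [c = d y0] = N (c - d g) + [c = d z0]`.
If `m / d ∣ |Y|`: `d y0 = d z0` (as `|Y| d = 0` in `ZMod m`), so `N c = N (c - d g)`, so `N (d y)` is
constant (`g` is a unit: `d y = j (d g)`), and there are `m / d` classes.
If `m / d ∣ |Y| + 1`: `d y0 = d z0 - d g`, so `N' (c + d g) = N' c`, same conclusion for `Y'`. -/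
def S_UNI : Prop := ∀ (m d : ℕ) (g : ZMod m) (Y : Finset (ZMod m)), 0 < m → 0 < d → d ∣ m → IsUnit g →
  (Y ∪ Y.image (fun x => x + g)).card = Y.card + 1 →
  ((m / d ∣ Y.card → Unif m d Y) ∧
    (m / d ∣ Y.card + 1 → Unif m d (Y ∪ Y.image (fun x => x + g))))

/-- NEWL.  Proof: `k = t (m / d)`, all classes of `X k = X (k-1)` have `t` elements; the class of `0`
gives `cnt m d t X = t`; the class of `-g` shifted by `g` gives `t` elements of `X' k` in the
subgroup (`d x = 0`), none of them `0` (since `-g ∉ X k`), and `0 ∈ X' k`. -/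
def S_NEWL : Prop := ∀ (m d t : ℕ) (g : ZMod m) (X X' : ℕ → Finset (ZMod m)), 0 < m → d.Prime → d ∣ m →
  d < m → 1 ≤ t → t < d → Step m g X X' → X (t * (m / d) - 1) = X (t * (m / d)) →
  (X (t * (m / d))).card = t * (m / d) → Unif m d (X (t * (m / d))) → New m X X'

/-- `k` is problematic for `m` -/
def Bk (m k : ℕ) : Prop := ¬ Nat.Coprime k m ∧
  (¬ Nat.Coprime (k + 1) m ∨ (¬ Nat.Coprime (k + 2) m ∧ ¬ Nat.Coprime (k + 3) m))

/-- ARI.  Elementary: `m = a b`, nonunits are the multiples of `a` or `b`; for odd primes two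
nonunits at distance 1, 2, 4 belong to different primes, at distance 3 they belong to the same prime
only if it is 3; for `a = b` there are no nonunits at distance 1. -/
def S_ARI : Prop := ∀ (a b : ℕ), a.Prime → b.Prime → (a = b ∨ (a ≠ 2 ∧ b ≠ 2)) →
  (∀ k, 1 ≤ k → k < a * b → Bk (a * b) k → Nat.Coprime (k - 1) (a * b) ∧ 2 ≤ k) ∧
  (∀ k, 1 ≤ k → k < a * b → ¬ Nat.Coprime k (a * b) → ¬ Bk (a * b) k → ¬ Bk (a * b) (k + 2)) ∧
  (∀ k, 1 ≤ k → k < a * b → ¬ Nat.Coprime k (a * b) → ∃ d t : ℕ, d.Prime ∧ d ∣ a * b ∧ d < a * b ∧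
    1 ≤ t ∧ t < d ∧ k = t * (a * b / d))

/-- CASE (assembly).  `m = a b`.  `F X = #{u ∈ [1, m-1] : u coprime to m, |X k| ≥ k+1 for all k ≤ u, and
(Bk m (u+1) → |X (u+1)| ≥ u + 2 or X (u+1) is uniform for the subgroup of order d of ARI with
u + 1 = t (m/d))}`. -/
def S_CASE : Prop := ∀ (a b : ℕ), a.Prime → b.Prime → (a = b ∨ (a ≠ 2 ∧ b ≠ 2)) → S_LOC (a * b)

/-- TWOQ. -/
def S_TWOQ : Prop := ∀ q : ℕ, q.Prime → q ≠ 2 → S_LOC (2 * q)

end Pool.Agent.Helper69.WZ
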