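import Mathlib
import Pool.Agent.Helper69.WZ.Stm

/-!
# CASE: the potential for `m = a b` (module by helper72 for the project of helper69)
-/

set_option autoImplicit false

namespace Pool.Agent.Helper69.WZ.Case

open Pool.Agent.Helper69.WZ Finset

def Good (m : ℕ) (X : ℕ → Finset (ZMod m)) (u : ℕ) : Prop :=
  (∀ k, 1 ≤ k → k ≤ u → k + 1 ≤ (X k).card) ∧
  (Bk m (u + 1) → u + 2 ≤ (X (u + 1)).card ∨
    ∀ d, d.Prime → d ∣ m → d < m → m / d ∣ u + 1 → Unif m d (X (u + 1)))

noncomputable def S (m : ℕ) (X : ℕ → Finset (ZMod m)) : Finset ℕ := by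
  classical exact (Finset.range m).filter (fun u => m.Coprime u ∧ 1 ≤ u ∧ Good m X u)

lemma mem_S {m : ℕ} {X : ℕ → Finset (ZMod m)} {u : ℕ} :
    u ∈ S m X ↔ u < m ∧ m.Coprime u ∧ 1 ≤ u ∧ Good m X u := by
  unfold S
  simp only [Finset.mem_filter, Finset.mem_range]

lemma card_S (m : ℕ) (X : ℕ → Finset (ZMod m)) : (S m X).card ≤ m.totient := by
  rw [Nat.totient_eq_card_coprime]
  refine Finset.card_le_card fun u hu => ?_
  rw [mem_S] at hu
  rw [Finset.mem_filter, Finset.mem_range]
  exact ⟨hu.1, hu.2.1⟩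

lemma good_mono {m : ℕ} {X Y : ℕ → Finset (ZMod m)} (hX : Monotone X) (hXY : ∀ k, X k ⊆ Y k)
    {u : ℕ} (hu : 1 ≤ u) (h : Good m X u) : Good m Y u := by
  refine ⟨fun k h1 h2 => le_trans (h.1 k h1 h2) (Finset.card_le_card (hXY k)), fun hB => ?_⟩
  have h1 : u + 1 ≤ (X (u + 1)).card :=
    le_trans (h.1 u hu le_rfl) (Finset.card_le_card (hX (Nat.le_succ u)))
  have h2 : (X (u + 1)).card ≤ (Y (u + 1)).card := Finset.card_le_card (hXY _)
  rcases h.2 hB with h3 | h3
  · exact Or.inl (le_trans h3 h2)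
  · by_cases h4 : u + 2 ≤ (Y (u + 1)).card
    · exact Or.inl h4
    · right
      have h5 : X (u + 1) = Y (u + 1) := Finset.eq_of_subset_of_card_le (hXY _) (by omega)
      rw [← h5]
      exact h3

lemma S_mono {m : ℕ} {X Y : ℕ → Finset (ZMod m)} (hX : Monotone X) (hXY : ∀ k, X k ⊆ Y k) :
    S m X ⊆ S m Y := by
  intro u hu
  rw [mem_S] at hu ⊢
  exact ⟨hu.1, hu.2.1, hu.2.2.1, good_mono hX hXY hu.2.2.1 hu.2.2.2⟩

/-- `Y + g = Y` and `0 ∈ Y` imply that `-g ∈ Y` -/
lemma neg_mem {m : ℕ} [NeZero m] {g : ZMod m} {Y : Finset (ZMod m)} (h0 : (0 : ZMod m) ∈ Y)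
    (h : ∀ x ∈ Y, x + g ∈ Y) : -g ∈ Y := by
  have h1 : ∀ k : ℕ, (k : ZMod m) * g ∈ Y := by
    intro k
    induction k with
    | zero => simpa using h0
    | succ k ih =>
      have := h _ ih
      push_cast
      rw [add_mul, one_mul]
      exact this
  have h2 := h1 (m - 1)
  have h3 : ((m - 1 : ℕ) : ZMod m) = -1 := by
    have hm : 1 ≤ m := Nat.one_le_iff_ne_zero.2 (NeZero.ne m)
    rw [Nat.cast_sub hm]
    simp
  rw [h3, neg_one_mul] at h2
  exact h2

theorem main : S_UNI → S_NEWL → S_ARI → S_CASE := by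
  intro hU hN hA a b ha hb hab
  obtain ⟨A1, A2, A3⟩ := hA a b ha hb hab
  have hm4 : 4 ≤ a * b := by
    have := ha.two_le
    have := hb.two_le
    nlinarith
  generalize a * b = m at A1 A2 A3 hm4
  have hm0 : 0 < m := by omega
  have : NeZero m := ⟨by omega⟩
  refine ⟨fun X => (S m X).card, card_S m, fun X Y hX _ _ hXY =>
    Finset.card_le_card (S_mono hX hXY), ?_⟩
  intro g X X' hs
  have hsub : S m X ⊆ S m X' := S_mono hs.mono hs.sub
  -- it suffices to find a new element
  have raise : ∀ u, u < m → m.Coprime u → 1 ≤ u → Good m X' u → ¬ Good m X u →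
      (S m X).card < (S m X').card := by
    intro u h1 h2 h3 h4 h5
    refine Finset.card_lt_card ((Finset.ssubset_iff_of_subset hsub).2 ⟨u, ?_, ?_⟩)
    · exact mem_S.2 ⟨h1, h2, h3, h4⟩
    · intro h; exact h5 (mem_S.1 h).2.2.2
  -- the least `κ`
  have hex : ∃ k, 1 ≤ k ∧ (X k).card ≤ k := by
    refine ⟨m - 1, by omega, ?_⟩
    have h1 : X (m - 1) ⊆ Finset.univ.erase (-g) := by
      intro x hx
      exact Finset.mem_erase.2 ⟨fun h => hs.legal (h ▸ hx), Finset.mem_univ _⟩
    have h2 := Finset.card_le_card h1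
    rw [Finset.card_erase_of_mem (Finset.mem_univ _), Finset.card_univ, ZMod.card] at h2
    exact h2
  classical
  obtain ⟨κ, hκ⟩ : ∃ κ, κ = Nat.find hex := ⟨_, rfl⟩
  have hκ1 : 1 ≤ κ := by rw [hκ]; exact (Nat.find_spec hex).1
  have hκ2 : (X κ).card ≤ κ := by rw [hκ]; exact (Nat.find_spec hex).2
  have hκ3 : ∀ k, 1 ≤ k → k < κ → k + 1 ≤ (X k).card := by
    intro k h1 h2
    have h3 := Nat.find_min hex (by rw [← hκ]; exact h2)
    by_contra h4
    exact h3 ⟨h1, by omega⟩
  have hκm : κ < m := by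
    have h1 : κ ≤ m - 1 := by
      by_contra h2
      have h3 := hκ3 (m - 1) (by omega) (by omega)
      have h4 : X (m - 1) ⊆ Finset.univ.erase (-g) := by
        intro x hx
        exact Finset.mem_erase.2 ⟨fun h => hs.legal (h ▸ hx), Finset.mem_univ _⟩
      have h5 := Finset.card_le_card h4
      rw [Finset.card_erase_of_mem (Finset.mem_univ _), Finset.card_univ, ZMod.card] at h5
      omega
    omega
  have hpred : κ ≤ (X (κ - 1)).card := by
    rcases Nat.eq_or_lt_of_le hκ1 with h | h
    · rw [← h]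
      exact Finset.card_pos.2 ⟨0, hs.zero⟩
    · have := hκ3 (κ - 1) (by omega) (by omega)
      omega
  have hYY : X (κ - 1) = X κ :=
    Finset.eq_of_subset_of_card_le (hs.mono (Nat.sub_le κ 1)) (by omega)
  have hYc : (X κ).card = κ := by
    rw [hYY] at hpred
    omega
  have hY0 : (0 : ZMod m) ∈ X κ := hs.mono (Nat.zero_le κ) hs.zero
  -- the set `Y ∪ (Y + g)`
  have hY'sub : (X κ ∪ (X κ).image (fun x => x + g)) ⊆ X' κ := by
    intro x hx
    rcases Finset.mem_union.1 hx with h | h
    · exact hs.sub κ h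
    · obtain ⟨y, hy, rfl⟩ := Finset.mem_image.1 h
      have h1 := hs.add (κ - 1) y (by rw [hYY]; exact hy)
      have h2 : κ - 1 + 1 = κ := by omega
      rw [h2] at h1
      exact h1
  have hY'card : κ + 1 ≤ (X κ ∪ (X κ).image (fun x => x + g)).card := by
    by_contra h
    have h1 : X κ = X κ ∪ (X κ).image (fun x => x + g) :=
      Finset.eq_of_subset_of_card_le Finset.subset_union_left (by omega)
    have h2 : ∀ x ∈ X κ, x + g ∈ X κ := by
      intro x hx
      rw [h1]
      exact Finset.mem_union_right _ (Finset.mem_image_of_mem _ hx)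
    exact hs.legal (hs.mono (by omega) (neg_mem hY0 h2))
  have hX'κ : κ + 1 ≤ (X' κ).card := le_trans hY'card (Finset.card_le_card hY'sub)
  have hX'k : ∀ k, 1 ≤ k → k ≤ κ → k + 1 ≤ (X' k).card := by
    intro k h1 h2
    rcases Nat.lt_or_eq_of_le h2 with h3 | h3
    · exact le_trans (hκ3 k h1 h3) (Finset.card_le_card (hs.sub k))
    · rw [h3]; exact hX'κ
  by_cases hcop : Nat.Coprime κ m
  · -- `κ` is newly good
    left
    refine raise κ hκm hcop.symm hκ1 ⟨hX'k, fun _ => ?_⟩ (fun h => ?_)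
    · by_cases h2 : κ + 2 ≤ (X' (κ + 1)).card
      · exact Or.inl h2
      right
      have h3 : (X κ ∪ (X κ).image (fun x => x + g)) ⊆ X' (κ + 1) :=
        hY'sub.trans (hs.mono' (Nat.le_succ κ))
      have h4 : (X κ ∪ (X κ).image (fun x => x + g)) = X' (κ + 1) :=
        Finset.eq_of_subset_of_card_le h3 (by omega)
      intro d hd hdm hdlt hdk
      have h5 : (X κ ∪ (X κ).image (fun x => x + g)).card = (X κ).card + 1 := by
        have := Finset.card_le_card h3
        omega
      have h6 := (hU m d g (X κ) hm0 hd.pos hdm hs.unit h5).2 (by rw [hYc]; exact hdk)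
      rw [← h4]
      exact h6
    · have := h.1 κ hκ1 le_rfl
      omega
  · obtain ⟨d, t, hd, hdm, hdlt, ht1, ht2, hkt⟩ := A3 κ hκ1 hκm hcop
    by_cases hun : Unif m d (X κ)
    · right
      refine hN m d t g X X' hm0 hd hdm hdlt ht1 ht2 hs ?_ ?_ ?_
      · rw [← hkt]; exact hYY
      · rw [← hkt]; exact hYc
      · rw [← hkt]; exact hun
    · left
      have hbig : κ + 2 ≤ (X κ ∪ (X κ).image (fun x => x + g)).card := by
        by_contra h
        apply hun
        refine (hU m d g (X κ) hm0 hd.pos hdm hs.unit (by omega)).1 ?_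
        rw [hYc, hkt]
        exact Dvd.intro_left t rfl
      have hX'big : κ + 2 ≤ (X' κ).card := le_trans hbig (Finset.card_le_card hY'sub)
      by_cases hB : Bk m κ
      · obtain ⟨h1, h2⟩ := A1 κ hκ1 hκm hB
        have e : κ - 1 + 1 = κ := by omega
        refine raise (κ - 1) (by omega) h1.symm (by omega) ⟨?_, ?_⟩ ?_
        · intro k hk1 hk2
          exact hX'k k hk1 (by omega)
        · intro _
          left
          rw [e]
          omega
        · intro hg
          rw [Good, e] at hg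
          rcases hg.2 hB with h3 | h3
          · omega
          · exact hun (h3 d hd hdm hdlt ⟨t, by rw [hkt]; ring⟩)
      · have hc1 : Nat.Coprime (κ + 1) m := by
          by_contra h
          exact hB ⟨hcop, Or.inl h⟩
        have hlt : κ + 1 < m := by
          rcases Nat.lt_or_ge (κ + 1) m with h | h
          · exact h
          · exfalso
            have h1 : κ + 1 = m := by omega
            rw [h1, Nat.coprime_self] at hc1
            omega
        refine raise (κ + 1) hlt hc1.symm (by omega) ⟨?_, ?_⟩ ?_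
        · intro k hk1 hk2
          rcases Nat.lt_or_eq_of_le hk2 with h3 | h3
          · exact hX'k k hk1 (by omega)
          · rw [h3]
            exact le_trans hX'big (Finset.card_le_card (hs.mono' (Nat.le_succ κ)))
        · intro hB2
          exact absurd hB2 (A2 κ hκ1 hκm hcop hB)
        · intro hg
          have := hg.1 κ hκ1 (Nat.le_succ κ)
          omega

end Pool.Agent.Helper69.WZ.Case
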