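import Pool.Agent.Helper69.WZ.Stm3

/-!
EVEN: the step lemma for cyclic groups of order `2 q^b`, `q ≥ 5` prime.
-/

set_option autoImplicit false

namespace Pool.Agent.Helper69.WZ.Even

open Pool.Agent.Helper69.WZ Pool.Agent.Helper69.WZ.T

/-! ### the numeric part -/

/-- numeric version of `GE` -/
def ge (q : ℕ) (a c : ℕ → ℕ) (u : ℕ) : Prop :=
  (u % (2 * q) = q + 2 ∧ (u + 1 ≤ a u + c u ∨ u + 1 ≤ 2 * c u)) ∨
  (u % (2 * q) = q - 2 ∧ u + 1 ≤ a u + c u ∧
    (u + 1 + 1 ≤ a (u + 1) + c (u + 1) ∨ u + 1 ≤ 2 * c u)) ∨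
  (u % (2 * q) ≠ q + 2 ∧ u % (2 * q) ≠ q - 2 ∧ u + 1 ≤ a u + c u)

lemma modh (q n r u : ℕ) (h : r < 2 * q) (hu : u = 2 * q * n + r) : u % (2 * q) = r := by
  rw [hu, Nat.mul_add_mod]
  exact Nat.mod_eq_of_lt h

lemma ndvd (q n r u : ℕ) (h0 : 0 < r) (h : r < 2 * q) (hr : r ≠ q) (hu : u = 2 * q * n + r) :
    ¬ q ∣ u := by
  rw [hu]
  intro h1
  have h2 : q ∣ 2 * q * n := ⟨2 * n, by ring⟩
  obtain ⟨s, hs⟩ := (Nat.dvd_add_right h2).1 h1
  rcases s with _ | _ | s
  · omega
  · omega
  · have : q * (s + 1 + 1) = q * s + 2 * q := by ring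
    omega

theorem core (q m κ z : ℕ) (a c a' c' : ℕ → ℕ) (hq5 : 5 ≤ q) (hqodd : q % 2 = 1)
    (hm : 2 * q ∣ m) (k1 : 1 ≤ κ) (k2 : κ ≤ m - 1) (ma : Monotone a) (mc : Monotone c)
    (ma' : Monotone a') (mc' : Monotone c') (haa : ∀ k, a k ≤ a' k) (hcc : ∀ k, c k ≤ c' k)
    (h1 : ∀ k, a k ≤ c' (k + 1)) (h2 : ∀ k, k ≤ m - 1 → c k + 1 ≤ a' (k + 1))
    (h3 : ∀ j, κ ≤ j → j ≤ m - 1 → a j + c j ≤ j) (h4 : a κ + c κ = κ) (h5 : a (κ - 1) = a κ)
    (h6 : c (κ - 1) = c κ) (hz : z ≤ a' κ + c' κ) (hz1 : κ + 1 ≤ z) :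
    (∃ u, 1 ≤ u ∧ u < m ∧ u % 2 = 1 ∧ ¬ q ∣ u ∧ ¬ ge q a c u ∧ ge q a' c' u) ∨
    (∃ k, 1 ≤ k ∧ k < m ∧ 2 ∣ k ∧ ¬ q ∣ k ∧ a k ≤ k / 2 ∧ k / 2 + 1 ≤ a' k) ∨
    ((2 ∣ κ ∨ q ∣ κ) ∧ z ≤ κ + 1) := by
  obtain ⟨M, hM⟩ := hm
  have hdiv := Nat.div_add_mod κ (2 * q)
  set n := κ / (2 * q) with hn
  set r := κ % (2 * q) with hr
  have hrlt : r < 2 * q := Nat.mod_lt _ (by omega)
  have hκ : κ = 2 * q * n + r := hdiv.symm
  have hNm : 2 * q * n + 2 * q ≤ m := by
    have hlt : 2 * q * n < 2 * q * M := by omega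
    have hnM : n < M := Nat.lt_of_mul_lt_mul_left hlt
    calc 2 * q * n + 2 * q = 2 * q * (n + 1) := by ring
      _ ≤ 2 * q * M := Nat.mul_le_mul_left _ hnM
      _ = m := hM.symm
  have hN2 : (2 * q * n) % 2 = 0 := by
    rw [mul_assoc]
    exact Nat.mul_mod_right 2 _
  -- the facts at `κ`
  have hκ1 : κ - 1 + 1 = κ := by omega
  have g1 : a κ ≤ c' κ := by
    have := h1 (κ - 1)
    rw [hκ1, h5] at this
    exact this
  have g2 : c κ + 1 ≤ a' κ := by
    have := h2 (κ - 1) (by omega)
    rw [hκ1, h6] at this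
    exact this
  have g3 := h1 κ
  have g4 := h2 κ k2
  have g5 : a κ ≤ a (κ + 1) := ma (by omega)
  have g6 : c κ ≤ c (κ + 1) := mc (by omega)
  have g7 : a' κ ≤ a' (κ + 1) := ma' (by omega)
  have g8 : c' κ ≤ c' (κ + 1) := mc' (by omega)
  have g9 := haa κ
  have g10 := hcc κ
  rcases Nat.mod_two_eq_zero_or_one κ with hpar | hpar
  · -- `κ` even
    by_cases hr0 : r = 0
    · -- `κ ≡ 0`
      by_cases hzz : z ≤ κ + 1
      · exact Or.inr (Or.inr ⟨Or.inl (Nat.dvd_of_mod_eq_zero hpar), hzz⟩)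
      · left
        have e1 : (κ + 1) % (2 * q) = 1 := modh q n 1 (κ + 1) (by omega) (by omega)
        have e2 := h3 (κ + 1) (by omega) (by omega)
        refine ⟨κ + 1, by omega, by omega, by omega,
          ndvd q n 1 (κ + 1) (by omega) (by omega) (by omega) (by omega), ?_, ?_⟩
        · unfold ge
          rw [e1]
          omega
        · unfold ge
          rw [e1]
          right
          right
          refine ⟨by omega, by omega, by omega⟩
    · have hrq : r ≠ q := by omega
      by_cases ha : a κ ≤ κ / 2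
      · -- `E κ` is new
        right
        left
        refine ⟨κ, k1, by omega, Nat.dvd_of_mod_eq_zero hpar,
          ndvd q n r κ (by omega) (by omega) hrq hκ, ha, by omega⟩
      · by_cases hrq1 : r = q - 1
        · left
          have e1 : (κ - 1) % (2 * q) = q - 2 := modh q n (q - 2) (κ - 1) (by omega) (by omega)
          have e3 := haa (κ - 1)
          have e4 := hcc (κ - 1)
          refine ⟨κ - 1, by omega, by omega, by omega,
            ndvd q n (q - 2) (κ - 1) (by omega) (by omega) (by omega) (by omega), ?_, ?_⟩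
          · unfold ge
            rw [e1, hκ1]
            omega
          · unfold ge
            rw [e1, hκ1]
            right
            left
            refine ⟨rfl, by omega, Or.inl (by omega)⟩
        · left
          have e1 : (κ + 1) % (2 * q) = r + 1 :=
            modh q n (r + 1) (κ + 1) (by omega) (by omega)
          have e2 := h3 (κ + 1) (by omega) (by omega)
          refine ⟨κ + 1, by omega, by omega, by omega,
            ndvd q n (r + 1) (κ + 1) (by omega) (by omega) (by omega) (by omega), ?_, ?_⟩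
          · unfold ge
            rw [e1]
            omega
          · unfold ge
            rw [e1]
            by_cases t1 : r + 1 = q + 2
            · left
              exact ⟨t1, Or.inl (by omega)⟩
            · by_cases t2 : r + 1 = q - 2
              · right
                left
                exact ⟨t2, by omega, Or.inr (by omega)⟩
              · right
                right
                exact ⟨t1, t2, by omega⟩
  · -- `κ` odd
    by_cases hrq : r = q
    · -- `κ ≡ q`
      have hqκ : q ∣ κ := by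
        rw [hκ, hrq]
        exact ⟨2 * n + 1, by ring⟩
      have e1 := h3 (κ + 1) (by omega) (by omega)
      have e2 := h3 (κ + 2) (by omega) (by omega)
      have e3 := h3 (κ + 3) (by omega) (by omega)
      have e4 : a' (κ + 1) ≤ a' (κ + 2) := ma' (by omega)
      have e5 : c' (κ + 1) ≤ c' (κ + 2) := mc' (by omega)
      have e6 : c (κ + 2) ≤ c (κ + 3) := mc (by omega)
      have e7 : a (κ + 1) ≤ c' (κ + 2) := h1 (κ + 1)
      have e8 : c (κ + 2) + 1 ≤ a' (κ + 3) := h2 (κ + 2) (by omega)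
      by_cases hc : (κ + 1) / 2 ≤ c κ
      · right
        left
        exact ⟨κ + 1, by omega, by omega, Nat.dvd_of_mod_eq_zero (by omega),
          ndvd q n (q + 1) (κ + 1) (by omega) (by omega) (by omega) (by omega), by omega, by omega⟩
      · by_cases hLo : κ + 3 ≤ 2 * c (κ + 2)
        · right
          left
          exact ⟨κ + 3, by omega, by omega, Nat.dvd_of_mod_eq_zero (by omega),
            ndvd q n (q + 3) (κ + 3) (by omega) (by omega) (by omega) (by omega), by omega,
            by omega⟩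
        · have e9 : (κ + 2) % (2 * q) = q + 2 := modh q n (q + 2) (κ + 2) (by omega) (by omega)
          by_cases hR : κ + 3 ≤ a' (κ + 2) + c' (κ + 2) ∨ κ + 3 ≤ 2 * c' (κ + 2)
          · left
            refine ⟨κ + 2, by omega, by omega, by omega,
              ndvd q n (q + 2) (κ + 2) (by omega) (by omega) (by omega) (by omega), ?_, ?_⟩
            · unfold ge
              rw [e9]
              omega
            · unfold ge
              rw [e9]
              left
              exact ⟨rfl, by omega⟩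
          · by_cases hE : (κ + 1) / 2 + 1 ≤ a' (κ + 1)
            · right
              left
              exact ⟨κ + 1, by omega, by omega, Nat.dvd_of_mod_eq_zero (by omega),
                ndvd q n (q + 1) (κ + 1) (by omega) (by omega) (by omega) (by omega), by omega,
                hE⟩
            · right
              right
              exact ⟨Or.inr hqκ, by omega⟩
    · -- `κ` is a unit
      have e1 : κ % (2 * q) = r := rfl
      by_cases t1 : r = q + 2
      · by_cases hLo : κ + 1 ≤ 2 * c κ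
        · right
          left
          have e2 := h3 (κ + 1) (by omega) (by omega)
          exact ⟨κ + 1, by omega, by omega, Nat.dvd_of_mod_eq_zero (by omega),
            ndvd q n (q + 3) (κ + 1) (by omega) (by omega) (by omega) (by omega), by omega,
            by omega⟩
        · left
          refine ⟨κ, by omega, by omega, hpar, ndvd q n r κ (by omega) hrlt hrq hκ, ?_, ?_⟩
          · unfold ge
            rw [e1]
            omega
          · unfold ge
            rw [e1]
            left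
            exact ⟨t1, Or.inl (by omega)⟩
      · left
        refine ⟨κ, by omega, by omega, hpar, ndvd q n r κ (by omega) hrlt hrq hκ, ?_, ?_⟩
        · unfold ge
          rw [e1]
          omega
        · unfold ge
          rw [e1]
          by_cases t2 : r = q - 2
          · right
            left
            exact ⟨t2, by omega, Or.inr (by omega)⟩
          · right
            right
            exact ⟨t1, t2, by omega⟩

/-! ### the facts on `ev`, `od` -/

lemma ev_add_od (m : ℕ) (Y : Finset (ZMod m)) : ev m Y + od m Y = Y.card := by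
  unfold ev od
  exact Finset.card_filter_add_card_filter_not _

lemma ev_mono (m : ℕ) {Y Z : Finset (ZMod m)} (h : Y ⊆ Z) : ev m Y ≤ ev m Z :=
  Finset.card_le_card (Finset.filter_subset_filter _ h)

lemma od_mono (m : ℕ) {Y Z : Finset (ZMod m)} (h : Y ⊆ Z) : od m Y ≤ od m Z :=
  Finset.card_le_card (Finset.filter_subset_filter _ h)

lemma half_add (m : ℕ) (h2 : 2 ∣ m) :
    ((m / 2 : ℕ) : ZMod m) + ((m / 2 : ℕ) : ZMod m) = 0 := by
  rw [← Nat.cast_add, show m / 2 + m / 2 = m by omega, ZMod.natCast_self]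

lemma half_mul (m : ℕ) (hm : 0 < m) (h2 : 2 ∣ m) (x : ZMod m) :
    ((m / 2 : ℕ) : ZMod m) * x = 0 ∨ ((m / 2 : ℕ) : ZMod m) * x = ((m / 2 : ℕ) : ZMod m) := by
  have : NeZero m := ⟨by omega⟩
  have hh := half_add m h2
  obtain ⟨k, hk⟩ := Nat.even_or_odd' x.val
  have hx : x = ((x.val : ℕ) : ZMod m) := (ZMod.natCast_zmod_val x).symm
  rcases hk with hk | hk
  · left
    rw [hx, hk, Nat.cast_mul, ← mul_assoc, Nat.cast_ofNat, mul_two, hh, zero_mul]
  · right
    rw [hx, hk, Nat.cast_add, Nat.cast_mul, mul_add, ← mul_assoc, Nat.cast_ofNat, mul_two, hh,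
      zero_mul, zero_add, Nat.cast_one, mul_one]

lemma half_unit (m : ℕ) (hm : 0 < m) (h2 : 2 ∣ m) (g : ZMod m) (hg : IsUnit g) :
    ((m / 2 : ℕ) : ZMod m) * g = ((m / 2 : ℕ) : ZMod m) ∧ ((m / 2 : ℕ) : ZMod m) ≠ 0 := by
  have h3 : ((m / 2 : ℕ) : ZMod m) ≠ 0 := by
    rw [Ne, ZMod.natCast_eq_zero_iff]
    intro h
    have := Nat.le_of_dvd (by omega) h
    omega
  refine ⟨?_, h3⟩
  rcases half_mul m hm h2 g with h | h
  · exact absurd (hg.mul_left_eq_zero.1 h) h3
  · exact h

lemma od_succ (m : ℕ) (hm : 0 < m) (h2 : 2 ∣ m) (g : ZMod m) (hg : IsUnit g)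
    (Y Z : Finset (ZMod m)) (h : ∀ x ∈ Y, x + g ∈ Z) : ev m Y ≤ od m Z := by
  obtain ⟨u1, u2⟩ := half_unit m hm h2 g hg
  unfold ev od
  rw [← Finset.card_image_of_injective _ (add_left_injective g)]
  apply Finset.card_le_card
  intro x hx
  rw [Finset.mem_image] at hx
  obtain ⟨y, hy, rfl⟩ := hx
  rw [Finset.mem_filter] at hy ⊢
  refine ⟨h y hy.1, ?_⟩
  show ((m / 2 : ℕ) : ZMod m) * (y + g) ≠ 0
  rw [mul_add, hy.2, zero_add, u1]
  exact u2

lemma ev_succ (m : ℕ) (hm : 0 < m) (h2 : 2 ∣ m) (g : ZMod m) (hg : IsUnit g)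
    (Y Z : Finset (ZMod m)) (h : ∀ x ∈ Y, x + g ∈ Z) (h0 : (0 : ZMod m) ∈ Z) (hl : -g ∉ Y) :
    od m Y + 1 ≤ ev m Z := by
  obtain ⟨u1, u2⟩ := half_unit m hm h2 g hg
  unfold ev od
  have h3 : (0 : ZMod m) ∉ (Y.filter (fun x => ((m / 2 : ℕ) : ZMod m) * x ≠ 0)).image
      (fun x => x + g) := by
    rw [Finset.mem_image]
    rintro ⟨y, hy, h4⟩
    have h5 : y = -g := eq_neg_of_add_eq_zero_left h4
    rw [h5] at hy
    exact hl (Finset.mem_filter.1 hy).1
  have h4 : insert (0 : ZMod m) ((Y.filter (fun x => ((m / 2 : ℕ) : ZMod m) * x ≠ 0)).image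
      (fun x => x + g)) ⊆ Z.filter (fun x => ((m / 2 : ℕ) : ZMod m) * x = 0) := by
    intro x hx
    rw [Finset.mem_insert, Finset.mem_image] at hx
    rw [Finset.mem_filter]
    rcases hx with rfl | ⟨y, hy, rfl⟩
    · exact ⟨h0, mul_zero _⟩
    · rw [Finset.mem_filter] at hy
      refine ⟨h y hy.1, ?_⟩
      show ((m / 2 : ℕ) : ZMod m) * (y + g) = 0
      rw [mul_add, u1]
      rcases half_mul m hm h2 y with h5 | h5
      · exact absurd h5 hy.2
      · rw [h5]
        exact half_add m h2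
  have h5 := Finset.card_le_card h4
  rwa [Finset.card_insert_of_notMem h3,
    Finset.card_image_of_injective _ (add_left_injective g)] at h5

lemma ge_iff (m q : ℕ) (X : ℕ → Finset (ZMod m)) (u : ℕ) :
    GE m q X u ↔ ge q (fun k => ev m (X k)) (fun k => od m (X k)) u := by
  unfold GE ge Pl Lo
  simp only [ev_add_od]

theorem main : S_ARC1 → S_EVEN := by
  intro hA q b g X X' hq hq5 hb hS
  have hmpos : 0 < 2 * q ^ b := by positivity
  have hm2 : 2 ∣ 2 * q ^ b := ⟨_, rfl⟩
  have hqb : q ∣ q ^ b := dvd_pow_self q (by omega)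
  have hqbpos : 0 < q ^ b := by positivity
  have hqdvd : 2 * q ∣ 2 * q ^ b := Nat.mul_dvd_mul_left 2 hqb
  have hqodd : q % 2 = 1 := by
    rcases hq.eq_two_or_odd with h | h
    · omega
    · exact h
  obtain ⟨κ, k1, k2, k3, k4, k5, k6, k7⟩ := crossing (by omega) hS
  have hlegal : ∀ k, k ≤ 2 * q ^ b - 1 → -g ∉ X k := fun k hk h => hS.legal (hS.mono hk h)
  have hcore := core q (2 * q ^ b) κ (X κ ∪ (X κ).image (fun x => x + g)).card
    (fun k => ev (2 * q ^ b) (X k)) (fun k => od (2 * q ^ b) (X k))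
    (fun k => ev (2 * q ^ b) (X' k)) (fun k => od (2 * q ^ b) (X' k)) hq5 hqodd hqdvd k1 k2
    (fun i j h => ev_mono _ (hS.mono h)) (fun i j h => od_mono _ (hS.mono h))
    (fun i j h => ev_mono _ (hS.mono' h)) (fun i j h => od_mono _ (hS.mono' h))
    (fun k => ev_mono _ (hS.sub k)) (fun k => od_mono _ (hS.sub k))
    (fun k => od_succ _ hmpos hm2 g hS.unit _ _ (hS.add k))
    (fun k hk => ev_succ _ hmpos hm2 g hS.unit _ _ (hS.add k)
      (hS.sub _ (hS.mono (Nat.zero_le _) hS.zero)) (hlegal k hk))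
    (fun j h1 h2 => by
      show ev _ (X j) + od _ (X j) ≤ j
      rw [ev_add_od]
      exact k3 j h1 h2)
    (by
      show ev _ (X κ) + od _ (X κ) = κ
      rw [ev_add_od]
      exact k4)
    (by
      show ev _ (X (κ - 1)) = ev _ (X κ)
      rw [k5])
    (by
      show od _ (X (κ - 1)) = od _ (X κ)
      rw [k5])
    (by
      show _ ≤ ev _ (X' κ) + od _ (X' κ)
      rw [ev_add_od]
      exact Finset.card_le_card k6)
    k7
  rcases hcore with ⟨u, u1, u2, u3, u4, u5, u6⟩ | ⟨k, c1, c2, c3, c4, c5, c6⟩ | ⟨c1, c2⟩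
  · left
    refine ⟨u, u1, u2, ?_, ?_, ?_⟩
    · apply Nat.Coprime.mul_right
      · rw [Nat.coprime_comm, Nat.prime_two.coprime_iff_not_dvd]
        omega
      · apply Nat.Coprime.pow_right
        rw [Nat.coprime_comm, hq.coprime_iff_not_dvd]
        exact u4
    · rw [ge_iff]
      exact u5
    · rw [ge_iff]
      exact u6
  · right
    left
    have hd : 2 * q ^ b / q ^ b = 2 := Nat.mul_div_cancel _ hqbpos
    have hd2 : 2 * q ^ b / 2 = q ^ b := Nat.mul_div_cancel_left _ (by omega)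
    have hk : k / 2 * 2 = k := Nat.div_mul_cancel c3
    have hcnt : ∀ Y : ℕ → Finset (ZMod (2 * q ^ b)),
        cnt (2 * q ^ b) (q ^ b) (k / 2) Y = ev (2 * q ^ b) (Y k) := by
      intro Y
      unfold cnt ev
      rw [hd, hk, hd2]
    refine ⟨q ^ b, k / 2, hq.isPrimePow.pow (by omega), ⟨2, by ring⟩, by omega, by omega,
      by omega, ?_, ?_, ?_⟩
    · apply Nat.Coprime.pow_right
      rw [Nat.coprime_comm, hq.coprime_iff_not_dvd]
      intro h
      apply c4
      rw [← hk]
      exact Dvd.dvd.mul_right h 2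
    · rw [hcnt]
      exact c5
    · rw [hcnt]
      exact c6
  · right
    right
    have h0 : (0 : ZMod (2 * q ^ b)) ∈ X κ := hS.mono (Nat.zero_le _) hS.zero
    obtain ⟨a1, a2⟩ := hA (2 * q ^ b) g (X κ) hmpos hS.unit h0 (hlegal κ k2) (by omega)
    rw [k4] at a1 a2
    refine ⟨κ, k1, by omega, ?_, a1, ?_⟩
    · intro hcop
      rcases c1 with h | h
      · have h1 := Nat.dvd_gcd h hm2
        rw [hcop] at h1
        exact absurd (Nat.dvd_one.1 h1) (by omega)
      · have h1 := Nat.dvd_gcd h (hqb.trans ⟨2, by ring⟩ : q ∣ 2 * q ^ b)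
        rw [hcop] at h1
        exact absurd (Nat.dvd_one.1 h1) (by omega)
    · rw [← a2]
      exact k6

end Pool.Agent.Helper69.WZ.Even
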