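import Pool.Graph.R_seed8.TH106.PPClasses
import Pool.Agent.Helper69.WZ.Stm

set_option autoImplicit false

namespace Pool.Agent.Helper69.WZ.Grp

open Pool.Agent.TH106.PrimePow Pool.Agent.Helper69.WZ

variable {G : Type*} [Group G]

/-- `x` is the product of a subsequence of `S` of weight at most `r` -/
def R (S : List G) (x : G) (r : ℚ) : Prop := ∃ l : List G, l.Sublist S ∧ l.prod = x ∧ lw l ≤ r

lemma R_one (S : List G) {r : ℚ} (hr : 0 ≤ r) : R S 1 r :=
  ⟨[], List.nil_sublist _, rfl, by simpa [lw] using hr⟩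

lemma R_mono {S T : List G} (h : S.Sublist T) {x : G} {r r' : ℚ} (hr : r ≤ r') (hR : R S x r) :
    R T x r' := by
  obtain ⟨l, h1, h2, h3⟩ := hR
  exact ⟨l, h1.trans h, h2, h3.trans hr⟩

lemma R_append {S : List G} {x g : G} {r : ℚ} (hR : R S x r) :
    R (S ++ [g]) (x * g) (r + 1 / (orderOf g : ℚ)) := by
  obtain ⟨l, h1, h2, h3⟩ := hR
  refine ⟨l ++ [g], h1.append (List.Sublist.refl _), by simp [h2], ?_⟩
  rw [lw_append]
  have : lw [g] = 1 / (orderOf g : ℚ) := by simp [lw]
  linarith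

lemma legal {S : List G} {g : G} (h : ¬ Hit (S ++ [g])) : ¬ R S g⁻¹ (1 - 1 / (orderOf g : ℚ)) := by
  rintro ⟨l, h1, h2, h3⟩
  apply h
  refine ⟨l ++ [g], h1.append (List.Sublist.refl _), by simp, by simp [h2], ?_⟩
  rw [lw_append]
  have : lw [g] = 1 / (orderOf g : ℚ) := by simp [lw]
  linarith

open Classical in
/-- the levels of the cyclic group generated by `c`, of order `m` -/
noncomputable def X (S : List G) (c : G) (m : ℕ) [NeZero m] (k : ℕ) : Finset (ZMod m) :=
  Finset.univ.filter (fun j => R S (c ^ j.val) ((k : ℚ) / m))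

lemma mem_X {S : List G} {c : G} {m : ℕ} [NeZero m] {k : ℕ} {j : ZMod m} :
    j ∈ X S c m k ↔ R S (c ^ j.val) ((k : ℚ) / m) := by
  simp [X]

open Classical in
/-- number of elements of `D` of weight at most `r` -/
noncomputable def Dn [Fintype G] (S : List G) (D : Subgroup G) (r : ℚ) : ℕ :=
  (Finset.univ.filter (fun y : G => y ∈ D ∧ R S y r)).card

lemma X_mono (S : List G) (c : G) (m : ℕ) [NeZero m] : Monotone (X S c m) := by
  intro k l hkl j hj
  rw [mem_X] at hj ⊢
  refine R_mono (List.Sublist.refl _) ?_ hj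
  gcongr

lemma X_sub {S T : List G} (h : S.Sublist T) (c : G) (m : ℕ) [NeZero m] (k : ℕ) :
    X S c m k ⊆ X T c m k := by
  intro j hj
  rw [mem_X] at hj ⊢
  exact R_mono h le_rfl hj

lemma X_zero (S : List G) (c : G) (m : ℕ) [NeZero m] : (0 : ZMod m) ∈ X S c m 0 := by
  rw [mem_X]
  simpa using R_one S le_rfl

lemma pmod {c : G} {m : ℕ} (hc : orderOf c = m) (n : ℕ) : c ^ (n % m) = c ^ n := by
  rw [← hc, pow_mod_orderOf]

lemma pow_add_val {c : G} {m : ℕ} [NeZero m] (hc : orderOf c = m) (i j : ZMod m) :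
    c ^ (i + j).val = c ^ i.val * c ^ j.val := by
  rw [← pow_add, ZMod.val_add, pmod hc]

lemma pow_inj {c : G} {m : ℕ} [NeZero m] (hc : orderOf c = m) {i j : ZMod m}
    (h : c ^ i.val = c ^ j.val) : i = j := by
  apply ZMod.val_injective
  have h1 := pow_injOn_Iio_orderOf (x := c)
  apply h1
  · rw [Set.mem_Iio, hc]; exact ZMod.val_lt i
  · rw [Set.mem_Iio, hc]; exact ZMod.val_lt j
  · exact h

lemma card_X [Fintype G] (S : List G) (c : G) (m : ℕ) [NeZero m] (hc : orderOf c = m) (k : ℕ) :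
    (X S c m k).card = Dn S (Subgroup.zpowers c) ((k : ℚ) / m) := by
  classical
  unfold Dn
  rw [← Finset.card_image_of_injective (X S c m k) (f := fun j : ZMod m => c ^ j.val)
    (fun i j h => pow_inj hc h)]
  congr 1
  ext y
  simp only [Finset.mem_image, Finset.mem_filter, Finset.mem_univ, true_and]
  constructor
  · rintro ⟨j, hj, rfl⟩
    exact ⟨Subgroup.pow_mem _ (Subgroup.mem_zpowers c) _, mem_X.1 hj⟩
  · rintro ⟨hy, hR⟩
    obtain ⟨n, hn⟩ := (Submonoid.mem_powers_iff _ _).1
      ((mem_powers_iff_mem_zpowers (x := c) (y := y)).2 hy)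
    refine ⟨(n : ZMod m), ?_, ?_⟩
    · rw [mem_X, ZMod.val_natCast, pmod hc, hn]
      exact hR
    · show c ^ (n : ZMod m).val = y
      rw [ZMod.val_natCast, pmod hc, hn]

lemma card_cnt [Fintype G] (S : List G) (c : G) (m p t : ℕ) [NeZero m] (hc : orderOf c = m)
    (hp : p.Prime) (hpm : p ∣ m) :
    cnt m p t (X S c m) = Dn S (Subgroup.zpowers (c ^ (m / p))) ((t : ℚ) / p) := by
  classical
  unfold Dn cnt
  have hm : 0 < m := Nat.pos_of_ne_zero (NeZero.ne m)
  have hr : (((t * (m / p) : ℕ) : ℚ) / m) = (t : ℚ) / p := by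
    obtain ⟨n, rfl⟩ := hpm
    rw [Nat.mul_div_cancel_left _ hp.pos]
    have : (n : ℚ) ≠ 0 := by
      rintro h
      have : n = 0 := by exact_mod_cast h
      subst this
      simp at hm
    have hp0 : (p : ℚ) ≠ 0 := by exact_mod_cast hp.pos.ne'
    push_cast
    field_simp
  rw [← Finset.card_image_of_injective _ (f := fun j : ZMod m => c ^ j.val)
    (fun i j h => pow_inj hc h)]
  congr 1
  ext y
  simp only [Finset.mem_image, Finset.mem_filter, Finset.mem_univ, true_and]
  constructor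
  · rintro ⟨j, ⟨hj, hpj⟩, rfl⟩
    rw [mem_X, hr] at hj
    refine ⟨?_, hj⟩
    -- j.val is a multiple of m / p
    have h1 : ((p * j.val : ℕ) : ZMod m) = 0 := by
      push_cast
      rw [ZMod.natCast_zmod_val]
      exact hpj
    rw [ZMod.natCast_eq_zero_iff] at h1
    have h2 : m / p ∣ j.val := by
      obtain ⟨n, rfl⟩ := hpm
      rw [Nat.mul_div_cancel_left _ hp.pos]
      exact Nat.dvd_of_mul_dvd_mul_left hp.pos h1
    obtain ⟨i, hi⟩ := h2
    rw [hi, pow_mul]
    exact Subgroup.pow_mem _ (Subgroup.mem_zpowers _) _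
  · rintro ⟨hy, hR⟩
    obtain ⟨n, hn⟩ := (Submonoid.mem_powers_iff _ _).1
      ((mem_powers_iff_mem_zpowers (x := c ^ (m / p)) (y := y)).2 hy)
    rw [← pow_mul] at hn
    refine ⟨((m / p * n : ℕ) : ZMod m), ⟨?_, ?_⟩, ?_⟩
    · rw [mem_X, ZMod.val_natCast, hr, pmod hc, hn]
      exact hR
    · rw [← Nat.cast_mul, ZMod.natCast_eq_zero_iff]
      rw [← mul_assoc, Nat.mul_div_cancel' hpm]
      exact dvd_mul_right _ _
    · show c ^ ((m / p * n : ℕ) : ZMod m).val = y
      rw [ZMod.val_natCast, pmod hc, hn]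

/-- the potential of a group of prime order -/
def F1 (m : ℕ) (Y : ℕ → Finset (ZMod m)) : ℕ :=
  ((Finset.Icc 1 (m - 1)).filter (fun t => t + 1 ≤ (Y t).card)).card

lemma F1_mono (m : ℕ) {Y Z : ℕ → Finset (ZMod m)} (h : ∀ k, Y k ⊆ Z k) : F1 m Y ≤ F1 m Z := by
  apply Finset.card_le_card
  intro t ht
  rw [Finset.mem_filter] at ht ⊢
  exact ⟨ht.1, ht.2.trans (Finset.card_le_card (h t))⟩

lemma F1_lt (m : ℕ) {Y Z : ℕ → Finset (ZMod m)} (h : ∀ k, Y k ⊆ Z k) (t : ℕ) (h1 : 1 ≤ t)
    (h2 : t < m) (h3 : (Y t).card ≤ t) (h4 : t + 1 ≤ (Z t).card) : F1 m Y < F1 m Z := by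
  apply Finset.card_lt_card
  rw [Finset.ssubset_iff_of_subset]
  · refine ⟨t, ?_, ?_⟩
    · rw [Finset.mem_filter, Finset.mem_Icc]
      exact ⟨⟨h1, by omega⟩, h4⟩
    · rw [Finset.mem_filter]
      rintro ⟨-, h⟩
      omega
  · intro t ht
    rw [Finset.mem_filter] at ht ⊢
    exact ⟨ht.1, ht.2.trans (Finset.card_le_card (h t))⟩

lemma F1_step {m : ℕ} (hm : 2 ≤ m) {g : ZMod m} {Y Z : ℕ → Finset (ZMod m)}
    (h : Step m g Y Z) : F1 m Y < F1 m Z := by
  classical
  have : NeZero m := ⟨by omega⟩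
  have hex : ∃ k, 1 ≤ k ∧ (Y k).card ≤ k := by
    refine ⟨m - 1, by omega, ?_⟩
    have h1 : (Y (m - 1)).card < m := by
      have h2 : Y (m - 1) ⊆ Finset.univ.erase (-g) := by
        intro x hx
        rw [Finset.mem_erase]
        refine ⟨?_, Finset.mem_univ _⟩
        rintro rfl
        exact h.legal hx
      have h3 := Finset.card_le_card h2
      rw [Finset.card_erase_of_mem (Finset.mem_univ _), Finset.card_univ, ZMod.card] at h3
      omega
    omega
  set κ := Nat.find hex with hκ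
  obtain ⟨k1, k2⟩ := Nat.find_spec hex
  rw [← hκ] at k1 k2
  have hκm : κ ≤ m - 1 := by
    apply Nat.find_min' hex
    refine ⟨by omega, ?_⟩
    have h2 : Y (m - 1) ⊆ Finset.univ.erase (-g) := by
      intro x hx
      rw [Finset.mem_erase]
      refine ⟨?_, Finset.mem_univ _⟩
      rintro rfl
      exact h.legal hx
    have h3 := Finset.card_le_card h2
    rw [Finset.card_erase_of_mem (Finset.mem_univ _), Finset.card_univ, ZMod.card] at h3
    exact h3
  have h4 : κ ≤ (Y (κ - 1)).card := by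
    by_cases h5 : κ = 1
    · rw [h5]
      exact Finset.card_pos.2 ⟨0, h.zero⟩
    · have h6 := Nat.find_min hex (m := κ - 1) (by omega)
      push Not at h6
      have := h6 (by omega)
      omega
  have h7 : Y (κ - 1) = Y κ :=
    Finset.eq_of_subset_of_card_le (h.mono (by omega)) (by omega)
  have h8 : Y κ ∪ (Y κ).image (fun x => x + g) ⊆ Z κ := by
    intro x hx
    rw [Finset.mem_union, Finset.mem_image] at hx
    rcases hx with hx | ⟨y, hy, rfl⟩
    · exact h.sub _ hx
    · have := h.add (κ - 1) y (by rw [h7]; exact hy)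
      rwa [show κ - 1 + 1 = κ by omega] at this
  have h9 : κ + 1 ≤ (Z κ).card := by
    by_contra hcon
    have e1 := Finset.card_le_card h8
    have e2 : Y κ ⊆ Y κ ∪ (Y κ).image (fun x => x + g) := Finset.subset_union_left
    have e3 : Y κ = Y κ ∪ (Y κ).image (fun x => x + g) := by
      apply Finset.eq_of_subset_of_card_le e2
      have : (Y κ).card = κ := by
        have := Finset.card_le_card (h.mono (show κ - 1 ≤ κ by omega))
        omega
      omega
    have e4 : (Y κ).image (fun x => x + g) ⊆ Y κ := by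
      conv_rhs => rw [e3]
      exact Finset.subset_union_right
    have e5 : (Y κ).image (fun x => x + g) = Y κ := by
      apply Finset.eq_of_subset_of_card_le e4
      rw [Finset.card_image_of_injective _ (add_left_injective g)]
    have e6 : (0 : ZMod m) ∈ (Y κ).image (fun x => x + g) := by
      rw [e5]
      exact h.mono (Nat.zero_le κ) h.zero
    rw [Finset.mem_image] at e6
    obtain ⟨y, hy, hyg⟩ := e6
    have : y = -g := eq_neg_of_add_eq_zero_left hyg
    rw [this] at hy
    exact h.legal (h.mono hκm hy)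
  exact F1_lt m h.sub κ k1 (by omega) k2 h9

open Classical in
/-- the potential of the cyclic group generated by `c` -/
noncomputable def Pot (S : List G) (c : G) (m : ℕ) [NeZero m] : ℕ :=
  if m.Prime then F1 m (X S c m) else if h : S_LOC m then h.choose (X S c m) else 0

lemma Pot_le (S : List G) (c : G) (m : ℕ) [NeZero m] : Pot S c m ≤ m.totient := by
  unfold Pot
  split_ifs with h1 h2
  · rw [Nat.totient_prime h1]
    refine (Finset.card_filter_le _ _).trans ?_
    simp
  · exact h2.choose_spec.1 _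
  · exact Nat.zero_le _

lemma Pot_mono {S T : List G} (h : S.Sublist T) (c : G) (m : ℕ) [NeZero m] :
    Pot S c m ≤ Pot T c m := by
  unfold Pot
  split_ifs with h1 h2
  · exact F1_mono m (X_sub h c m)
  · exact h2.choose_spec.2.1 _ _ (X_mono S c m) (X_mono T c m) (X_zero S c m) (X_sub h c m)
  · exact le_rfl

/-- the step on the cyclic group of the new term -/
lemma step_X [Finite G] {S : List G} {g c : G} {m : ℕ} [NeZero m] (hc : orderOf c = m)
    (hg : Subgroup.zpowers g = Subgroup.zpowers c) (h : ¬ Hit (S ++ [g])) :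
    ∃ a : ZMod m, Step m a (X S c m) (X (S ++ [g]) c m) := by
  have hgm : orderOf g = m := by
    rw [← Nat.card_zpowers, hg, Nat.card_zpowers, hc]
  obtain ⟨n, hn⟩ := (Submonoid.mem_powers_iff _ _).1
    ((mem_powers_iff_mem_zpowers (x := c) (y := g)).2 (by rw [← hg]; exact Subgroup.mem_zpowers g))
  have hm : 0 < m := Nat.pos_of_ne_zero (NeZero.ne m)
  have hval : c ^ ((n : ZMod m)).val = g := by rw [ZMod.val_natCast, pmod hc, hn]
  have hcop : Nat.Coprime n m := by
    have h1 : orderOf (c ^ n) = orderOf c / Nat.gcd (orderOf c) n := orderOf_pow c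
    rw [hn, hgm, hc] at h1
    have h2 : Nat.gcd m n ∣ m := Nat.gcd_dvd_left _ _
    have h3 : 0 < Nat.gcd m n := Nat.gcd_pos_of_pos_left _ hm
    have h4 : m / Nat.gcd m n * Nat.gcd m n = m := Nat.div_mul_cancel h2
    rw [← h1] at h4
    have h5 : Nat.gcd m n = 1 := by
      have : m * Nat.gcd m n = m * 1 := by omega
      exact Nat.eq_of_mul_eq_mul_left hm this
    rw [Nat.coprime_comm]
    exact h5
  refine ⟨(n : ZMod m), ⟨(ZMod.isUnit_iff_coprime n m).2 hcop, X_mono _ _ _, X_mono _ _ _,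
    X_zero _ _ _, X_sub (List.sublist_append_left _ _) c m, ?_, ?_⟩⟩
  · intro k j hj
    rw [mem_X] at hj ⊢
    rw [pow_add_val hc, hval]
    have h1 := R_append (g := g) hj
    rw [hgm] at h1
    convert h1 using 1
    push_cast
    ring
  · intro hneg
    rw [mem_X] at hneg
    apply legal h
    have h1 : c ^ (-(n : ZMod m)).val = g⁻¹ := by
      rw [eq_inv_iff_mul_eq_one, ← hval, ← pow_add_val hc, neg_add_cancel, ZMod.val_zero, pow_zero]
    rw [h1] at hneg
    rw [hgm]
    convert hneg using 1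
    rw [Nat.cast_sub hm]
    have : (m : ℚ) ≠ 0 := by exact_mod_cast hm.ne'
    field_simp
    push_cast
    ring

lemma sum_totient [Finite G] [∀ x : G, NeZero (orderOf x)] [DecidableEq (Subgroup G)]
    (E : Finset G) (hE1 : ∀ x ∈ E, x ≠ 1) (hpow : ∀ x ∈ E, ∀ i : ℕ, x ^ i ≠ 1 → x ^ i ∈ E)
    (gen : Subgroup G → G)
    (hgen : ∀ D ∈ E.image Subgroup.zpowers, gen D ∈ E ∧ Subgroup.zpowers (gen D) = D) :
    ∑ D ∈ E.image Subgroup.zpowers, (orderOf (gen D)).totient ≤ E.card := by
  classical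
  rw [Finset.card_eq_sum_card_image Subgroup.zpowers E]
  apply Finset.sum_le_sum
  intro D hD
  obtain ⟨h1, h2⟩ := hgen D hD
  rw [Nat.totient_eq_card_coprime]
  apply Finset.card_le_card_of_injOn (fun a => gen D ^ a)
  · intro a ha
    have ha' := Finset.mem_filter.1 ha
    have hco : Nat.Coprime (orderOf (gen D)) a := ha'.2
    have hz : Subgroup.zpowers (gen D ^ a) = D := by
      have hle : Subgroup.zpowers (gen D ^ a) ≤ Subgroup.zpowers (gen D) := by
        rw [Subgroup.zpowers_le]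
        exact Subgroup.pow_mem _ (Subgroup.mem_zpowers _) _
      have hcard : Nat.card (Subgroup.zpowers (gen D)) ≤
          Nat.card (Subgroup.zpowers (gen D ^ a)) := by
        rw [Nat.card_zpowers, Nat.card_zpowers, Nat.Coprime.orderOf_pow hco]
      have := Subgroup.eq_of_le_of_card_ge hle hcard
      rw [this, h2]
    have hne : gen D ^ a ≠ 1 := by
      intro h
      rw [h, Subgroup.zpowers_one_eq_bot] at hz
      have h3 : Subgroup.zpowers (gen D) = ⊥ := by rw [h2, ← hz]
      exact hE1 _ h1 (Subgroup.zpowers_eq_bot.1 h3)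
    show gen D ^ a ∈ (↑(E.filter (fun x => Subgroup.zpowers x = D)) : Set G)
    rw [Finset.mem_coe, Finset.mem_filter]
    exact ⟨hpow _ h1 a hne, hz⟩
  · intro a ha b hb hab
    have ha' := Finset.mem_range.1 (Finset.mem_filter.1 ha).1
    have hb' := Finset.mem_range.1 (Finset.mem_filter.1 hb).1
    exact pow_injOn_Iio_orderOf (Set.mem_Iio.2 ha') (Set.mem_Iio.2 hb') hab

lemma step_pot [Finite G] [∀ x : G, NeZero (orderOf x)] [DecidableEq (Subgroup G)]
    (hloc : ∀ a b : ℕ, a.Prime → b.Prime → S_LOC (a * b))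
    (E : Finset G) (hE1 : ∀ x ∈ E, x ≠ 1) (hpow : ∀ x ∈ E, ∀ i : ℕ, x ^ i ≠ 1 → x ^ i ∈ E)
    (hord : ∀ x ∈ E, (orderOf x).Prime ∨ ∃ a b : ℕ, a.Prime ∧ b.Prime ∧ orderOf x = a * b)
    (gen : Subgroup G → G)
    (hgen : ∀ D ∈ E.image Subgroup.zpowers, gen D ∈ E ∧ Subgroup.zpowers (gen D) = D)
    (S : List G) (g : G) (hg : g ∈ E) (h : ¬ Hit (S ++ [g])) :
    ∃ D ∈ E.image Subgroup.zpowers, Pot S (gen D) (orderOf (gen D)) <
      Pot (S ++ [g]) (gen D) (orderOf (gen D)) := by
  classical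
  have : Fintype G := Fintype.ofFinite G
  have hC : Subgroup.zpowers g ∈ E.image Subgroup.zpowers := Finset.mem_image_of_mem _ hg
  obtain ⟨h1, h2⟩ := hgen _ hC
  set c := gen (Subgroup.zpowers g) with hc
  obtain ⟨a, hst⟩ := step_X (c := c) (m := orderOf c) rfl h2.symm h
  have hc2 : 2 ≤ orderOf c := by
    have h3 := orderOf_pos c
    have h4 : orderOf c ≠ 1 := fun h => hE1 c h1 (orderOf_eq_one_iff.1 h)
    omega
  by_cases hp : (orderOf c).Prime
  · refine ⟨_, hC, ?_⟩
    rw [← hc]
    unfold Pot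
    rw [if_pos hp, if_pos hp]
    exact F1_step hc2 hst
  · have hL : S_LOC (orderOf c) := by
      rcases hord c h1 with h3 | ⟨a', b', ha, hb, hab⟩
      · exact absurd h3 hp
      · rw [hab]; exact hloc a' b' ha hb
    rcases hL.choose_spec.2.2 a _ _ hst with h3 | ⟨p, t, pp, hpm, hpm', t1, t2, h4, h5⟩
    · refine ⟨_, hC, ?_⟩
      rw [← hc]
      unfold Pot
      rw [if_neg hp, if_neg hp, dif_pos hL, dif_pos hL]
      exact h3
    · -- the subgroup of order p
      set y := c ^ (orderOf c / p) with hy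
      have hmp : 0 < orderOf c / p := Nat.div_pos (Nat.le_of_dvd (orderOf_pos c) hpm) pp.pos
      have hyo : orderOf y = p := by
        rw [hy, orderOf_pow_of_dvd hmp.ne' (Nat.div_dvd_of_dvd hpm)]
        exact Nat.div_div_self hpm (orderOf_pos c).ne'
      have hy1 : y ≠ 1 := by
        intro h6
        rw [h6, orderOf_one] at hyo
        exact pp.one_lt.ne hyo
      have hyE : y ∈ E := hpow c h1 _ hy1
      have hD : Subgroup.zpowers y ∈ E.image Subgroup.zpowers := Finset.mem_image_of_mem _ hyE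
      obtain ⟨h6, h7⟩ := hgen _ hD
      set c' := gen (Subgroup.zpowers y) with hc'
      have hc'o : orderOf c' = p := by
        rw [← Nat.card_zpowers, h7, Nat.card_zpowers, hyo]
      have hpc : (orderOf c').Prime := by rw [hc'o]; exact pp
      refine ⟨_, hD, ?_⟩
      rw [← hc']
      unfold Pot
      rw [if_pos hpc, if_pos hpc]
      have key : ∀ T : List G, (X T c' (orderOf c') t).card = cnt (orderOf c) p t
          (X T c (orderOf c)) := by
        intro T
        rw [card_X T c' (orderOf c') rfl, card_cnt T c (orderOf c) p t rfl pp hpm, h7, ← hy, hc'o]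
      apply F1_lt _ (X_sub (List.sublist_append_left _ _) c' _) t t1 (by omega)
      · rw [key]; exact h4
      · rw [key]; exact h5

theorem uver [Finite G] (hloc : ∀ a b : ℕ, a.Prime → b.Prime → S_LOC (a * b))
    (E : Finset G) (hE1 : ∀ x ∈ E, x ≠ 1) (hpow : ∀ x ∈ E, ∀ i : ℕ, x ^ i ≠ 1 → x ^ i ∈ E)
    (hord : ∀ x ∈ E, (orderOf x).Prime ∨ ∃ a b : ℕ, a.Prime ∧ b.Prime ∧ orderOf x = a * b)
    (S : List G) (hS : ∀ x ∈ S, x ∈ E) (hlen : E.card < S.length) : Hit S := by
  classical
  have hNZ : ∀ x : G, NeZero (orderOf x) := fun x => ⟨(orderOf_pos x).ne'⟩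
  have hch : ∀ D : Subgroup G, ∃ c : G, D ∈ E.image Subgroup.zpowers →
      c ∈ E ∧ Subgroup.zpowers c = D := by
    intro D
    by_cases hD : D ∈ E.image Subgroup.zpowers
    · obtain ⟨c, hc, rfl⟩ := Finset.mem_image.1 hD
      exact ⟨c, fun _ => ⟨hc, rfl⟩⟩
    · exact ⟨1, fun h => absurd h hD⟩
  choose gen hgen using hch
  have main : ∀ T : List G, (∀ x ∈ T, x ∈ E) → ¬ Hit T →
      T.length ≤ ∑ D ∈ E.image Subgroup.zpowers, Pot T (gen D) (orderOf (gen D)) := by
    intro T
    induction T using List.reverseRecOn with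
    | nil => intro _ _; simp
    | append_singleton T g ih =>
      intro hT hH
      have hH' : ¬ Hit T := fun h => hH (h.mono (List.sublist_append_left _ _))
      have h1 := ih (fun x hx => hT x (List.mem_append_left _ hx)) hH'
      obtain ⟨D, hD, hlt⟩ := step_pot hloc E hE1 hpow hord gen hgen T g
        (hT g (by simp)) hH
      rw [List.length_append, List.length_singleton]
      have h2 : ∑ D ∈ E.image Subgroup.zpowers, Pot T (gen D) (orderOf (gen D)) <
          ∑ D ∈ E.image Subgroup.zpowers, Pot (T ++ [g]) (gen D) (orderOf (gen D)) :=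
        Finset.sum_lt_sum (fun D _ => Pot_mono (List.sublist_append_left _ _) _ _) ⟨D, hD, hlt⟩
      omega
  by_contra hH
  have h1 := main S hS hH
  have h2 : ∑ D ∈ E.image Subgroup.zpowers, Pot S (gen D) (orderOf (gen D)) ≤
      ∑ D ∈ E.image Subgroup.zpowers, (orderOf (gen D)).totient :=
    Finset.sum_le_sum (fun D _ => Pot_le _ _ _)
  have h3 := sum_totient E hE1 hpow gen hgen
  omega

end Pool.Agent.Helper69.WZ.Grp
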