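import Pool.Agent.Helper69.WZ.Stm

/-!
Project WZ, module NEWL (helper95): a new level.
-/

set_option autoImplicit false

namespace Pool.Agent.Helper69.WZ.Newl

open Finset

theorem main : S_NEWL := by
  intro m d t g X X' hm hd hdm hdlt ht1 htd hS hX hcard hU
  obtain ⟨e, he⟩ := hdm
  have hdpos : 0 < d := hd.pos
  have hme : m / d = e := by rw [he, Nat.mul_div_cancel_left _ hdpos]
  have hepos : 0 < e := by
    rcases Nat.eq_zero_or_pos e with h | h
    · rw [h, mul_zero] at he
      omega
    · exact h
  have hkpos : 1 ≤ t * (m / d) := by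
    rw [hme]
    exact Nat.mul_pos ht1 hepos
  have hkm : t * (m / d) ≤ m - 1 := by
    rw [hme]
    have h1 : t * e < d * e := Nat.mul_lt_mul_of_pos_right htd hepos
    rw [← he] at h1
    omega
  -- the classes
  have hcl : ∀ y : ZMod m, ((X (t * (m / d))).filter
      (fun x => (d : ZMod m) * x = (d : ZMod m) * y)).card = t := by
    intro y
    have h1 := hU y
    rw [hcard] at h1
    exact Nat.eq_of_mul_eq_mul_right (by rw [hme]; exact hepos) h1
  refine ⟨d, t, hd, ⟨e, he⟩, hdlt, ht1, htd, ?_, ?_⟩
  · unfold cnt
    have h1 := hcl 0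
    rw [mul_zero] at h1
    rw [h1]
  · unfold cnt
    have h1 := hcl (-g)
    have h0 : (0 : ZMod m) ∉ ((X (t * (m / d))).filter
        (fun x => (d : ZMod m) * x = (d : ZMod m) * (-g))).image (fun x => x + g) := by
      rw [mem_image]
      rintro ⟨x, hx, h⟩
      have h2 : x = -g := eq_neg_of_add_eq_zero_left h
      rw [h2] at hx
      exact hS.legal (hS.mono hkm (mem_filter.1 hx).1)
    have hsub : insert (0 : ZMod m) (((X (t * (m / d))).filter
        (fun x => (d : ZMod m) * x = (d : ZMod m) * (-g))).image (fun x => x + g)) ⊆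
        (X' (t * (m / d))).filter (fun x => (d : ZMod m) * x = 0) := by
      intro z hz
      rw [mem_insert, mem_image] at hz
      rw [mem_filter]
      rcases hz with rfl | ⟨x, hx, rfl⟩
      · exact ⟨hS.sub _ (hS.mono (Nat.zero_le _) hS.zero), mul_zero _⟩
      · rw [mem_filter] at hx
        constructor
        · have h3 := hx.1
          rw [← hX] at h3
          have h4 := hS.add _ x h3
          rwa [Nat.sub_add_cancel hkpos] at h4
        · rw [mul_add, hx.2]
          ring
    have h2 := card_le_card hsub
    rw [card_insert_of_notMem h0, card_image_of_injective _ (add_left_injective g), h1] at h2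
    exact h2

end Pool.Agent.Helper69.WZ.Newl
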