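import Pool.Agent.Helper69.WZ.Uni

/-!
Project WZ: cyclic groups of prime power order; the potential counts the satisfied levels coprime
to the order (last crossing).
-/

set_option autoImplicit false

namespace Pool.Agent.Helper69.WZ

/-- some level `t`, coprime to `d`, of a proper subgroup of prime power order `d` is newly
satisfied -/
def NewC (m : ℕ) (X X' : ℕ → Finset (ZMod m)) : Prop :=
  ∃ d t : ℕ, IsPrimePow d ∧ d ∣ m ∧ d < m ∧ 1 ≤ t ∧ t < d ∧ Nat.Coprime t d ∧ cnt m d t X ≤ t ∧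
    t + 1 ≤ cnt m d t X'

lemma New.newC {m : ℕ} {X X' : ℕ → Finset (ZMod m)} (h : New m X X') : NewC m X X' := by
  obtain ⟨p, t, hp, h1, h2, h3, h4, h5, h6⟩ := h
  refine ⟨p, t, hp.isPrimePow, h1, h2, h3, h4, ?_, h5, h6⟩
  rw [Nat.coprime_comm, hp.coprime_iff_not_dvd]
  intro h
  have := Nat.le_of_dvd (by omega) h
  omega

/-- the number of satisfied levels coprime to `m` -/
def FC (m : ℕ) (Y : ℕ → Finset (ZMod m)) : ℕ :=
  ((Finset.Icc 1 (m - 1)).filter (fun t => Nat.Coprime t m ∧ t + 1 ≤ (Y t).card)).card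

lemma FC_le (m : ℕ) (Y : ℕ → Finset (ZMod m)) : FC m Y ≤ m.totient := by
  rw [Nat.totient_eq_card_coprime]
  apply Finset.card_le_card
  intro t ht
  rw [Finset.mem_filter, Finset.mem_Icc] at ht
  rw [Finset.mem_filter, Finset.mem_range]
  exact ⟨by omega, ht.2.1.symm⟩

lemma FC_mono (m : ℕ) {Y Z : ℕ → Finset (ZMod m)} (h : ∀ k, Y k ⊆ Z k) : FC m Y ≤ FC m Z := by
  apply Finset.card_le_card
  intro t ht
  rw [Finset.mem_filter] at ht ⊢
  exact ⟨ht.1, ht.2.1, ht.2.2.trans (Finset.card_le_card (h t))⟩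

lemma FC_lt (m : ℕ) {Y Z : ℕ → Finset (ZMod m)} (h : ∀ k, Y k ⊆ Z k) (t : ℕ) (h1 : 1 ≤ t)
    (h2 : t < m) (hc : Nat.Coprime t m) (h3 : (Y t).card ≤ t) (h4 : t + 1 ≤ (Z t).card) :
    FC m Y < FC m Z := by
  apply Finset.card_lt_card
  rw [Finset.ssubset_iff_of_subset]
  · refine ⟨t, ?_, ?_⟩
    · rw [Finset.mem_filter, Finset.mem_Icc]
      exact ⟨⟨h1, by omega⟩, hc, h4⟩
    · rw [Finset.mem_filter]
      rintro ⟨-, -, h⟩
      omega
  · intro t ht
    rw [Finset.mem_filter] at ht ⊢
    exact ⟨ht.1, ht.2.1, ht.2.2.trans (Finset.card_le_card (h t))⟩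

/-- a new level of the subgroup of order `d` -/
theorem newl (m d t : ℕ) (g : ZMod m) (X X' : ℕ → Finset (ZMod m)) (hm : 0 < m) (hdpos : 0 < d)
    (hdm : d ∣ m) (ht1 : 1 ≤ t) (htd : t < d) (hS : Step m g X X')
    (hX : X (t * (m / d) - 1) = X (t * (m / d)))
    (hcard : (X (t * (m / d))).card = t * (m / d)) (hU : Unif m d (X (t * (m / d)))) :
    cnt m d t X ≤ t ∧ t + 1 ≤ cnt m d t X' := by
  obtain ⟨e, he⟩ := hdm
  have hme : m / d = e := by rw [he, Nat.mul_div_cancel_left _ hdpos]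
  have hepos : 0 < e := by
    rcases Nat.eq_zero_or_pos e with h | h
    · rw [h, mul_zero] at he
      omega
    · exact h
  have hkpos : 1 ≤ t * (m / d) := by
    rw [hme]
    exact Nat.mul_pos ht1 hepos
  have hkm : t * (m / d) ≤ m - 1 := by
    rw [hme]
    have h1 : t * e < d * e := Nat.mul_lt_mul_of_pos_right htd hepos
    rw [← he] at h1
    omega
  -- the classes
  have hcl : ∀ y : ZMod m, ((X (t * (m / d))).filter
      (fun x => (d : ZMod m) * x = (d : ZMod m) * y)).card = t := by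
    intro y
    have h1 := hU y
    rw [hcard] at h1
    exact Nat.eq_of_mul_eq_mul_right (by rw [hme]; exact hepos) h1
  refine ⟨?_, ?_⟩
  · unfold cnt
    have h1 := hcl 0
    rw [mul_zero] at h1
    rw [h1]
  · unfold cnt
    have h1 := hcl (-g)
    have h0 : (0 : ZMod m) ∉ ((X (t * (m / d))).filter
        (fun x => (d : ZMod m) * x = (d : ZMod m) * (-g))).image (fun x => x + g) := by
      rw [Finset.mem_image]
      rintro ⟨x, hx, h⟩
      have h2 : x = -g := eq_neg_of_add_eq_zero_left h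
      rw [h2] at hx
      exact hS.legal (hS.mono hkm (Finset.mem_filter.1 hx).1)
    have hsub : insert (0 : ZMod m) (((X (t * (m / d))).filter
        (fun x => (d : ZMod m) * x = (d : ZMod m) * (-g))).image (fun x => x + g)) ⊆
        (X' (t * (m / d))).filter (fun x => (d : ZMod m) * x = 0) := by
      intro z hz
      rw [Finset.mem_insert, Finset.mem_image] at hz
      rw [Finset.mem_filter]
      rcases hz with rfl | ⟨x, hx, rfl⟩
      · exact ⟨hS.sub _ (hS.mono (Nat.zero_le _) hS.zero), mul_zero _⟩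
      · rw [Finset.mem_filter] at hx
        constructor
        · have h3 := hx.1
          rw [← hX] at h3
          have h4 := hS.add _ x h3
          rwa [Nat.sub_add_cancel hkpos] at h4
        · rw [mul_add, hx.2]
          ring
    have h2 := Finset.card_le_card hsub
    rw [Finset.card_insert_of_notMem h0, Finset.card_image_of_injective _ (add_left_injective g),
      h1] at h2
    exact h2

/-- the last crossing -/
lemma crossing {m : ℕ} (hm : 2 ≤ m) {g : ZMod m} {Y Z : ℕ → Finset (ZMod m)} (h : Step m g Y Z) :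
    ∃ κ, 1 ≤ κ ∧ κ ≤ m - 1 ∧ (∀ j, κ ≤ j → j ≤ m - 1 → (Y j).card ≤ j) ∧ (Y κ).card = κ ∧
      Y (κ - 1) = Y κ ∧ Y κ ∪ (Y κ).image (fun x => x + g) ⊆ Z κ ∧
      κ + 1 ≤ (Y κ ∪ (Y κ).image (fun x => x + g)).card := by
  classical
  have : NeZero m := ⟨by omega⟩
  have htop : (Y (m - 1)).card ≤ m - 1 := by
    have h2 : Y (m - 1) ⊆ Finset.univ.erase (-g) := by
      intro x hx
      rw [Finset.mem_erase]
      refine ⟨?_, Finset.mem_univ _⟩
      rintro rfl
      exact h.legal hx
    have h3 := Finset.card_le_card h2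
    rw [Finset.card_erase_of_mem (Finset.mem_univ _), Finset.card_univ, ZMod.card] at h3
    exact h3
  have hex : ∃ k, 1 ≤ k ∧ ∀ j, k ≤ j → j ≤ m - 1 → (Y j).card ≤ j := by
    refine ⟨m - 1, by omega, fun j h1 h2 => ?_⟩
    obtain rfl : j = m - 1 := by omega
    exact htop
  set κ := Nat.find hex with hκ
  obtain ⟨k1, k2⟩ := Nat.find_spec hex
  rw [← hκ] at k1 k2
  have hκm : κ ≤ m - 1 := by
    apply Nat.find_min' hex
    refine ⟨by omega, fun j h1 h2 => ?_⟩
    obtain rfl : j = m - 1 := by omega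
    exact htop
  have h4 : κ ≤ (Y (κ - 1)).card := by
    by_cases h5 : κ = 1
    · rw [h5]
      exact Finset.card_pos.2 ⟨0, h.zero⟩
    · have h6 := Nat.find_min hex (m := κ - 1) (by omega)
      push Not at h6
      obtain ⟨j, j1, j2, j3⟩ := h6 (by omega)
      by_cases h7 : κ ≤ j
      · have := k2 j h7 j2
        omega
      · obtain rfl : j = κ - 1 := by omega
        omega
  have hκκ := k2 κ le_rfl hκm
  have h7 : Y (κ - 1) = Y κ :=
    Finset.eq_of_subset_of_card_le (h.mono (by omega)) (by omega)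
  have hcard : (Y κ).card = κ := by
    rw [h7] at h4
    omega
  have h8 : Y κ ∪ (Y κ).image (fun x => x + g) ⊆ Z κ := by
    intro x hx
    rw [Finset.mem_union, Finset.mem_image] at hx
    rcases hx with hx | ⟨y, hy, rfl⟩
    · exact h.sub _ hx
    · have := h.add (κ - 1) y (by rw [h7]; exact hy)
      rwa [show κ - 1 + 1 = κ by omega] at this
  refine ⟨κ, k1, hκm, k2, hcard, h7, h8, ?_⟩
  by_contra hcon
  have e2 : Y κ ⊆ Y κ ∪ (Y κ).image (fun x => x + g) := Finset.subset_union_left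
  have e3 : Y κ = Y κ ∪ (Y κ).image (fun x => x + g) := by
    apply Finset.eq_of_subset_of_card_le e2
    omega
  have e4 : (Y κ).image (fun x => x + g) ⊆ Y κ := by
    conv_rhs => rw [e3]
    exact Finset.subset_union_right
  have e5 : (Y κ).image (fun x => x + g) = Y κ := by
    apply Finset.eq_of_subset_of_card_le e4
    rw [Finset.card_image_of_injective _ (add_left_injective g)]
  have e6 : (0 : ZMod m) ∈ (Y κ).image (fun x => x + g) := by
    rw [e5]
    exact h.mono (Nat.zero_le κ) h.zero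
  rw [Finset.mem_image] at e6
  obtain ⟨y, hy, hyg⟩ := e6
  have : y = -g := eq_neg_of_add_eq_zero_left hyg
  rw [this] at hy
  exact h.legal (h.mono hκm hy)

theorem FC_step {m : ℕ} (hm : IsPrimePow m) {g : ZMod m} {Y Z : ℕ → Finset (ZMod m)}
    (h : Step m g Y Z) : FC m Y < FC m Z ∨ NewC m Y Z := by
  classical
  have hm2 : 2 ≤ m := hm.two_le
  obtain ⟨κ, k1, k2, k3, k4, k5, k6, k7⟩ := crossing hm2 h
  by_cases hcop : Nat.Coprime κ m
  · left
    exact FC_lt m h.sub κ k1 (by omega) hcop k4.le (k7.trans (Finset.card_le_card k6))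
  obtain ⟨p, k, hp, hk, hpk⟩ := (isPrimePow_nat_iff m).1 hm
  obtain ⟨e, t, hpt, hκ⟩ := Nat.exists_eq_pow_mul_and_not_dvd (n := κ) (by omega) p hp.ne_one
  have he : e ≠ 0 := by
    rintro rfl
    apply hcop
    rw [hκ, pow_zero, one_mul, ← hpk]
    exact (((hp.coprime_iff_not_dvd).2 hpt).symm).pow_right k
  have ht : 1 ≤ t := by
    rcases Nat.eq_zero_or_pos t with h0 | h0
    · subst h0
      exact absurd (dvd_zero p) hpt
    · exact h0
  have hek : e < k := by
    have h1 : p ^ e < p ^ k := by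
      calc p ^ e = p ^ e * 1 := (mul_one _).symm
        _ ≤ p ^ e * t := Nat.mul_le_mul_left _ ht
        _ = κ := hκ.symm
        _ < p ^ k := by omega
    exact (Nat.pow_lt_pow_iff_right hp.one_lt).1 h1
  have hd : p ^ (k - e) * p ^ e = m := by
    rw [← pow_add, Nat.sub_add_cancel hek.le, hpk]
  have hdm : p ^ (k - e) ∣ m := ⟨_, hd.symm⟩
  have hde : m / p ^ (k - e) = p ^ e := by
    rw [← hd, Nat.mul_div_cancel_left _ (pow_pos hp.pos _)]
  have hpe : 1 < p ^ e := Nat.one_lt_pow he hp.one_lt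
  have hκ' : κ = t * (m / p ^ (k - e)) := by rw [hde, hκ, mul_comm]
  have htd : t < p ^ (k - e) := by
    have h1 : t * p ^ e < p ^ (k - e) * p ^ e := by
      rw [hd, mul_comm, ← hκ]
      omega
    exact Nat.lt_of_mul_lt_mul_right h1
  by_cases hW : (Y κ ∪ (Y κ).image (fun x => x + g)).card = κ + 1
  · right
    have hU := (Uni.main m (p ^ (k - e)) g (Y κ) (by omega) (pow_pos hp.pos _) hdm h.unit
      (by rw [hW, k4])).1 (by rw [k4, hde, hκ]; exact dvd_mul_right _ _)
    have hdlt : p ^ (k - e) < m := by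
      have h1 : 0 < p ^ (k - e) := pow_pos hp.pos _
      nlinarith
    obtain ⟨n1, n2⟩ := newl m (p ^ (k - e)) t g Y Z (by omega) (pow_pos hp.pos _) hdm ht htd h
      (by rw [← hκ']; exact k5) (by rw [← hκ']; exact k4) (by rw [← hκ']; exact hU)
    exact ⟨p ^ (k - e), t, hp.isPrimePow.pow (by omega), hdm, hdlt, ht, htd,
      (((hp.coprime_iff_not_dvd).2 hpt).symm).pow_right _, n1, n2⟩
  · left
    have hpκ : p ∣ κ := by
      rw [hκ]
      exact Dvd.dvd.mul_right (dvd_pow_self p he) t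
    have hpm : p ∣ m := by
      rw [← hpk]
      exact dvd_pow_self p (by omega)
    have hκm : κ ≠ m - 1 := by
      intro h1
      have h2 : p ∣ κ + 1 := by
        rw [h1, Nat.sub_add_cancel (by omega)]
        exact hpm
      have h3 := (Nat.dvd_add_right hpκ).1 h2
      exact hp.one_lt.ne' (Nat.dvd_one.1 h3)
    refine FC_lt m h.sub (κ + 1) (by omega) (by omega) ?_ (k3 (κ + 1) (by omega) (by omega)) ?_
    · rw [← hpk]
      apply Nat.Coprime.pow_right
      rw [Nat.coprime_comm, hp.coprime_iff_not_dvd]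
      intro h2
      have h3 := (Nat.dvd_add_right hpκ).1 h2
      exact hp.one_lt.ne' (Nat.dvd_one.1 h3)
    · have h1 := Finset.card_le_card k6
      have h2 := Finset.card_le_card (h.mono' (Nat.le_succ κ))
      have h3 : κ + 2 ≤ (Y κ ∪ (Y κ).image (fun x => x + g)).card := by omega
      have h4 : (Z κ).card ≤ (Z (κ + 1)).card := h2
      omega

end Pool.Agent.Helper69.WZ
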