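import Pool.Agent.Helper69.WZ.Stm

/-! # Module TWOQ: the case `m = 2 q` -/

set_option autoImplicit false

namespace Pool.Agent.Helper69.WZ.Twoq

open Finset Pool.Agent.Helper69.WZ

/-- the even elements of `Y` -/
def EE (q : ℕ) (Y : Finset (ZMod (2 * q))) : Finset (ZMod (2 * q)) :=
  Y.filter (fun x => (q : ZMod (2 * q)) * x = 0)

/-- the odd elements of `Y` -/
def OO (q : ℕ) (Y : Finset (ZMod (2 * q))) : Finset (ZMod (2 * q)) :=
  Y.filter (fun x => ¬ (q : ZMod (2 * q)) * x = 0)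

/-- the potential -/
def FF (q : ℕ) (X : ℕ → Finset (ZMod (2 * q))) : Finset ℕ :=
  (range (2 * q)).filter (fun t => t % 2 = 1 ∧ t ≠ q ∧ (t + 1) / 2 ≤ (OO q (X t)).card)

theorem EE_mono {q : ℕ} {Y Z : Finset (ZMod (2 * q))} (h : Y ⊆ Z) : EE q Y ⊆ EE q Z :=
  filter_subset_filter _ h

theorem OO_mono {q : ℕ} {Y Z : Finset (ZMod (2 * q))} (h : Y ⊆ Z) : OO q Y ⊆ OO q Z :=
  filter_subset_filter _ h

theorem FF_mono {q : ℕ} {X Y : ℕ → Finset (ZMod (2 * q))} (h : ∀ k, X k ⊆ Y k) :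
    FF q X ⊆ FF q Y := by
  intro t ht
  unfold FF at ht ⊢
  rw [mem_filter] at ht ⊢
  exact ⟨ht.1, ht.2.1, ht.2.2.1, ht.2.2.2.trans (card_le_card (OO_mono (h t)))⟩

theorem FF_le {q : ℕ} (hq : q.Prime) (X : ℕ → Finset (ZMod (2 * q))) :
    (FF q X).card ≤ (2 * q).totient := by
  unfold Nat.totient
  refine card_le_card fun t ht => ?_
  unfold FF at ht
  obtain ⟨h1, h2, h3, -⟩ := mem_filter.1 ht
  rw [mem_range] at h1
  rw [mem_filter, mem_range]
  refine ⟨h1, Nat.Coprime.mul_left ?_ ?_⟩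
  · rw [Nat.coprime_two_left]
    exact Nat.odd_iff.2 h2
  · rw [hq.coprime_iff_not_dvd]
    rintro ⟨c, rfl⟩
    have hc : c < 2 := by
      by_contra hc
      push Not at hc
      have : q * 2 ≤ q * c := Nat.mul_le_mul_left q hc
      omega
    interval_cases c
    · omega
    · omega

theorem two_tors {q : ℕ} (hq : 0 < q) (y : ZMod (2 * q)) (h : 2 * y = 0) :
    y = 0 ∨ y = (q : ZMod (2 * q)) := by
  have : NeZero (2 * q) := ⟨by omega⟩
  have h1 : ((2 * y.val : ℕ) : ZMod (2 * q)) = 0 := by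
    rw [Nat.cast_mul, ZMod.natCast_zmod_val]
    exact_mod_cast h
  rw [ZMod.natCast_eq_zero_iff] at h1
  have h2 : q ∣ y.val := Nat.dvd_of_mul_dvd_mul_left (by norm_num : 0 < 2) h1
  obtain ⟨c, hc⟩ := h2
  have hlt := ZMod.val_lt y
  have hc2 : c < 2 := by
    by_contra hc'
    push Not at hc'
    have : q * 2 ≤ q * c := Nat.mul_le_mul_left q hc'
    omega
  interval_cases c
  · left
    rw [mul_zero] at hc
    exact (ZMod.val_eq_zero y).1 hc
  · right
    rw [mul_one] at hc
    rw [← ZMod.natCast_zmod_val y, hc]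

section

variable {q : ℕ}

theorem qq (q : ℕ) : (2 : ZMod (2 * q)) * (q : ZMod (2 * q)) = 0 := by
  have : ((2 * q : ℕ) : ZMod (2 * q)) = 0 := ZMod.natCast_self _
  push_cast at this
  exact this

theorem q_ne {q : ℕ} (hq : 0 < q) : (q : ZMod (2 * q)) ≠ 0 := by
  intro h
  rw [ZMod.natCast_eq_zero_iff] at h
  have := Nat.le_of_dvd hq h
  omega

theorem q_mul (hq : 0 < q) (x : ZMod (2 * q)) :
    (q : ZMod (2 * q)) * x = 0 ∨ (q : ZMod (2 * q)) * x = q :=
  two_tors hq _ (by rw [← mul_assoc, qq, zero_mul])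

theorem q_mul_unit (hq : 0 < q) {g : ZMod (2 * q)} (hg : IsUnit g) :
    (q : ZMod (2 * q)) * g = q := by
  rcases q_mul hq g with h | h
  · exfalso
    apply q_ne hq
    exact (hg.mul_left_eq_zero).1 h
  · exact h

theorem par_iff (hq : 0 < q) {g : ZMod (2 * q)} (hg : IsUnit g) (x : ZMod (2 * q)) :
    (q : ZMod (2 * q)) * (x + g) = 0 ↔ ¬ (q : ZMod (2 * q)) * x = 0 := by
  rw [mul_add, q_mul_unit hq hg]
  rcases q_mul hq x with h | h
  · rw [h, zero_add]
    exact ⟨fun h' => absurd h' (q_ne hq), fun h' => absurd rfl h'⟩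
  · rw [h]
    refine ⟨fun _ => q_ne hq, fun _ => ?_⟩
    rw [← two_mul, qq]

theorem card_image_add (g : ZMod (2 * q)) (Y : Finset (ZMod (2 * q))) :
    (Y.image (fun x => x + g)).card = Y.card :=
  card_image_of_injective _ (add_left_injective g)

theorem EE_card (hq : 0 < q) {g : ZMod (2 * q)} (hg : IsUnit g) (Y : Finset (ZMod (2 * q))) :
    (EE q Y).card ≤ q := by
  have : NeZero (2 * q) := ⟨by omega⟩
  have h1 : (EE q univ).card + (OO q univ).card = 2 * q := by
    have h2 := card_filter_add_card_filter_not (s := (univ : Finset (ZMod (2 * q))))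
      (fun x => (q : ZMod (2 * q)) * x = 0)
    rw [card_univ, ZMod.card] at h2
    exact h2
  have h3 : (EE q univ).card ≤ (OO q univ).card := by
    rw [← card_image_add g (EE q univ)]
    refine card_le_card ?_
    intro y hy
    obtain ⟨x, hx, rfl⟩ := mem_image.1 hy
    unfold EE at hx
    unfold OO
    rw [mem_filter] at hx ⊢
    refine ⟨mem_univ _, fun h => ?_⟩
    exact (par_iff hq hg x).1 h hx.2
  have h4 : (EE q Y).card ≤ (EE q univ).card := card_le_card (EE_mono (subset_univ Y))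
  omega

end

theorem main_aux (r : ℕ) (hr : 1 ≤ r) (g : ZMod (2 * (2 * r + 1)))
    (X X' : ℕ → Finset (ZMod (2 * (2 * r + 1)))) (hs : Step (2 * (2 * r + 1)) g X X')
    (hF : (FF (2 * r + 1) X').card ≤ (FF (2 * r + 1) X).card)
    (hq : (2 * r + 1).Prime) (hN : ¬ New (2 * (2 * r + 1)) X X') : False := by
  have hq0 : 0 < 2 * r + 1 := by omega
  have hFF : FF (2 * r + 1) X = FF (2 * r + 1) X' := eq_of_subset_of_card_le (FF_mono hs.sub) hF
  -- shifts
  have S1 : ∀ k, (EE (2 * r + 1) (X k)).image (fun x => x + g) ⊆ OO (2 * r + 1) (X' (k + 1)) := by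
    intro k y hy
    obtain ⟨x, hx, rfl⟩ := mem_image.1 hy
    unfold EE at hx
    unfold OO
    rw [mem_filter] at hx ⊢
    exact ⟨hs.add k x hx.1, fun h => (par_iff hq0 hs.unit x).1 h hx.2⟩
  have S2 : ∀ k, (OO (2 * r + 1) (X k)).image (fun x => x + g) ⊆ EE (2 * r + 1) (X' (k + 1)) := by
    intro k y hy
    obtain ⟨x, hx, rfl⟩ := mem_image.1 hy
    unfold OO at hx
    unfold EE
    rw [mem_filter] at hx ⊢
    exact ⟨hs.add k x hx.1, (par_iff hq0 hs.unit x).2 hx.2⟩
  have z0 : ∀ k, (0 : ZMod (2 * (2 * r + 1))) ∈ X k := fun k => hs.mono (Nat.zero_le k) hs.zero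
  have zE : ∀ k, (0 : ZMod (2 * (2 * r + 1))) ∈ EE (2 * r + 1) (X' k) := by
    intro k
    unfold EE
    rw [mem_filter]
    exact ⟨hs.sub k (z0 k), mul_zero _⟩
  have z1 : ∀ k, k ≤ 2 * (2 * r + 1) - 1 →
      (0 : ZMod (2 * (2 * r + 1))) ∉ (OO (2 * r + 1) (X k)).image (fun x => x + g) := by
    intro k hk h
    obtain ⟨x, hx, hxg⟩ := mem_image.1 h
    have : x = -g := eq_neg_of_add_eq_zero_left hxg
    rw [this] at hx
    exact hs.legal (hs.mono hk (mem_of_mem_filter _ hx))
  have H1 : ∀ k, (EE (2 * r + 1) (X k)).card ≤ (OO (2 * r + 1) (X' (k + 1))).card := by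
    intro k
    rw [← card_image_add g (EE (2 * r + 1) (X k))]
    exact card_le_card (S1 k)
  have H2 : ∀ k, k ≤ 2 * (2 * r + 1) - 1 →
      (OO (2 * r + 1) (X k)).card + 1 ≤ (EE (2 * r + 1) (X' (k + 1))).card := by
    intro k hk
    rw [← card_image_add g (OO (2 * r + 1) (X k)), ← card_insert_of_notMem (z1 k hk)]
    exact card_le_card (insert_subset (zE (k + 1)) (S2 k))
  have H3 : ∀ s, 2 * s + 1 ≠ 2 * r + 1 → s < 2 * r + 1 →
      s + 1 ≤ (OO (2 * r + 1) (X' (2 * s + 1))).card →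
      s + 1 ≤ (OO (2 * r + 1) (X (2 * s + 1))).card := by
    intro s h1 h2 h3
    have h4 : 2 * s + 1 ∈ FF (2 * r + 1) X' := by
      unfold FF
      rw [mem_filter, mem_range]
      exact ⟨by omega, by omega, h1, by omega⟩
    rw [← hFF] at h4
    unfold FF at h4
    have h5 := (mem_filter.1 h4).2.2.2
    omega
  have H4 : ∀ s, 1 ≤ s → s < 2 * r + 1 → s + 1 ≤ (EE (2 * r + 1) (X' (2 * s))).card →
      s + 1 ≤ (EE (2 * r + 1) (X (2 * s))).card := by
    intro s h1 h2 h3
    by_contra h4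
    apply hN
    have e : ∀ Z : ℕ → Finset (ZMod (2 * (2 * r + 1))), cnt (2 * (2 * r + 1)) (2 * r + 1) s Z =
        (EE (2 * r + 1) (Z (2 * s))).card := by
      intro Z
      unfold cnt EE
      rw [Nat.mul_div_cancel _ hq0, mul_comm s 2]
    refine ⟨2 * r + 1, s, hq, Dvd.intro_left 2 rfl, by omega, h1, h2, ?_, ?_⟩
    · rw [e]; omega
    · rw [e]; exact h3
  -- first induction
  have IA : ∀ s, s ≤ r → s + 1 ≤ (EE (2 * r + 1) (X (2 * s))).card := by
    intro s
    induction s with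
    | zero =>
      intro _
      have : (0 : ZMod (2 * (2 * r + 1))) ∈ EE (2 * r + 1) (X (2 * 0)) := by
        unfold EE
        rw [mem_filter]
        exact ⟨z0 _, mul_zero _⟩
      exact card_pos.2 ⟨0, this⟩
    | succ s ih =>
      intro h
      have h1 := ih (by omega)
      have h2 := H1 (2 * s)
      have h3 := H3 s (by omega) (by omega) (by omega)
      have h4 := H2 (2 * s + 1) (by omega)
      exact H4 (s + 1) (by omega) (by omega) (by
        have e : 2 * s + 1 + 1 = 2 * (s + 1) := by ring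
        rw [e] at h4
        omega)
  have IO : ∀ s, s < r → s + 1 ≤ (OO (2 * r + 1) (X (2 * s + 1))).card := by
    intro s h
    have h1 := IA s (by omega)
    have h2 := H1 (2 * s)
    exact H3 s (by omega) (by omega) (by omega)
  -- second induction
  have IB : ∀ n s, s + n = 2 * r → r ≤ s → (OO (2 * r + 1) (X (2 * s + 1))).card ≤ s := by
    intro n
    induction n with
    | zero =>
      intro s hsn hrs
      by_contra hcon
      push Not at hcon
      have h4 := H2 (2 * s + 1) (by omega)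
      have h5 := EE_card (q := 2 * r + 1) hq0 hs.unit (X' (2 * s + 1 + 1))
      omega
    | succ n ih =>
      intro s hsn hrs
      by_contra hcon
      push Not at hcon
      have h4 := H2 (2 * s + 1) (by omega)
      have e : 2 * s + 1 + 1 = 2 * (s + 1) := by ring
      rw [e] at h4
      have h5 := H4 (s + 1) (by omega) (by omega) (by omega)
      have h6 := H1 (2 * (s + 1))
      have h7 := H3 (s + 1) (by omega) (by omega) (by omega)
      have h8 := ih (s + 1) (by omega) (by omega)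
      omega
  have B1 : (OO (2 * r + 1) (X (2 * r + 1))).card ≤ r := IB r r (by omega) le_rfl
  have B2 : (OO (2 * r + 1) (X (2 * (r + 1) + 1))).card ≤ r + 1 :=
    IB (r - 1) (r + 1) (by omega) (by omega)
  have B3 : (OO (2 * r + 1) (X' (2 * (r + 1) + 1))).card ≤ r + 1 := by
    by_contra hcon
    push Not at hcon
    have := H3 (r + 1) (by omega) (by omega) (by omega)
    omega
  have A1 : (EE (2 * r + 1) (X (2 * (r + 1)))).card ≤ r + 1 := by
    have := H1 (2 * (r + 1))
    omega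
  have A2 : (EE (2 * r + 1) (X' (2 * (r + 1)))).card ≤ r + 1 := by
    by_contra hcon
    push Not at hcon
    have := H4 (r + 1) (by omega) (by omega) (by omega)
    omega
  have A3 := IA r le_rfl
  have B4 : r ≤ (OO (2 * r + 1) (X (2 * r + 1))).card := by
    have h1 := IO (r - 1) (by omega)
    have h2 : (OO (2 * r + 1) (X (2 * (r - 1) + 1))).card ≤
        (OO (2 * r + 1) (X (2 * r + 1))).card :=
      card_le_card (OO_mono (hs.mono (by omega)))
    omega
  have E1 : EE (2 * r + 1) (X (2 * r)) = EE (2 * r + 1) (X (2 * (r + 1))) :=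
    eq_of_subset_of_card_le (EE_mono (hs.mono (by omega))) (by omega)
  have E2 : EE (2 * r + 1) (X (2 * (r + 1))) = EE (2 * r + 1) (X' (2 * (r + 1))) := by
    refine eq_of_subset_of_card_le (EE_mono (hs.sub _)) ?_
    rw [← E1]
    omega
  have E3 : insert 0 ((OO (2 * r + 1) (X (2 * r + 1))).image (fun x => x + g)) =
      EE (2 * r + 1) (X' (2 * (r + 1))) := by
    refine eq_of_subset_of_card_le (insert_subset (zE _) (S2 (2 * r + 1))) ?_
    rw [card_insert_of_notMem (z1 _ (by omega)), card_image_add]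
    omega
  have E4 : (EE (2 * r + 1) (X (2 * (r + 1)))).image (fun x => x + g) =
      OO (2 * r + 1) (X' (2 * (r + 1) + 1)) := by
    refine eq_of_subset_of_card_le (S1 _) ?_
    rw [card_image_add, ← E1]
    omega
  have E5 : OO (2 * r + 1) (X (2 * r + 1)) ⊆ OO (2 * r + 1) (X' (2 * (r + 1) + 1)) :=
    (OO_mono (hs.mono (by omega))).trans (OO_mono (hs.sub _))
  have cC : (OO (2 * r + 1) (X' (2 * (r + 1) + 1))).card = r + 1 := by
    rw [← E4, card_image_add, ← E1]
    rw [E1]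
    have := E1 ▸ A3
    omega
  have hcard : (OO (2 * r + 1) (X' (2 * (r + 1) + 1)) \ OO (2 * r + 1) (X (2 * r + 1))).card
      = 1 := by
    rw [card_sdiff_of_subset E5]
    omega
  obtain ⟨x0, hx0⟩ := card_eq_one.1 hcard
  have hx0m : x0 ∈ OO (2 * r + 1) (X' (2 * (r + 1) + 1)) \ OO (2 * r + 1) (X (2 * r + 1)) := by
    rw [hx0]; exact mem_singleton_self _
  obtain ⟨hx1, hx2⟩ := mem_sdiff.1 hx0m
  -- sums
  have s1 : ∑ x ∈ OO (2 * r + 1) (X' (2 * (r + 1) + 1)), x =
      x0 + ∑ x ∈ OO (2 * r + 1) (X (2 * r + 1)), x := by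
    rw [← sum_sdiff E5, hx0, sum_singleton]
  have s2 : ∑ x ∈ OO (2 * r + 1) (X' (2 * (r + 1) + 1)), x =
      ∑ x ∈ EE (2 * r + 1) (X' (2 * (r + 1))), x + (r + 1 : ℕ) • g := by
    rw [← E4, sum_image (fun a _ b _ h => add_left_injective g h), sum_add_distrib, sum_const,
      ← E2]
    congr 2
    have := E1 ▸ A3
    omega
  have s3 : ∑ x ∈ EE (2 * r + 1) (X' (2 * (r + 1))), x =
      ∑ x ∈ OO (2 * r + 1) (X (2 * r + 1)), x + (r : ℕ) • g := by
    rw [← E3, sum_insert (z1 _ (by omega)), zero_add,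
      sum_image (fun a _ b _ h => add_left_injective g h), sum_add_distrib, sum_const]
    congr 2
    omega
  have s4 : x0 = ((2 * r + 1 : ℕ) : ZMod (2 * (2 * r + 1))) * g := by
    have h1 : x0 + ∑ x ∈ OO (2 * r + 1) (X (2 * r + 1)), x =
        (∑ x ∈ OO (2 * r + 1) (X (2 * r + 1)), x + (r : ℕ) • g) + (r + 1 : ℕ) • g := by
      rw [← s1, s2, s3]
    have h2 : x0 = (r : ℕ) • g + (r + 1 : ℕ) • g := by
      have h3 : x0 + ∑ x ∈ OO (2 * r + 1) (X (2 * r + 1)), x =
        ((r : ℕ) • g + (r + 1 : ℕ) • g) + ∑ x ∈ OO (2 * r + 1) (X (2 * r + 1)), x := by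
        rw [h1]; abel
      exact add_right_cancel h3
    rw [h2, nsmul_eq_mul, nsmul_eq_mul, ← add_mul, ← Nat.cast_add]
    congr 2
    omega
  rw [q_mul_unit hq0 hs.unit] at s4
  -- `x0 ∈ X' (2 r + 1)`, `x0 ∉ X (2 r + 1)`
  have m1 : x0 ∈ X' (2 * r + 1) := by
    rw [← E4, ← E1] at hx1
    obtain ⟨y, hy, hyx⟩ := mem_image.1 hx1
    rw [← hyx]
    exact hs.add _ y (mem_of_mem_filter _ hy)
  have m2 : x0 ∉ X (2 * r + 1) := by
    intro h
    apply hx2
    unfold OO at hx1 ⊢
    rw [mem_filter] at hx1 ⊢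
    exact ⟨h, hx1.2⟩
  have m3 : x0 ≠ 0 := fun h => m2 (h ▸ z0 _)
  apply hN
  have e2 : 1 * (2 * (2 * r + 1) / 2) = 2 * r + 1 := by omega
  refine ⟨2, 1, Nat.prime_two, Dvd.intro _ rfl, by omega, le_rfl, by norm_num, ?_, ?_⟩
  · unfold cnt
    rw [e2]
    have : (X (2 * r + 1)).filter
        (fun x => ((2 : ℕ) : ZMod (2 * (2 * r + 1))) * x = 0) ⊆ {0} := by
      intro y hy
      rw [mem_filter] at hy
      rw [mem_singleton]
      rcases two_tors hq0 y (by exact_mod_cast hy.2) with h | h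
      · exact h
      · exfalso
        apply m2
        rw [s4, ← h]
        exact hy.1
    exact (card_le_card this).trans (by simp)
  · unfold cnt
    rw [e2]
    have : {0, x0} ⊆ (X' (2 * r + 1)).filter
        (fun x => ((2 : ℕ) : ZMod (2 * (2 * r + 1))) * x = 0) := by
      intro y hy
      rw [mem_filter]
      rw [mem_insert, mem_singleton] at hy
      rcases hy with rfl | rfl
      · exact ⟨hs.sub _ (z0 _), mul_zero _⟩
      · refine ⟨m1, ?_⟩
        rw [s4]
        exact_mod_cast qq (2 * r + 1)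
    have h2 : ({0, x0} : Finset (ZMod (2 * (2 * r + 1)))).card = 2 := card_pair (Ne.symm m3)
    have h3 := card_le_card this
    omega

theorem main : S_TWOQ := by
  intro q hq hq2
  obtain ⟨r, hr⟩ := hq.odd_of_ne_two hq2
  have hr1 : 1 ≤ r := by
    have := hq.two_le
    omega
  subst hr
  refine ⟨fun X => (FF (2 * r + 1) X).card, fun X => FF_le hq X, fun X Y _ _ _ h =>
    card_le_card (FF_mono h), fun g X X' hs => ?_⟩
  by_contra hcon
  push Not at hcon
  exact main_aux r hr1 g X X' hs hcon.1 hq hcon.2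

end Pool.Agent.Helper69.WZ.Twoq
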