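import Pool.Agent.Helper69.WZ.Grp
import Pool.Agent.Helper69.WZ.Ppow
import Pool.Agent.Helper69.WZ.Newl
import Pool.Agent.Helper69.WZ.Ari
import Pool.Agent.Helper69.WZ.Case
import Pool.Agent.Helper69.WZ.Twoq

set_option autoImplicit false

namespace Pool.Agent.Helper69.WZ.Grp2

open Pool.Agent.TH106.PrimePow Pool.Agent.Helper69.WZ Pool.Agent.Helper69.WZ.Grp

variable {G : Type*} [Group G]

theorem loc (a b : ℕ) (ha : a.Prime) (hb : b.Prime) : S_LOC (a * b) := by
  by_cases h : a = b ∨ (a ≠ 2 ∧ b ≠ 2)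
  · exact Case.main Uni.main Newl.main Ari.main a b ha hb h
  · push Not at h
    obtain ⟨h1, h2⟩ := h
    by_cases h3 : a = 2
    · subst h3
      exact Twoq.main b hb (fun h => h1 h.symm)
    · have h4 := h2 h3
      subst h4
      rw [mul_comm]
      exact Twoq.main a ha h3

lemma card_cnt' [Fintype G] (S : List G) (c : G) (m p t : ℕ) [NeZero m] (hc : orderOf c = m)
    (hp : 0 < p) (hpm : p ∣ m) :
    cnt m p t (X S c m) = Dn S (Subgroup.zpowers (c ^ (m / p))) ((t : ℚ) / p) := by
  classical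
  unfold Dn cnt
  have hm : 0 < m := Nat.pos_of_ne_zero (NeZero.ne m)
  have hr : (((t * (m / p) : ℕ) : ℚ) / m) = (t : ℚ) / p := by
    obtain ⟨n, rfl⟩ := hpm
    rw [Nat.mul_div_cancel_left _ hp]
    have : (n : ℚ) ≠ 0 := by
      rintro h
      have : n = 0 := by exact_mod_cast h
      subst this
      simp at hm
    have hp0 : (p : ℚ) ≠ 0 := by exact_mod_cast hp.ne'
    push_cast
    field_simp
  rw [← Finset.card_image_of_injective _ (f := fun j : ZMod m => c ^ j.val)
    (fun i j h => pow_inj hc h)]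
  congr 1
  ext y
  simp only [Finset.mem_image, Finset.mem_filter, Finset.mem_univ, true_and]
  constructor
  · rintro ⟨j, ⟨hj, hpj⟩, rfl⟩
    rw [mem_X, hr] at hj
    refine ⟨?_, hj⟩
    -- j.val is a multiple of m / p
    have h1 : ((p * j.val : ℕ) : ZMod m) = 0 := by
      push_cast
      rw [ZMod.natCast_zmod_val]
      exact hpj
    rw [ZMod.natCast_eq_zero_iff] at h1
    have h2 : m / p ∣ j.val := by
      obtain ⟨n, rfl⟩ := hpm
      rw [Nat.mul_div_cancel_left _ hp]
      exact Nat.dvd_of_mul_dvd_mul_left hp h1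
    obtain ⟨i, hi⟩ := h2
    rw [hi, pow_mul]
    exact Subgroup.pow_mem _ (Subgroup.mem_zpowers _) _
  · rintro ⟨hy, hR⟩
    obtain ⟨n, hn⟩ := (Submonoid.mem_powers_iff _ _).1
      ((mem_powers_iff_mem_zpowers (x := c ^ (m / p)) (y := y)).2 hy)
    rw [← pow_mul] at hn
    refine ⟨((m / p * n : ℕ) : ZMod m), ⟨?_, ?_⟩, ?_⟩
    · rw [mem_X, ZMod.val_natCast, hr, pmod hc, hn]
      exact hR
    · rw [← Nat.cast_mul, ZMod.natCast_eq_zero_iff]
      rw [← mul_assoc, Nat.mul_div_cancel' hpm]
      exact dvd_mul_right _ _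
    · show c ^ ((m / p * n : ℕ) : ZMod m).val = y
      rw [ZMod.val_natCast, pmod hc, hn]

open Classical in
/-- the potential of the cyclic group generated by `c` -/
noncomputable def PotC (S : List G) (c : G) (m : ℕ) [NeZero m] : ℕ :=
  if IsPrimePow m then FC m (X S c m) else if h : S_LOC m then h.choose (X S c m) else 0

lemma PotC_le (S : List G) (c : G) (m : ℕ) [NeZero m] : PotC S c m ≤ m.totient := by
  unfold PotC
  split_ifs with h1 h2
  · exact FC_le _ _
  · exact h2.choose_spec.1 _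
  · exact Nat.zero_le _

lemma PotC_mono {S T : List G} (h : S.Sublist T) (c : G) (m : ℕ) [NeZero m] :
    PotC S c m ≤ PotC T c m := by
  unfold PotC
  split_ifs with h1 h2
  · exact FC_mono m (X_sub h c m)
  · exact h2.choose_spec.2.1 _ _ (X_mono S c m) (X_mono T c m) (X_zero S c m) (X_sub h c m)
  · exact le_rfl

/-- the orders treated -/
def Ord (n : ℕ) : Prop := IsPrimePow n ∨ ∃ a b : ℕ, a.Prime ∧ b.Prime ∧ n = a * b

lemma step_potC [Finite G] [∀ x : G, NeZero (orderOf x)] [DecidableEq (Subgroup G)]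
    (E : Finset G) (hE1 : ∀ x ∈ E, x ≠ 1) (hpow : ∀ x ∈ E, ∀ i : ℕ, x ^ i ≠ 1 → x ^ i ∈ E)
    (hord : ∀ x ∈ E, Ord (orderOf x))
    (gen : Subgroup G → G)
    (hgen : ∀ D ∈ E.image Subgroup.zpowers, gen D ∈ E ∧ Subgroup.zpowers (gen D) = D)
    (S : List G) (g : G) (hg : g ∈ E) (h : ¬ Hit (S ++ [g])) :
    ∃ D ∈ E.image Subgroup.zpowers, PotC S (gen D) (orderOf (gen D)) <
      PotC (S ++ [g]) (gen D) (orderOf (gen D)) := by
  classical
  have : Fintype G := Fintype.ofFinite G
  have hC : Subgroup.zpowers g ∈ E.image Subgroup.zpowers := Finset.mem_image_of_mem _ hg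
  obtain ⟨h1, h2⟩ := hgen _ hC
  set c := gen (Subgroup.zpowers g) with hc
  obtain ⟨a, hst⟩ := step_X (c := c) (m := orderOf c) rfl h2.symm h
  have key : PotC S c (orderOf c) < PotC (S ++ [g]) c (orderOf c) ∨
      NewC (orderOf c) (X S c (orderOf c)) (X (S ++ [g]) c (orderOf c)) := by
    by_cases hp : IsPrimePow (orderOf c)
    · unfold PotC
      rw [if_pos hp, if_pos hp]
      exact FC_step hp hst
    · have hL : S_LOC (orderOf c) := by
        rcases hord c h1 with h3 | ⟨a', b', ha, hb, hab⟩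
        · exact absurd h3 hp
        · rw [hab]; exact loc a' b' ha hb
      unfold PotC
      rw [if_neg hp, if_neg hp, dif_pos hL, dif_pos hL]
      rcases hL.choose_spec.2.2 a _ _ hst with h3 | h3
      · exact Or.inl h3
      · exact Or.inr h3.newC
  rcases key with h3 | ⟨p, t, pp, hpm, hpm', t1, t2, t3, h4, h5⟩
  · exact ⟨_, hC, by rw [← hc]; exact h3⟩
  · -- the subgroup of order p
    have ppos : 0 < p := pp.pos
    set y := c ^ (orderOf c / p) with hy
    have hmp : 0 < orderOf c / p := Nat.div_pos (Nat.le_of_dvd (orderOf_pos c) hpm) ppos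
    have hyo : orderOf y = p := by
      rw [hy, orderOf_pow_of_dvd hmp.ne' (Nat.div_dvd_of_dvd hpm)]
      exact Nat.div_div_self hpm (orderOf_pos c).ne'
    have hy1 : y ≠ 1 := by
      intro h6
      rw [h6, orderOf_one] at hyo
      have := pp.two_le
      omega
    have hyE : y ∈ E := hpow c h1 _ hy1
    have hD : Subgroup.zpowers y ∈ E.image Subgroup.zpowers := Finset.mem_image_of_mem _ hyE
    obtain ⟨h6, h7⟩ := hgen _ hD
    set c' := gen (Subgroup.zpowers y) with hc'
    have hc'o : orderOf c' = p := by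
      rw [← Nat.card_zpowers, h7, Nat.card_zpowers, hyo]
    have hpc : IsPrimePow (orderOf c') := by rw [hc'o]; exact pp
    refine ⟨_, hD, ?_⟩
    rw [← hc']
    unfold PotC
    rw [if_pos hpc, if_pos hpc]
    have key : ∀ T : List G, (X T c' (orderOf c') t).card = cnt (orderOf c) p t
        (X T c (orderOf c)) := by
      intro T
      rw [card_X T c' (orderOf c') rfl, card_cnt' T c (orderOf c) p t rfl ppos hpm, h7, ← hy, hc'o]
    apply FC_lt _ (X_sub (List.sublist_append_left _ _) c' _) t t1 (by omega)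
      (by rw [hc'o]; exact t3)
    · rw [key]; exact h4
    · rw [key]; exact h5

theorem main [Finite G]
    (E : Finset G) (hE1 : ∀ x ∈ E, x ≠ 1) (hpow : ∀ x ∈ E, ∀ i : ℕ, x ^ i ≠ 1 → x ^ i ∈ E)
    (hord : ∀ x ∈ E, Ord (orderOf x))
    (S : List G) (hS : ∀ x ∈ S, x ∈ E) (hlen : E.card < S.length) : Hit S := by
  classical
  have hNZ : ∀ x : G, NeZero (orderOf x) := fun x => ⟨(orderOf_pos x).ne'⟩
  have hch : ∀ D : Subgroup G, ∃ c : G, D ∈ E.image Subgroup.zpowers →
      c ∈ E ∧ Subgroup.zpowers c = D := by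
    intro D
    by_cases hD : D ∈ E.image Subgroup.zpowers
    · obtain ⟨c, hc, rfl⟩ := Finset.mem_image.1 hD
      exact ⟨c, fun _ => ⟨hc, rfl⟩⟩
    · exact ⟨1, fun h => absurd h hD⟩
  choose gen hgen using hch
  have main : ∀ T : List G, (∀ x ∈ T, x ∈ E) → ¬ Hit T →
      T.length ≤ ∑ D ∈ E.image Subgroup.zpowers, PotC T (gen D) (orderOf (gen D)) := by
    intro T
    induction T using List.reverseRecOn with
    | nil => intro _ _; simp
    | append_singleton T g ih =>
      intro hT hH
      have hH' : ¬ Hit T := fun h => hH (h.mono (List.sublist_append_left _ _))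
      have h1 := ih (fun x hx => hT x (List.mem_append_left _ hx)) hH'
      obtain ⟨D, hD, hlt⟩ := step_potC E hE1 hpow hord gen hgen T g
        (hT g (by simp)) hH
      rw [List.length_append, List.length_singleton]
      have h2 : ∑ D ∈ E.image Subgroup.zpowers, PotC T (gen D) (orderOf (gen D)) <
          ∑ D ∈ E.image Subgroup.zpowers, PotC (T ++ [g]) (gen D) (orderOf (gen D)) :=
        Finset.sum_lt_sum (fun D _ => PotC_mono (List.sublist_append_left _ _) _ _) ⟨D, hD, hlt⟩
      omega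
  by_contra hH
  have h1 := main S hS hH
  have h2 : ∑ D ∈ E.image Subgroup.zpowers, PotC S (gen D) (orderOf (gen D)) ≤
      ∑ D ∈ E.image Subgroup.zpowers, (orderOf (gen D)).totient :=
    Finset.sum_le_sum (fun D _ => PotC_le _ _ _)
  have h3 := sum_totient E hE1 hpow gen hgen
  omega

end Pool.Agent.Helper69.WZ.Grp2
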