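import Pool.Agent.Helper69.WZ.Ppow

/-!
Statements for the second part of project WZ (MP_94c9ac_al, index order): element orders
`p^a q^b` (odd primes) and `2 q^b` (`q ≥ 5`).  Definitions of `Step`, `Bk`, `NewC`, `FC` are in
`Stm.lean`, `Ppow.lean`; `crossing` (last crossing) is in `Ppow.lean`.
-/

set_option autoImplicit false

namespace Pool.Agent.Helper69.WZ.T

open Pool.Agent.Helper69.WZ

/-- `0, h, 2h, …, (s-1)h` -/
def arc (m s : ℕ) (h : ZMod m) : Finset (ZMod m) :=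
  (Finset.range s).image (fun i : ℕ => (i : ZMod m) * h)

/-- level `u` is satisfied -/
def Pl {m : ℕ} (X : ℕ → Finset (ZMod m)) (u : ℕ) : Prop := u + 1 ≤ (X u).card

/-- number of elements outside the subgroup of index 2 (`m` even) -/
def od (m : ℕ) (Y : Finset (ZMod m)) : ℕ :=
  (Y.filter (fun x => ((m / 2 : ℕ) : ZMod m) * x ≠ 0)).card

/-- number of elements in the subgroup of index 2 (`m` even) -/
def ev (m : ℕ) (Y : Finset (ZMod m)) : ℕ :=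
  (Y.filter (fun x => ((m / 2 : ℕ) : ZMod m) * x = 0)).card

def Lo {m : ℕ} (X : ℕ → Finset (ZMod m)) (u : ℕ) : Prop := u + 1 ≤ 2 * od m (X u)

/-- condition at the unit level `u`, order `m = 2 q^b` -/
def GE (m q : ℕ) (X : ℕ → Finset (ZMod m)) (u : ℕ) : Prop :=
  (u % (2 * q) = q + 2 ∧ (Pl X u ∨ Lo X u)) ∨
  (u % (2 * q) = q - 2 ∧ Pl X u ∧ (Pl X (u + 1) ∨ Lo X u)) ∨
  (u % (2 * q) ≠ q + 2 ∧ u % (2 * q) ≠ q - 2 ∧ Pl X u)

/-- condition at the unit level `u`, order `m = p^a q^b` odd -/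
def GO (m : ℕ) (X : ℕ → Finset (ZMod m)) (u : ℕ) : Prop :=
  Pl X u ∧ (Bk m (u + 1) → Pl X (u + 1) ∨ ∃ (h : ZMod m) (s : ℕ), IsUnit h ∧ X (u + 1) = arc m s h)

def RaiseP (m : ℕ) (X X' : ℕ → Finset (ZMod m)) : Prop :=
  ∃ u, 1 ≤ u ∧ u < m ∧ Nat.Coprime u m ∧ ¬ Pl X u ∧ Pl X' u

def RaiseE (m q : ℕ) (X X' : ℕ → Finset (ZMod m)) : Prop :=
  ∃ u, 1 ≤ u ∧ u < m ∧ Nat.Coprime u m ∧ ¬ GE m q X u ∧ GE m q X' u

def RaiseO (m : ℕ) (X X' : ℕ → Finset (ZMod m)) : Prop :=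
  ∃ u, 1 ≤ u ∧ u < m ∧ Nat.Coprime u m ∧ ¬ GO m X u ∧ GO m X' u

/-- the step `g` meets an arc `0, g, …, (κ-1) g` at a nonunit level `κ` -/
def ArcG (m : ℕ) (g : ZMod m) (X X' : ℕ → Finset (ZMod m)) : Prop :=
  ∃ κ, 1 ≤ κ ∧ κ < m ∧ ¬ Nat.Coprime κ m ∧ X κ = arc m κ g ∧ arc m (κ + 1) g ⊆ X' κ

/-- the same with an arc for another generator `h` -/
def ArcN (m : ℕ) (g : ZMod m) (X X' : ℕ → Finset (ZMod m)) : Prop :=
  ∃ (κ : ℕ) (h : ZMod m), 1 ≤ κ ∧ κ < m ∧ ¬ Nat.Coprime κ m ∧ IsUnit h ∧ X κ = arc m κ h ∧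
    X κ ⊆ X' κ ∧ (∀ x ∈ X κ, x + g ∈ X' κ) ∧ -g ∉ X κ

/-- the levels of the subgroup of order `d`, identified with `ZMod d` by `i ↦ i (m / d)` -/
def res (m d : ℕ) (X : ℕ → Finset (ZMod m)) (t : ℕ) : Finset (ZMod d) :=
  ((Finset.range d).filter (fun i => ((i * (m / d) : ℕ) : ZMod m) ∈ X (t * (m / d)))).image
    (fun i : ℕ => (i : ZMod d))

/-- the potential of a proper subgroup is raised -/
def RaiseSub (m : ℕ) (X X' : ℕ → Finset (ZMod m)) : Prop :=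
  ∃ d, d ∣ m ∧ 1 < d ∧ d < m ∧
    ((IsPrimePow d ∧ RaiseP d (res m d X) (res m d X')) ∨
      (¬ IsPrimePow d ∧ ¬ 2 ∣ d ∧ RaiseO d (res m d X) (res m d X')) ∨
      (¬ IsPrimePow d ∧ 2 ∣ d ∧ RaiseE d (d / 2).minFac (res m d X) (res m d X')))

/-- ARC1.  Proof: let `s` be least with `s g ∉ Y` (`1 ≤ s ≤ m - 1` since `0 ∈ Y`, `-g ∉ Y`).  If
`Y ≠ arc m s g` there is `y = j g ∈ Y`, `s < j ≤ m - 2`; take `j` with `(j+1) g ∉ Y` (exists,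
`j + 1 ≤ m - 1`); then `s g` and `(j+1) g` are two elements of `(Y + g) \ Y`. -/
def S_ARC1 : Prop := ∀ (m : ℕ) (g : ZMod m) (Y : Finset (ZMod m)), 0 < m → IsUnit g →
  (0 : ZMod m) ∈ Y → -g ∉ Y → (Y ∪ Y.image (fun x => x + g)).card ≤ Y.card + 1 →
  Y = arc m Y.card g ∧ Y ∪ Y.image (fun x => x + g) = arc m (Y.card + 1) g

/-- ARI2.  Elementary (as ARI). -/
def S_ARI2 : Prop := ∀ (p q a b : ℕ), p.Prime → q.Prime → p ≠ 2 → q ≠ 2 → p ≠ q → 1 ≤ a → 1 ≤ b →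
  (∀ k, 1 ≤ k → Bk (p ^ a * q ^ b) k → Nat.Coprime (k - 1) (p ^ a * q ^ b) ∧ 2 ≤ k) ∧
  (∀ k, 1 ≤ k → ¬ Nat.Coprime k (p ^ a * q ^ b) → ¬ Bk (p ^ a * q ^ b) k →
    ¬ Bk (p ^ a * q ^ b) (k + 2))

/-- ODD (from ARC1, ARI2).  `κ` = last crossing (`crossing` in Ppow.lean), `Y = X κ`,
`Z = Y ∪ (Y + g) ⊆ X' κ`.  (1) `κ` unit: `u = κ` is raised: if `Bk (κ+1)` and not `Pl X' (κ+1)` then
`X' (κ+1) = Z` has `κ+1` elements, an arc for `g` by ARC1.  (2) `κ` not a unit: if `Y` is an arc for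
some unit `h` (then it is `arc m κ h`): `ArcN`.  Otherwise `|Z| ≥ κ + 2` by ARC1; if `Bk κ`:
`u = κ - 1` (unit, ARI2) is raised (`Pl X u` holds but `X κ` is neither satisfied nor an arc; in `X'`
both levels are satisfied); if not `Bk κ`: `κ + 1` is a unit, `κ + 1 < m` (`m - 1` is a unit),
`u = κ + 1` is raised (`Bk (κ+2)` is false by ARI2, `|X (κ+1)| ≤ κ + 1`). -/
def S_ODD : Prop := ∀ (p q a b : ℕ) (g : ZMod (p ^ a * q ^ b)) (X X' : ℕ → Finset (ZMod (p ^ a * q ^ b))),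
  p.Prime → q.Prime → p ≠ 2 → q ≠ 2 → p ≠ q → 1 ≤ a → 1 ≤ b → Step (p ^ a * q ^ b) g X X' →
  RaiseO (p ^ a * q ^ b) X X' ∨ ArcN (p ^ a * q ^ b) g X X'

/-- RES: arcs restrict to arcs. `h'` is the image of `h` in `ZMod d`. -/
def S_RES : Prop := ∀ (m d t : ℕ) (h : ZMod m) (hd : d ∣ m) (X : ℕ → Finset (ZMod m)),
  0 < m → IsUnit h →
  IsUnit (ZMod.castHom hd (ZMod d) h) ∧
  (t ≤ d → X (t * (m / d)) = arc m (t * (m / d)) h →
    res m d X t = arc d t (ZMod.castHom hd (ZMod d) h) ∧ (res m d X t).card = t) ∧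
  (t < d → arc m (t * (m / d) + 1) h ⊆ X (t * (m / d)) →
    arc d (t + 1) (ZMod.castHom hd (ZMod d) h) ⊆ res m d X t)

/-- ARCO (from RES).  `e = gcd(κ, m)`, `d = m / e`, `t = κ / e` (a unit level of `d`).  `res X t` is
the arc of `t` elements for `h'`; `u = t` is raised.  The elements `i h + g` of `Y + g` in the
subgroup: `i = i0 + i' e`, `0 ≤ i' < t`; in `ZMod d` they are `s h', …, (s+t-1) h'` (`s ≥ 1`,
`s + t - 1 ≤ d - 1`, since `0` is not among them).  So `|res X' t| ≥ t + 1`.  If `Bk d (t+1)` and not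
`Pl (res X') (t+1)` (note `X'` monotone) then `|arc t ∪ (s..s+t-1)| ≤ t + 1` gives `s = 1` or
`t = 1`; `t = 1` is impossible as `2` is a unit (`d` odd), and for `s = 1` one gets the arc of
`t + 1` elements.  (If `d` is a prime power use `RaiseP`.) -/
def S_ARCO : Prop := ∀ (m : ℕ) (g : ZMod m) (X X' : ℕ → Finset (ZMod m)), 1 < m →
  ¬ 2 ∣ m → Monotone X' → ArcN m g X X' → RaiseSub m X X'

/-- ARCE (from RES).  `e = gcd(κ, m)`, `d = m / e`, `t = κ / e`: `res X t = arc d t g'`,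
`res X' t ⊇ arc d (t+1) g'`.  `d` is a prime power (`RaiseP`) or `d = 2 q^j`, `t` odd, and
`od (arc d t g') = (t-1)/2`, `od (arc d (t+1) g') = (t+1)/2`, so all cases of `GE` are new. -/
def S_ARCE : Prop := ∀ (q b : ℕ) (g : ZMod (2 * q ^ b)) (X X' : ℕ → Finset (ZMod (2 * q ^ b))),
  q.Prime → 5 ≤ q → 1 ≤ b → IsUnit g → ArcG (2 * q ^ b) g X X' → RaiseSub (2 * q ^ b) X X'

/-- EVEN (from ARC1), `m = 2 q^b`.  `κ` = last crossing, `Y = X κ = X (κ-1)`, `|Y| = κ`.  Write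
`a k = ev (X k)`, `b k = od (X k)`, primes for `X'`: all monotone; `a k + b k ≤ k` for `κ ≤ k ≤ m-1`;
`b' (k+1) ≥ a k`; `a' (k+1) ≥ b k + 1` (`k ≤ m-1`; `0` is extra since `-g ∉ X k`).
`E(k)` (k even): `a k ≥ k/2+1`: if `q ∤ k`, `E(k)` false for `X` and true for `X'` gives `NewC`
(`d = q^b`, `t = k/2`, `cnt m d t X = ev (X k)`).  Cases:
* `κ` even, `q ∤ κ`, `a κ ≤ κ/2`: then `b κ ≥ κ/2`, `a' κ ≥ κ/2+1`: NewC.
* `κ ≡ q-1 (mod 2q)`, `a κ ≥ κ/2+1`: `b(κ-1) = b κ ≤ κ/2-1`; `u = κ-1` is raised (`Pl X u`, not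
  `Pl X κ`, not `Lo X u`; `Pl X' u`, `Pl X' κ`).
* other even `κ`, `q ∤ κ`, `a κ ≥ κ/2+1`: `u = κ+1` (unit): `b' u ≥ κ/2+1`, `a' u ≥ κ/2+1`, `b u ≤ κ/2`,
  so `Pl` and `Lo` are both new at `u`: raised.
* `κ ≡ 0 (mod 2q)`: if `|Z| ≤ κ+1`: ArcG by ARC1. Else `u = κ+1` (`≡ 1`, type `Pl`) is raised.
* `κ` odd unit: `Pl X' κ` new. Type `Pl`: raised. `κ ≡ q-2`: `Lo X' κ` holds (`b κ ≥ (κ+1)/2`, or
  `a (κ-1) ≥ (κ+1)/2`): raised. `κ ≡ q+2`: raised if not `Lo X κ`; if `Lo X κ`: `E(κ+1)` is new.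
* `κ ≡ q`: if `b κ ≥ (κ+1)/2`: `E(κ+1)` new. Else `a κ ≥ (κ+1)/2`, `u = κ+2`: if `Lo X u`: `E(κ+3)`
  is new. Else raised if `Pl X' u` or `Lo X' u`. Else `b' ≤ (κ+1)/2` up to `u`, so
  `a (κ+1) ≤ b' (κ+2) ≤ (κ+1)/2`, `a κ = (κ+1)/2`, `b κ = (κ-1)/2`; `E(κ+1)` new or
  `a' κ ≤ a' (κ+1) ≤ (κ+1)/2`; then `|X' κ| ≤ κ+1`: ArcG by ARC1. -/
def S_EVEN : Prop := ∀ (q b : ℕ) (g : ZMod (2 * q ^ b)) (X X' : ℕ → Finset (ZMod (2 * q ^ b))),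
  q.Prime → 5 ≤ q → 1 ≤ b → Step (2 * q ^ b) g X X' →
  RaiseE (2 * q ^ b) q X X' ∨ NewC (2 * q ^ b) X X' ∨ ArcG (2 * q ^ b) g X X'

/-- INV: the conditions are invariant under multiplication with a unit. -/
def S_INV : Prop := ∀ (m q u : ℕ) (v : ZMod m) (X : ℕ → Finset (ZMod m)), IsUnit v →
  ((Pl X u ↔ Pl (fun k => (X k).image (fun x => v * x)) u) ∧
    (GO m X u ↔ GO m (fun k => (X k).image (fun x => v * x)) u) ∧
    (GE m q X u ↔ GE m q (fun k => (X k).image (fun x => v * x)) u))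

end Pool.Agent.Helper69.WZ.T
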