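import Pool.Agent.Helper69.WZ.Grp2
import Pool.Agent.Helper69.WZ.Stm3

set_option autoImplicit false

namespace Pool.Agent.Helper69.WZ.Grp3

open Pool.Agent.TH106.PrimePow Pool.Agent.Helper69.WZ Pool.Agent.Helper69.WZ.Grp
open Pool.Agent.Helper69.WZ.Grp2 Pool.Agent.Helper69.WZ.T

/-! ### counting conditions at the unit levels -/

open Classical in
noncomputable def Cn (m : ℕ) (Q : ℕ → Prop) : ℕ :=
  ((Finset.Icc 1 (m - 1)).filter (fun u => Nat.Coprime u m ∧ Q u)).card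

lemma Cn_le (m : ℕ) (Q : ℕ → Prop) : Cn m Q ≤ m.totient := by
  classical
  rw [Nat.totient_eq_card_coprime]
  apply Finset.card_le_card
  intro t ht
  rw [Finset.mem_filter, Finset.mem_Icc] at ht
  rw [Finset.mem_filter, Finset.mem_range]
  exact ⟨by omega, ht.2.1.symm⟩

lemma Cn_mono (m : ℕ) {Q Q' : ℕ → Prop} (h : ∀ u, Q u → Q' u) : Cn m Q ≤ Cn m Q' := by
  classical
  apply Finset.card_le_card
  intro t ht
  rw [Finset.mem_filter] at ht ⊢
  exact ⟨ht.1, ht.2.1, h t ht.2.2⟩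

lemma Cn_lt (m : ℕ) {Q Q' : ℕ → Prop} (h : ∀ u, Q u → Q' u)
    (h2 : ∃ u, 1 ≤ u ∧ u < m ∧ Nat.Coprime u m ∧ ¬ Q u ∧ Q' u) : Cn m Q < Cn m Q' := by
  classical
  obtain ⟨u, h3, h4, h5, h6, h7⟩ := h2
  apply Finset.card_lt_card
  rw [Finset.ssubset_iff_of_subset]
  · refine ⟨u, ?_, ?_⟩
    · rw [Finset.mem_filter, Finset.mem_Icc]
      exact ⟨⟨h3, by omega⟩, h5, h7⟩
    · rw [Finset.mem_filter]
      rintro ⟨-, -, h⟩
      exact h6 h
  · intro t ht
    rw [Finset.mem_filter] at ht ⊢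
    exact ⟨ht.1, ht.2.1, h t ht.2.2⟩

open Classical in
/-- the condition at the level `u` -/
def Cond (m : ℕ) (X : ℕ → Finset (ZMod m)) (u : ℕ) : Prop :=
  if IsPrimePow m then Pl X u else if 2 ∣ m then GE m (m / 2).minFac X u else GO m X u

lemma Pl_mono {m : ℕ} {X X' : ℕ → Finset (ZMod m)} (h : ∀ k, X k ⊆ X' k) {u : ℕ} (h1 : Pl X u) :
    Pl X' u := h1.trans (Finset.card_le_card (h u))

lemma Lo_mono {m : ℕ} {X X' : ℕ → Finset (ZMod m)} (h : ∀ k, X k ⊆ X' k) {u : ℕ} (h1 : Lo X u) :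
    Lo X' u := by
  refine h1.trans (Nat.mul_le_mul_left _ (Finset.card_le_card ?_))
  exact Finset.filter_subset_filter _ (h u)

lemma GE_mono {m q : ℕ} {X X' : ℕ → Finset (ZMod m)} (h : ∀ k, X k ⊆ X' k) {u : ℕ}
    (h1 : GE m q X u) : GE m q X' u := by
  rcases h1 with ⟨h2, h3 | h3⟩ | ⟨h2, h3, h4 | h4⟩ | ⟨h2, h3, h4⟩
  · exact Or.inl ⟨h2, Or.inl (Pl_mono h h3)⟩
  · exact Or.inl ⟨h2, Or.inr (Lo_mono h h3)⟩
  · exact Or.inr (Or.inl ⟨h2, Pl_mono h h3, Or.inl (Pl_mono h h4)⟩)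
  · exact Or.inr (Or.inl ⟨h2, Pl_mono h h3, Or.inr (Lo_mono h h4)⟩)
  · exact Or.inr (Or.inr ⟨h2, h3, Pl_mono h h4⟩)

lemma GO_mono {m : ℕ} {X X' : ℕ → Finset (ZMod m)} (hX : Monotone X) (h : ∀ k, X k ⊆ X' k)
    {u : ℕ} (h1 : GO m X u) : GO m X' u := by
  refine ⟨Pl_mono h h1.1, fun hB => ?_⟩
  rcases h1.2 hB with h2 | ⟨v, s, hv, h2⟩
  · exact Or.inl (Pl_mono h h2)
  · by_cases h3 : Pl X' (u + 1)
    · exact Or.inl h3
    · right
      refine ⟨v, s, hv, ?_⟩
      rw [← h2]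
      symm
      apply Finset.eq_of_subset_of_card_le (h (u + 1))
      have h4 : u + 1 ≤ (X u).card := h1.1
      have h5 := Finset.card_le_card (hX (Nat.le_succ u))
      have h6 : ¬ (u + 1 + 1 ≤ (X' (u + 1)).card) := h3
      have h7 : (X u).card ≤ (X (u + 1)).card := h5
      omega

lemma Cond_mono {m : ℕ} {X X' : ℕ → Finset (ZMod m)} (hX : Monotone X) (h : ∀ k, X k ⊆ X' k)
    (u : ℕ) (h1 : Cond m X u) : Cond m X' u := by
  unfold Cond at h1 ⊢
  split_ifs at h1 ⊢ with h2 h3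
  · exact Pl_mono h h1
  · exact GE_mono h h1
  · exact GO_mono hX h h1

noncomputable def Phi (m : ℕ) (X : ℕ → Finset (ZMod m)) : ℕ := Cn m (Cond m X)

lemma Phi_pp {m : ℕ} (hm : IsPrimePow m) (X : ℕ → Finset (ZMod m)) : Phi m X = FC m X := by
  classical
  unfold Phi FC Cn
  congr 1
  ext u
  simp only [Finset.mem_filter, Cond, if_pos hm, Pl]

/-! ### restriction to subgroups -/

lemma mem_res {m d : ℕ} {X : ℕ → Finset (ZMod m)} {t i : ℕ} (hi : i < d) :
    ((i : ZMod d) ∈ res m d X t) ↔ ((i * (m / d) : ℕ) : ZMod m) ∈ X (t * (m / d)) := by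
  unfold res
  rw [Finset.mem_image]
  constructor
  · rintro ⟨j, hj, hji⟩
    rw [Finset.mem_filter, Finset.mem_range] at hj
    have h1 := (ZMod.natCast_eq_natCast_iff' _ _ _).1 hji
    rw [Nat.mod_eq_of_lt hj.1, Nat.mod_eq_of_lt hi] at h1
    rw [← h1]
    exact hj.2
  · intro h
    exact ⟨i, by rw [Finset.mem_filter, Finset.mem_range]; exact ⟨hi, h⟩, rfl⟩

lemma res_mono {m d : ℕ} {X : ℕ → Finset (ZMod m)} (hX : Monotone X) : Monotone (res m d X) := by
  intro s t hst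
  apply Finset.image_subset_image
  intro i hi
  rw [Finset.mem_filter] at hi ⊢
  exact ⟨hi.1, hX (Nat.mul_le_mul_right _ hst) hi.2⟩

lemma res_sub {m d : ℕ} {X X' : ℕ → Finset (ZMod m)} (h : ∀ k, X k ⊆ X' k) (t : ℕ) :
    res m d X t ⊆ res m d X' t := by
  apply Finset.image_subset_image
  intro i hi
  rw [Finset.mem_filter] at hi ⊢
  exact ⟨hi.1, h _ hi.2⟩

variable {G : Type*} [Group G]

lemma res_X (S : List G) (c : G) (m d : ℕ) [NeZero m] [NeZero d] (hc : orderOf c = m)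
    (hd : d ∣ m) (t : ℕ) : res m d (X S c m) t = X S (c ^ (m / d)) d t := by
  have hm : 0 < m := Nat.pos_of_ne_zero (NeZero.ne m)
  have hd0 : 0 < d := Nat.pos_of_ne_zero (NeZero.ne d)
  ext j
  have hj : ((j.val : ℕ) : ZMod d) = j := ZMod.natCast_zmod_val j
  conv_lhs => rw [← hj]
  rw [mem_res (ZMod.val_lt j), mem_X, mem_X, ZMod.val_natCast, pmod hc]
  have hr : (((t * (m / d) : ℕ) : ℚ) / m) = (t : ℚ) / d := by
    obtain ⟨n, rfl⟩ := hd
    rw [Nat.mul_div_cancel_left _ hd0]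
    have : (n : ℚ) ≠ 0 := by
      rintro h
      have : n = 0 := by exact_mod_cast h
      subst this
      simp at hm
    have hp0 : (d : ℚ) ≠ 0 := by exact_mod_cast hd0.ne'
    push_cast
    field_simp
  rw [hr, ← pow_mul, mul_comm (m / d) j.val]

/-- invariance under the choice of the generator -/
lemma Phi_gen (hInv : S_INV) (S : List G) (c y : G) (d : ℕ) [NeZero d] (hc : orderOf c = d)
    (hy : Subgroup.zpowers y = Subgroup.zpowers c) [Finite G] :
    Phi d (X S y d) = Phi d (X S c d) := by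
  classical
  have hyd : orderOf y = d := by
    rw [← Nat.card_zpowers, hy, Nat.card_zpowers, hc]
  obtain ⟨n, hn⟩ := (Submonoid.mem_powers_iff _ _).1
    ((mem_powers_iff_mem_zpowers (x := c) (y := y)).2 (by rw [← hy]; exact Subgroup.mem_zpowers y))
  have hd : 0 < d := Nat.pos_of_ne_zero (NeZero.ne d)
  have hcop : Nat.Coprime n d := by
    have h1 : orderOf (c ^ n) = orderOf c / Nat.gcd (orderOf c) n := orderOf_pow c
    rw [hn, hyd, hc] at h1
    have h2 : Nat.gcd d n ∣ d := Nat.gcd_dvd_left _ _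
    have h4 : d / Nat.gcd d n * Nat.gcd d n = d := Nat.div_mul_cancel h2
    rw [← h1] at h4
    have h5 : Nat.gcd d n = 1 := by
      have : d * Nat.gcd d n = d * 1 := by omega
      exact Nat.eq_of_mul_eq_mul_left hd this
    rw [Nat.coprime_comm]
    exact h5
  have hu : IsUnit (n : ZMod d) := (ZMod.isUnit_iff_coprime n d).2 hcop
  have hX : X S c d = fun k => (X S y d k).image (fun x => (n : ZMod d) * x) := by
    funext k
    ext j
    rw [Finset.mem_image]
    have key : ∀ i : ZMod d, c ^ ((n : ZMod d) * i).val = y ^ i.val := by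
      intro i
      rw [ZMod.val_mul, pmod hc, ZMod.val_natCast, ← hn, ← pow_mul, pow_mul, pmod hc, ← pow_mul]
    constructor
    · intro hj
      obtain ⟨v, hv⟩ := hu
      refine ⟨(v⁻¹ : (ZMod d)ˣ) * j, ?_, ?_⟩
      · rw [mem_X, ← key, ← hv, Units.mul_inv_cancel_left]
        exact mem_X.1 hj
      · rw [← hv, Units.mul_inv_cancel_left]
    · rintro ⟨i, hi, rfl⟩
      rw [mem_X, key]
      exact mem_X.1 hi
  unfold Phi
  have hcond : ∀ u, Cond d (X S y d) u ↔ Cond d (X S c d) u := by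
    intro u
    obtain ⟨i1, i2, -⟩ := hInv d 0 u (n : ZMod d) (X S y d) hu
    obtain ⟨-, -, i3⟩ := hInv d (d / 2).minFac u (n : ZMod d) (X S y d) hu
    rw [← hX] at i1 i2 i3
    unfold Cond
    split_ifs
    · exact i1
    · exact i3
    · exact i2
  congr 1
  funext u
  exact propext (hcond u)

/-! ### the potential -/

open Classical in
noncomputable def PotG (S : List G) (c : G) (m : ℕ) [NeZero m] : ℕ :=
  if h : m = 6 ∧ S_LOC m then h.2.choose (X S c m) else Phi m (X S c m)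

lemma PotG_le (S : List G) (c : G) (m : ℕ) [NeZero m] : PotG S c m ≤ m.totient := by
  unfold PotG
  split_ifs with h
  · exact h.2.choose_spec.1 _
  · exact Cn_le _ _

lemma PotG_mono {S T : List G} (h : S.Sublist T) (c : G) (m : ℕ) [NeZero m] :
    PotG S c m ≤ PotG T c m := by
  unfold PotG
  split_ifs with h1
  · exact h1.2.choose_spec.2.1 _ _ (X_mono S c m) (X_mono T c m) (X_zero S c m) (X_sub h c m)
  · exact Cn_mono m (Cond_mono (X_mono S c m) (X_sub h c m))

/-- the orders treated -/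
def OrdB (n : ℕ) : Prop := IsPrimePow n ∨ n = 6 ∨
  (∃ p q a b : ℕ, p.Prime ∧ q.Prime ∧ p ≠ 2 ∧ q ≠ 2 ∧ p ≠ q ∧ 1 ≤ a ∧ 1 ≤ b ∧ n = p ^ a * q ^ b) ∨
  ∃ q b : ℕ, q.Prime ∧ 5 ≤ q ∧ 1 ≤ b ∧ n = 2 * q ^ b

/-- what happens in a cyclic group of order `m ≠ 6` -/
def Ev (m : ℕ) (Y Z : ℕ → Finset (ZMod m)) : Prop :=
  Phi m Y < Phi m Z ∨ NewC m Y Z ∨ ∃ d, d ∣ m ∧ 1 < d ∧ d < m ∧ d ≠ 6 ∧
    Phi d (res m d Y) < Phi d (res m d Z)

lemma ev_sub {m : ℕ} {Y Z : ℕ → Finset (ZMod m)} (hY : Monotone Y) (h : ∀ k, Y k ⊆ Z k)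
    (h6 : ¬ 6 ∣ m) (hR : RaiseSub m Y Z) : Ev m Y Z := by
  obtain ⟨d, h1, h2, h3, h4⟩ := hR
  refine Or.inr (Or.inr ⟨d, h1, h2, h3, fun h => h6 (h ▸ h1), ?_⟩)
  apply Cn_lt d (Cond_mono (res_mono hY) (res_sub h))
  rcases h4 with ⟨h5, u, k1, k2, k3, k4, k5⟩ | ⟨h5, h6, u, k1, k2, k3, k4, k5⟩ |
    ⟨h5, h6, u, k1, k2, k3, k4, k5⟩
  · refine ⟨u, k1, k2, k3, ?_, ?_⟩
    · unfold Cond; rw [if_pos h5]; exact k4
    · unfold Cond; rw [if_pos h5]; exact k5
  · refine ⟨u, k1, k2, k3, ?_, ?_⟩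
    · unfold Cond; rw [if_neg h5, if_neg h6]; exact k4
    · unfold Cond; rw [if_neg h5, if_neg h6]; exact k5
  · refine ⟨u, k1, k2, k3, ?_, ?_⟩
    · unfold Cond; rw [if_neg h5, if_pos h6]; exact k4
    · unfold Cond; rw [if_neg h5, if_pos h6]; exact k5

lemma not_pp {p q a b : ℕ} (hp : p.Prime) (hq : q.Prime) (hpq : p ≠ q) (ha : 1 ≤ a) (hb : 1 ≤ b) :
    ¬ IsPrimePow (p ^ a * q ^ b) := by
  intro h
  obtain ⟨r, k, hr, hk, hrk⟩ := (isPrimePow_nat_iff _).1 h
  have h1 : p ∣ r ^ k := by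
    rw [hrk]; exact Dvd.dvd.mul_right (dvd_pow_self p (by omega)) _
  have h2 : q ∣ r ^ k := by
    rw [hrk]; exact Dvd.dvd.mul_left (dvd_pow_self q (by omega)) _
  have h3 := (Nat.prime_dvd_prime_iff_eq hp hr).1 (hp.dvd_of_dvd_pow h1)
  have h4 := (Nat.prime_dvd_prime_iff_eq hq hr).1 (hq.dvd_of_dvd_pow h2)
  exact hpq (h3.trans h4.symm)

theorem ev_step (hOdd : S_ODD) (hArco : S_ARCO) (hArce : S_ARCE) (hEven : S_EVEN) {m : ℕ}
    (hm : OrdB m) (h6 : m ≠ 6) {g : ZMod m} {Y Z : ℕ → Finset (ZMod m)} (h : Step m g Y Z) :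
    Ev m Y Z := by
  classical
  rcases hm with hm | hm | ⟨p, q, a, b, hp, hq, hp2, hq2, hpq, ha, hb, rfl⟩ | ⟨q, b, hq, hq5, hb, rfl⟩
  · rcases FC_step hm h with h1 | h1
    · left
      rw [Phi_pp hm, Phi_pp hm]
      exact h1
    · exact Or.inr (Or.inl h1)
  · exact absurd hm h6
  · have hpp := not_pp hp hq hpq ha hb
    have h2 : ¬ 2 ∣ p ^ a * q ^ b := by
      intro h2
      rcases (Nat.Prime.dvd_mul Nat.prime_two).1 h2 with h3 | h3
      · exact hp2 ((Nat.prime_dvd_prime_iff_eq Nat.prime_two hp).1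
          (Nat.prime_two.dvd_of_dvd_pow h3)).symm
      · exact hq2 ((Nat.prime_dvd_prime_iff_eq Nat.prime_two hq).1
          (Nat.prime_two.dvd_of_dvd_pow h3)).symm
    have h66 : ¬ 6 ∣ p ^ a * q ^ b := fun h7 => h2 ((by norm_num : 2 ∣ 6).trans h7)
    have h1m : 1 < p ^ a * q ^ b := by
      have h8 : 1 < p ^ a := Nat.one_lt_pow (by omega) hp.one_lt
      have h9 : 1 < q ^ b := Nat.one_lt_pow (by omega) hq.one_lt
      nlinarith
    rcases hOdd p q a b g Y Z hp hq hp2 hq2 hpq ha hb h with h1 | h1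
    · left
      apply Cn_lt _ (Cond_mono h.mono h.sub)
      obtain ⟨u, k1, k2, k3, k4, k5⟩ := h1
      refine ⟨u, k1, k2, k3, ?_, ?_⟩
      · unfold Cond; rw [if_neg hpp, if_neg h2]; exact k4
      · unfold Cond; rw [if_neg hpp, if_neg h2]; exact k5
    · exact ev_sub h.mono h.sub h66 (hArco _ g Y Z h1m h2 h.mono' h1)
  · have hq2 : (2 : ℕ) ≠ q := by omega
    have hpp : ¬ IsPrimePow (2 * q ^ b) := by
      have := not_pp Nat.prime_two hq hq2 le_rfl hb
      rwa [pow_one] at this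
    have h2 : 2 ∣ 2 * q ^ b := dvd_mul_right _ _
    have hmf : (2 * q ^ b / 2).minFac = q := by
      rw [Nat.mul_div_cancel_left _ (by norm_num : 0 < 2)]
      exact Nat.Prime.pow_minFac hq (by omega)
    have h66 : ¬ 6 ∣ 2 * q ^ b := by
      intro h7
      have h8 : 2 * 3 ∣ 2 * q ^ b := h7
      have h9 : 3 ∣ q ^ b := Nat.dvd_of_mul_dvd_mul_left (by norm_num) h8
      have h10 := (Nat.prime_dvd_prime_iff_eq Nat.prime_three hq).1
        (Nat.prime_three.dvd_of_dvd_pow h9)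
      omega
    rcases hEven q b g Y Z hq hq5 hb h with h1 | h1 | h1
    · left
      apply Cn_lt _ (Cond_mono h.mono h.sub)
      obtain ⟨u, k1, k2, k3, k4, k5⟩ := h1
      refine ⟨u, k1, k2, k3, ?_, ?_⟩
      · unfold Cond; rw [if_neg hpp, if_pos h2, hmf]; exact k4
      · unfold Cond; rw [if_neg hpp, if_pos h2, hmf]; exact k5
    · exact Or.inr (Or.inl h1)
    · exact ev_sub h.mono h.sub h66 (hArce q b g Y Z hq hq5 hb h.unit h1)

lemma step_potG (hOdd : S_ODD) (hArco : S_ARCO) (hArce : S_ARCE) (hEven : S_EVEN) (hInv : S_INV)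
    [Finite G] [∀ x : G, NeZero (orderOf x)] [DecidableEq (Subgroup G)]
    (E : Finset G) (hE1 : ∀ x ∈ E, x ≠ 1) (hpow : ∀ x ∈ E, ∀ i : ℕ, x ^ i ≠ 1 → x ^ i ∈ E)
    (hord : ∀ x ∈ E, OrdB (orderOf x))
    (gen : Subgroup G → G)
    (hgen : ∀ D ∈ E.image Subgroup.zpowers, gen D ∈ E ∧ Subgroup.zpowers (gen D) = D)
    (S : List G) (g : G) (hg : g ∈ E) (h : ¬ Hit (S ++ [g])) :
    ∃ D ∈ E.image Subgroup.zpowers, PotG S (gen D) (orderOf (gen D)) <
      PotG (S ++ [g]) (gen D) (orderOf (gen D)) := by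
  classical
  have : Fintype G := Fintype.ofFinite G
  have hC : Subgroup.zpowers g ∈ E.image Subgroup.zpowers := Finset.mem_image_of_mem _ hg
  obtain ⟨h1, h2⟩ := hgen _ hC
  set c := gen (Subgroup.zpowers g) with hc
  obtain ⟨a, hst⟩ := step_X (c := c) (m := orderOf c) rfl h2.symm h
  have key : PotG S c (orderOf c) < PotG (S ++ [g]) c (orderOf c) ∨
      NewC (orderOf c) (X S c (orderOf c)) (X (S ++ [g]) c (orderOf c)) ∨
      ∃ d, d ∣ orderOf c ∧ 1 < d ∧ d < orderOf c ∧ d ≠ 6 ∧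
        Phi d (res (orderOf c) d (X S c (orderOf c))) <
          Phi d (res (orderOf c) d (X (S ++ [g]) c (orderOf c))) := by
    by_cases h6 : orderOf c = 6
    · have hL : S_LOC (orderOf c) := by
        rw [h6]
        exact loc 2 3 Nat.prime_two Nat.prime_three
      have h66 : orderOf c = 6 ∧ S_LOC (orderOf c) := ⟨h6, hL⟩
      unfold PotG
      rw [dif_pos h66, dif_pos h66]
      rcases h66.2.choose_spec.2.2 a _ _ hst with h3 | h3
      · exact Or.inl h3
      · exact Or.inr (Or.inl h3.newC)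
    · have h66 : ¬ (orderOf c = 6 ∧ S_LOC (orderOf c)) := fun h => h6 h.1
      unfold PotG
      rw [dif_neg h66, dif_neg h66]
      exact ev_step hOdd hArco hArce hEven (hord c h1) h6 hst
  have sub : ∀ d, d ∣ orderOf c → 1 < d → d < orderOf c → d ≠ 6 →
      Phi d (res (orderOf c) d (X S c (orderOf c))) <
        Phi d (res (orderOf c) d (X (S ++ [g]) c (orderOf c))) →
      ∃ D ∈ E.image Subgroup.zpowers, PotG S (gen D) (orderOf (gen D)) <
        PotG (S ++ [g]) (gen D) (orderOf (gen D)) := by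
    intro d hd hd1 hd2 hd6 hlt
    set y := c ^ (orderOf c / d) with hy
    have hmd : 0 < orderOf c / d := Nat.div_pos (Nat.le_of_dvd (orderOf_pos c) hd) (by omega)
    have hyo : orderOf y = d := by
      rw [hy, orderOf_pow_of_dvd hmd.ne' (Nat.div_dvd_of_dvd hd)]
      exact Nat.div_div_self hd (orderOf_pos c).ne'
    have hy1 : y ≠ 1 := by
      intro h6
      rw [h6, orderOf_one] at hyo
      omega
    have hyE : y ∈ E := hpow c h1 _ hy1
    have hD : Subgroup.zpowers y ∈ E.image Subgroup.zpowers := Finset.mem_image_of_mem _ hyE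
    obtain ⟨h6, h7⟩ := hgen _ hD
    have hNd : NeZero d := ⟨by omega⟩
    have hc'o : orderOf (gen (Subgroup.zpowers y)) = d := by
      rw [← Nat.card_zpowers, h7, Nat.card_zpowers, hyo]
    have e1 : ∀ T : List G, Phi d (res (orderOf c) d (X T c (orderOf c))) =
        PotG T (gen (Subgroup.zpowers y)) (orderOf (gen (Subgroup.zpowers y))) := by
      intro T
      have e2 : res (orderOf c) d (X T c (orderOf c)) = X T y d := by
        funext t
        exact res_X T c (orderOf c) d rfl hd t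
      rw [e2, Phi_gen hInv T (gen (Subgroup.zpowers y)) y d hc'o h7.symm]
      unfold PotG
      rw [dif_neg (by rw [hc'o]; exact fun h => hd6 h.1)]
      have e3 : ∀ (n : ℕ) [NeZero n], orderOf (gen (Subgroup.zpowers y)) = n →
          Phi n (X T (gen (Subgroup.zpowers y)) n) =
          Phi (orderOf (gen (Subgroup.zpowers y)))
            (X T (gen (Subgroup.zpowers y)) (orderOf (gen (Subgroup.zpowers y)))) := by
        intro n _ hn
        subst hn
        rfl
      exact e3 d hc'o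
    refine ⟨_, hD, ?_⟩
    rw [← e1, ← e1]
    exact hlt
  rcases key with h3 | h3 | ⟨d, hd, hd1, hd2, hd6, hlt⟩
  · exact ⟨_, hC, by rw [← hc]; exact h3⟩
  · obtain ⟨p, t, pp, hpm, hpm', t1, t2, t3, h4, h5⟩ := h3
    have ppos : 0 < p := pp.pos
    have hNp : NeZero p := ⟨ppos.ne'⟩
    refine sub p hpm pp.one_lt hpm' ?_ ?_
    · rintro rfl
      have := not_pp Nat.prime_two Nat.prime_three (by norm_num) le_rfl le_rfl
      norm_num at this
      exact this pp
    · rw [Phi_pp pp, Phi_pp pp]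
      have key : ∀ T : List G, (res (orderOf c) p (X T c (orderOf c)) t).card = cnt (orderOf c) p t
          (X T c (orderOf c)) := by
        intro T
        have hmp : 0 < orderOf c / p := Nat.div_pos (Nat.le_of_dvd (orderOf_pos c) hpm) ppos
        have hyo : orderOf (c ^ (orderOf c / p)) = p := by
          rw [orderOf_pow_of_dvd hmp.ne' (Nat.div_dvd_of_dvd hpm)]
          exact Nat.div_div_self hpm (orderOf_pos c).ne'
        rw [res_X T c (orderOf c) p rfl hpm t, card_X T _ p hyo,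
          card_cnt' T c (orderOf c) p t rfl ppos hpm]
      apply FC_lt _ (res_sub (X_sub (List.sublist_append_left _ _) c _)) t t1 t2 t3
      · rw [key]; exact h4
      · rw [key]; exact h5
  · exact sub d hd hd1 hd2 hd6 hlt

theorem main (hOdd : S_ODD) (hArco : S_ARCO) (hArce : S_ARCE) (hEven : S_EVEN) (hInv : S_INV)
    [Finite G]
    (E : Finset G) (hE1 : ∀ x ∈ E, x ≠ 1) (hpow : ∀ x ∈ E, ∀ i : ℕ, x ^ i ≠ 1 → x ^ i ∈ E)
    (hord : ∀ x ∈ E, OrdB (orderOf x))
    (S : List G) (hS : ∀ x ∈ S, x ∈ E) (hlen : E.card < S.length) : Hit S := by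
  classical
  have hNZ : ∀ x : G, NeZero (orderOf x) := fun x => ⟨(orderOf_pos x).ne'⟩
  have hch : ∀ D : Subgroup G, ∃ c : G, D ∈ E.image Subgroup.zpowers →
      c ∈ E ∧ Subgroup.zpowers c = D := by
    intro D
    by_cases hD : D ∈ E.image Subgroup.zpowers
    · obtain ⟨c, hc, rfl⟩ := Finset.mem_image.1 hD
      exact ⟨c, fun _ => ⟨hc, rfl⟩⟩
    · exact ⟨1, fun h => absurd h hD⟩
  choose gen hgen using hch
  have main : ∀ T : List G, (∀ x ∈ T, x ∈ E) → ¬ Hit T →
      T.length ≤ ∑ D ∈ E.image Subgroup.zpowers, PotG T (gen D) (orderOf (gen D)) := by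
    intro T
    induction T using List.reverseRecOn with
    | nil => intro _ _; simp
    | append_singleton T g ih =>
      intro hT hH
      have hH' : ¬ Hit T := fun h => hH (h.mono (List.sublist_append_left _ _))
      have h1 := ih (fun x hx => hT x (List.mem_append_left _ hx)) hH'
      obtain ⟨D, hD, hlt⟩ := step_potG hOdd hArco hArce hEven hInv E hE1 hpow hord gen hgen T g
        (hT g (by simp)) hH
      rw [List.length_append, List.length_singleton]
      have h2 : ∑ D ∈ E.image Subgroup.zpowers, PotG T (gen D) (orderOf (gen D)) <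
          ∑ D ∈ E.image Subgroup.zpowers, PotG (T ++ [g]) (gen D) (orderOf (gen D)) :=
        Finset.sum_lt_sum (fun D _ => PotG_mono (List.sublist_append_left _ _) _ _) ⟨D, hD, hlt⟩
      omega
  by_contra hH
  have h1 := main S hS hH
  have h2 : ∑ D ∈ E.image Subgroup.zpowers, PotG S (gen D) (orderOf (gen D)) ≤
      ∑ D ∈ E.image Subgroup.zpowers, (orderOf (gen D)).totient :=
    Finset.sum_le_sum (fun D _ => PotG_le _ _ _)
  have h3 := sum_totient E hE1 hpow gen hgen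
  omega

end Pool.Agent.Helper69.WZ.Grp3
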