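import Pool.Agent.Helper69.WZ.Stm3

/-!
Project WZ: module INV (invariance under multiplication with a unit). -/

set_option autoImplicit false

namespace Pool.Agent.Helper69.WZ.Inv

open Pool.Agent.Helper69.WZ Pool.Agent.Helper69.WZ.T

theorem inj {m : ℕ} {v : ZMod m} (hv : IsUnit v) : Function.Injective (fun x : ZMod m => v * x) :=
  fun _ _ h => hv.mul_right_injective h

theorem pl {m : ℕ} {v : ZMod m} (hv : IsUnit v) (X : ℕ → Finset (ZMod m)) (u : ℕ) :
    Pl X u ↔ Pl (fun k => (X k).image (fun x => v * x)) u := by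
  unfold Pl
  rw [Finset.card_image_of_injective _ (inj hv)]

theorem lo {m : ℕ} {v : ZMod m} (hv : IsUnit v) (X : ℕ → Finset (ZMod m)) (u : ℕ) :
    Lo X u ↔ Lo (fun k => (X k).image (fun x => v * x)) u := by
  unfold Lo od
  rw [Finset.filter_image, Finset.card_image_of_injective _ (inj hv)]
  have h1 : ∀ x : ZMod m, ((m / 2 : ℕ) : ZMod m) * (v * x) ≠ 0 ↔ ((m / 2 : ℕ) : ZMod m) * x ≠ 0 := by
    intro x
    have h2 : ((m / 2 : ℕ) : ZMod m) * (v * x) = v * (((m / 2 : ℕ) : ZMod m) * x) := by ring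
    rw [h2, Ne, Ne, hv.mul_right_eq_zero]
  simp only [h1]

theorem arc_image (m s : ℕ) (v h : ZMod m) :
    (arc m s h).image (fun x => v * x) = arc m s (v * h) := by
  unfold arc
  rw [Finset.image_image]
  apply Finset.image_congr
  intro i _
  simp only [Function.comp]
  ring

theorem main : S_INV := by
  intro m q u v X hv
  refine ⟨pl hv X u, ?_, ?_⟩
  · unfold GO
    rw [← pl hv X u, ← pl hv X (u + 1)]
    refine and_congr Iff.rfl (imp_congr Iff.rfl (or_congr Iff.rfl ?_))
    constructor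
    · rintro ⟨h, s, hh, hX⟩
      refine ⟨v * h, s, hv.mul hh, ?_⟩
      simp only
      rw [hX, arc_image]
    · rintro ⟨h, s, hh, hX⟩
      obtain ⟨w, rfl⟩ := hv
      refine ⟨(↑w⁻¹ : ZMod m) * h, s, (Units.isUnit _).mul hh, ?_⟩
      simp only at hX
      rw [← arc_image, ← hX, Finset.image_image]
      have h1 : ((fun x : ZMod m => (↑w⁻¹ : ZMod m) * x) ∘ fun x : ZMod m => (w : ZMod m) * x) = id := by
        funext x
        simp only [Function.comp, id]
        rw [← mul_assoc, Units.inv_mul, one_mul]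
      rw [h1, Finset.image_id]
  · unfold GE
    rw [← pl hv X u, ← pl hv X (u + 1), ← lo hv X u]

end Pool.Agent.Helper69.WZ.Inv
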