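import Pool.Agent.Helper69.WZ.Stm3

/-!
WZ, module ODD (helper49): one step for the orders `p ^ a * q ^ b`, `p`, `q` odd.
-/

set_option autoImplicit false

namespace Pool.Agent.Helper69.WZ.Odd

open Pool.Agent.Helper69.WZ Pool.Agent.Helper69.WZ.T

theorem card_arc {m s : ℕ} {h : ZMod m} (hh : IsUnit h) (hs : s ≤ m) : (arc m s h).card = s := by
  unfold arc
  rw [Finset.card_image_of_injOn, Finset.card_range]
  intro i hi j hj hij
  rw [Finset.coe_range, Set.mem_Iio] at hi hj
  have h1 : (i : ZMod m) = (j : ZMod m) := hh.mul_left_injective hij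
  rw [ZMod.natCast_eq_natCast_iff'] at h1
  rwa [Nat.mod_eq_of_lt (by omega), Nat.mod_eq_of_lt (by omega)] at h1

theorem arc_len {m s κ : ℕ} {h : ZMod m} (hh : IsUnit h) (hκ : κ < m) (hc : (arc m s h).card = κ) :
    s = κ := by
  rcases le_or_gt s m with hs | hs
  · rw [card_arc hh hs] at hc
    exact hc
  · exfalso
    have h1 : arc m m h ⊆ arc m s h := by
      apply Finset.image_subset_image
      intro i hi
      rw [Finset.mem_range] at hi ⊢
      omega
    have h2 := Finset.card_le_card h1
    rw [card_arc hh le_rfl] at h2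
    omega

theorem main (hA : S_ARC1) (hR : S_ARI2) : S_ODD := by
  intro p q a b g X X' hp hq hp2 hq2 hpq ha hb hS
  obtain ⟨r1, r2⟩ := hR p q a b hp hq hp2 hq2 hpq ha hb
  have hm2 : 2 ≤ p ^ a * q ^ b := by
    have h1 : p ≤ p ^ a := Nat.le_self_pow (by omega) p
    have h2 : 1 ≤ q ^ b := Nat.one_le_pow _ _ hq.pos
    have h3 := hp.two_le
    nlinarith
  generalize p ^ a * q ^ b = m at *
  obtain ⟨κ, k1, k2, k3, k4, k5, k6, k7⟩ := crossing hm2 hS
  have hg : -g ∉ X κ := fun h => hS.legal (hS.mono k2 h)
  have h0 : (0 : ZMod m) ∈ X κ := hS.mono (Nat.zero_le κ) hS.zero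
  have hZ := Finset.card_le_card k6
  have hP : ¬ Pl X κ := by
    unfold Pl
    omega
  have hP' : Pl X' κ := by
    unfold Pl
    omega
  by_cases hcop : Nat.Coprime κ m
  · left
    refine ⟨κ, k1, by omega, hcop, fun h => hP h.1, hP', fun _ => ?_⟩
    by_cases hQ : Pl X' (κ + 1)
    · exact Or.inl hQ
    right
    unfold Pl at hQ
    have e1 : X κ ∪ (X κ).image (fun x => x + g) ⊆ X' (κ + 1) := k6.trans (hS.mono' (Nat.le_succ κ))
    have e2 := Finset.card_le_card e1
    have e3 : X κ ∪ (X κ).image (fun x => x + g) = X' (κ + 1) :=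
      Finset.eq_of_subset_of_card_le e1 (by omega)
    refine ⟨g, (X κ).card + 1, hS.unit, ?_⟩
    rw [← e3]
    exact (hA m g (X κ) (by omega) hS.unit h0 hg (by omega)).2
  · by_cases harc : ∃ (h : ZMod m) (s : ℕ), IsUnit h ∧ X κ = arc m s h
    · right
      obtain ⟨h, s, hh, hs⟩ := harc
      have hsκ : s = κ := arc_len hh (by omega) (by rw [← hs]; exact k4)
      subst hsκ
      refine ⟨s, h, k1, by omega, hcop, hh, hs, hS.sub s, fun x hx => k6 ?_, hg⟩
      exact Finset.mem_union_right _ (Finset.mem_image_of_mem _ hx)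
    · left
      have hZ2 : κ + 2 ≤ (X κ ∪ (X κ).image (fun x => x + g)).card := by
        by_contra hcon
        exact harc ⟨g, (X κ).card, hS.unit, (hA m g (X κ) (by omega) hS.unit h0 hg (by omega)).1⟩
      by_cases hB : Bk m κ
      · obtain ⟨c1, c2⟩ := r1 κ k1 hB
        refine ⟨κ - 1, by omega, by omega, c1, ?_, ?_, fun _ => ?_⟩
        · rintro ⟨-, h2⟩
          rw [Nat.sub_add_cancel k1] at h2
          rcases h2 hB with h3 | h3
          · exact hP h3
          · exact harc h3
        · have e1 := Finset.card_le_card (hS.sub (κ - 1))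
          rw [k5, k4] at e1
          unfold Pl
          omega
        · rw [Nat.sub_add_cancel k1]
          exact Or.inl hP'
      · have c1 : Nat.Coprime (κ + 1) m := by
          by_contra hcon
          exact hB ⟨hcop, Or.inl hcon⟩
        have c2 : κ + 1 ≠ m := by
          intro h
          rw [h, Nat.coprime_self] at c1
          omega
        refine ⟨κ + 1, by omega, by omega, c1, ?_, ?_, fun h => ?_⟩
        · rintro ⟨h1, -⟩
          have h2 := k3 (κ + 1) (by omega) (by omega)
          unfold Pl at h1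
          omega
        · have e1 := Finset.card_le_card (hS.mono' (Nat.le_succ κ))
          have e2 : (X' κ).card ≤ (X' (κ + 1)).card := e1
          unfold Pl
          omega
        · exact absurd h (r2 κ k1 hcop hB)

end Pool.Agent.Helper69.WZ.Odd
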