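import Pool.Agent.Helper69.WZ.Stm3

/-!
Project WZ, RES: arcs restrict to arcs (by helper17).
-/

set_option autoImplicit false

namespace Pool.Agent.Helper69.WZ.Res

open Pool.Agent.Helper69.WZ Pool.Agent.Helper69.WZ.T

lemma key {m d : ℕ} (hd : d ∣ m) (hm : 0 < m) (x : ZMod m) :
    ((m / d : ℕ) : ZMod m) * x = 0 ↔ ZMod.castHom hd (ZMod d) x = 0 := by
  have : NeZero m := ⟨hm.ne'⟩
  obtain ⟨n, rfl⟩ : ∃ n : ℕ, (n : ZMod m) = x := ⟨x.val, ZMod.natCast_zmod_val x⟩
  obtain ⟨e, he⟩ := id hd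
  have hd0 : 0 < d := Nat.pos_of_dvd_of_pos hd hm
  have he0 : 0 < e := Nat.pos_of_ne_zero (by rintro rfl; omega)
  have h1 : m / d = e := by rw [he, Nat.mul_div_cancel_left _ hd0]
  rw [h1, ← Nat.cast_mul, ZMod.natCast_eq_zero_iff, map_natCast, ZMod.natCast_eq_zero_iff]
  have h2 : m ∣ e * n ↔ e * d ∣ e * n := by rw [he, mul_comm d e]
  rw [h2]
  exact Nat.mul_dvd_mul_iff_left he0

lemma mem_res {m d : ℕ} (hd0 : 0 < d) (X : ℕ → Finset (ZMod m)) (t : ℕ) (y : ZMod d) :
    y ∈ res m d X t ↔ ((y.val * (m / d) : ℕ) : ZMod m) ∈ X (t * (m / d)) := by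
  have : NeZero d := ⟨hd0.ne'⟩
  unfold res
  rw [Finset.mem_image]
  constructor
  · rintro ⟨i, hi, rfl⟩
    rw [Finset.mem_filter, Finset.mem_range] at hi
    rw [ZMod.val_natCast, Nat.mod_eq_of_lt hi.1]
    exact hi.2
  · intro h
    exact ⟨y.val, Finset.mem_filter.2 ⟨Finset.mem_range.2 (ZMod.val_lt y), h⟩,
      ZMod.natCast_zmod_val y⟩

lemma lft {m d : ℕ} (hd : d ∣ m) (hm : 0 < m) (x : ZMod m) :
    (((ZMod.castHom hd (ZMod d) x).val * (m / d) : ℕ) : ZMod m) =
      ((m / d : ℕ) : ZMod m) * x := by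
  have hd0 : 0 < d := Nat.pos_of_dvd_of_pos hd hm
  have : NeZero d := ⟨hd0.ne'⟩
  have h := (key hd hm ((((ZMod.castHom hd (ZMod d) x).val : ℕ) : ZMod m) - x)).2 (by
    rw [map_sub, map_natCast, ZMod.natCast_zmod_val, sub_self])
  rw [Nat.cast_mul]
  linear_combination h

lemma lft' {m d : ℕ} (hd : d ∣ m) (hm : 0 < m) (i : ℕ) (h : ZMod m) :
    ((((i : ZMod d) * ZMod.castHom hd (ZMod d) h).val * (m / d) : ℕ) : ZMod m) =
      ((i * (m / d) : ℕ) : ZMod m) * h := by
  have h1 := lft hd hm ((i : ZMod m) * h)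
  rw [map_mul, map_natCast] at h1
  rw [h1]
  push_cast
  ring

lemma mem_arc {m s : ℕ} {h x : ZMod m} : x ∈ arc m s h ↔ ∃ i < s, (i : ZMod m) * h = x := by
  unfold arc
  rw [Finset.mem_image]
  simp only [Finset.mem_range]

lemma inj {m : ℕ} {h : ZMod m} (hh : IsUnit h) {i j : ℕ} (hi : i < m) (hj : j < m)
    (e : (i : ZMod m) * h = (j : ZMod m) * h) : i = j := by
  have h1 : (i : ZMod m) = j := hh.mul_right_cancel e
  rw [ZMod.natCast_eq_natCast_iff] at h1
  exact Nat.ModEq.eq_of_lt_of_lt h1 hi hj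

lemma card_arc {m s : ℕ} {h : ZMod m} (hh : IsUnit h) (hs : s ≤ m) : (arc m s h).card = s := by
  unfold arc
  rw [Finset.card_image_of_injOn, Finset.card_range]
  intro i hi j hj e
  rw [Finset.mem_coe, Finset.mem_range] at hi hj
  exact inj hh (by omega) (by omega) e

theorem main : S_RES := by
  intro m d t h hd X hm hh
  have : NeZero m := ⟨hm.ne'⟩
  have hd0 : 0 < d := Nat.pos_of_dvd_of_pos hd hm
  have : NeZero d := ⟨hd0.ne'⟩
  have hu : IsUnit (ZMod.castHom hd (ZMod d) h) := hh.map _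
  have he0 : 0 < m / d := Nat.div_pos (Nat.le_of_dvd hm hd) hd0
  have hme : d * (m / d) = m := Nat.mul_div_cancel' hd
  refine ⟨hu, fun ht hX => ?_, fun ht hX => ?_⟩
  · have h1 : res m d X t = arc d t (ZMod.castHom hd (ZMod d) h) := by
      ext y
      rw [mem_res hd0, hX, mem_arc, mem_arc]
      constructor
      · rintro ⟨j, hj, e⟩
        have hdv : m / d ∣ j := by
          have h2 : ((d * j : ℕ) : ZMod m) * h = 0 := by
            have h3 : ((d * (y.val * (m / d)) : ℕ) : ZMod m) = 0 := by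
              rw [ZMod.natCast_eq_zero_iff]
              exact ⟨y.val, by rw [← hme]; simp only [hme]; rw [← mul_assoc, mul_comm d, mul_assoc, hme, mul_comm]⟩
            rw [Nat.cast_mul, ← e] at h3
            rw [Nat.cast_mul, mul_assoc]
            exact h3
          have h3 : ((d * j : ℕ) : ZMod m) = 0 := by
            rw [← zero_mul h] at h2
            exact hh.mul_right_cancel h2
          rw [ZMod.natCast_eq_zero_iff] at h3
          have h4 : d * (m / d) ∣ d * j := by rw [hme]; exact h3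
          exact (Nat.mul_dvd_mul_iff_left hd0).1 h4
        obtain ⟨i, rfl⟩ := hdv
        refine ⟨i, ?_, ?_⟩
        · rw [mul_comm] at hj
          exact Nat.lt_of_mul_lt_mul_right hj
        · have h5 : ((m / d : ℕ) : ZMod m) * ((i : ZMod m) * h - (y.val : ZMod m)) = 0 := by
            push_cast at e
            linear_combination e
          have h6 := (key hd hm _).1 h5
          rw [map_sub, map_mul, map_natCast, map_natCast, ZMod.natCast_zmod_val] at h6
          exact sub_eq_zero.1 h6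
      · rintro ⟨i, hi, rfl⟩
        exact ⟨i * (m / d), Nat.mul_lt_mul_of_pos_right hi he0, (lft' hd hm i h).symm⟩
    exact ⟨h1, by rw [h1]; exact card_arc hu ht⟩
  · intro y hy
    rw [mem_arc] at hy
    obtain ⟨i, hi, rfl⟩ := hy
    rw [mem_res hd0]
    apply hX
    rw [mem_arc]
    refine ⟨i * (m / d), ?_, (lft' hd hm i h).symm⟩
    have := Nat.mul_le_mul_right (m / d) (Nat.lt_succ_iff.1 hi)
    omega

end Pool.Agent.Helper69.WZ.Res
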