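import Pool.Agent.Helper69.WZ.Grp3
import Pool.Agent.Helper69.WZ.Arc1
import Pool.Agent.Helper69.WZ.Inv
import Pool.Agent.Helper69.WZ.Ari2
import Pool.Agent.Helper69.WZ.Odd
import Pool.Agent.Helper69.WZ.Res
import Pool.Agent.Helper69.WZ.Arco
import Pool.Agent.Helper69.WZ.Arce
import Pool.Agent.Helper69.WZ.Even

/-!
Project WZ: a potential for every finite group; exact at the orders in `OrdB`.
-/

set_option autoImplicit false

namespace Pool.Agent.Helper69.WZ.Grp4

open Pool.Agent.TH106.PrimePow Pool.Agent.Helper69.WZ Pool.Agent.Helper69.WZ.Grp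
open Pool.Agent.Helper69.WZ.Grp2 Pool.Agent.Helper69.WZ.T Pool.Agent.Helper69.WZ.Grp3

/-- the levels used -/
def Lev (m u : ℕ) : Prop := Nat.Coprime u m ∨
  (¬ OrdB m ∧ u % 2 = 1 ∧ ¬ (Nat.Coprime (u - 1) m ∧ Nat.Coprime (u + 1) m))

open Classical in
/-- the condition at the level `u` -/
def Cond4 (m : ℕ) (X : ℕ → Finset (ZMod m)) (u : ℕ) : Prop :=
  if IsPrimePow m then Pl X u
  else if m = 6 then Lo X u
  else if OrdB m then (if 2 ∣ m then GE m (m / 2).minFac X u else GO m X u)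
  else Pl X u

open Classical in
noncomputable def psi (m : ℕ) : ℕ := ((Finset.Icc 1 (m - 1)).filter (fun u => Lev m u)).card

open Classical in
noncomputable def Phi4 (m : ℕ) (X : ℕ → Finset (ZMod m)) : ℕ :=
  ((Finset.Icc 1 (m - 1)).filter (fun u => Lev m u ∧ Cond4 m X u)).card

def RaiseG (m : ℕ) (X X' : ℕ → Finset (ZMod m)) : Prop :=
  ∃ u, 1 ≤ u ∧ u < m ∧ Lev m u ∧ ¬ Cond4 m X u ∧ Cond4 m X' u

lemma Cond4_mono {m : ℕ} {X X' : ℕ → Finset (ZMod m)} (hX : Monotone X) (h : ∀ k, X k ⊆ X' k)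
    (u : ℕ) (h1 : Cond4 m X u) : Cond4 m X' u := by
  unfold Cond4 at h1 ⊢
  split_ifs at h1 ⊢ with h2 h3 h4 h5
  · exact Pl_mono h h1
  · exact Lo_mono h h1
  · exact GE_mono h h1
  · exact GO_mono hX h h1
  · exact Pl_mono h h1

lemma Phi4_le (m : ℕ) (X : ℕ → Finset (ZMod m)) : Phi4 m X ≤ psi m := by
  classical
  apply Finset.card_le_card
  intro t ht
  rw [Finset.mem_filter] at ht ⊢
  exact ⟨ht.1, ht.2.1⟩

lemma Phi4_mono {m : ℕ} {X X' : ℕ → Finset (ZMod m)} (hX : Monotone X) (h : ∀ k, X k ⊆ X' k) :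
    Phi4 m X ≤ Phi4 m X' := by
  classical
  apply Finset.card_le_card
  intro t ht
  rw [Finset.mem_filter] at ht ⊢
  exact ⟨ht.1, ht.2.1, Cond4_mono hX h t ht.2.2⟩

lemma Phi4_lt {m : ℕ} {X X' : ℕ → Finset (ZMod m)} (hX : Monotone X) (h : ∀ k, X k ⊆ X' k)
    (hR : RaiseG m X X') : Phi4 m X < Phi4 m X' := by
  classical
  obtain ⟨u, h3, h4, h5, h6, h7⟩ := hR
  apply Finset.card_lt_card
  rw [Finset.ssubset_iff_of_subset]
  · refine ⟨u, ?_, ?_⟩
    · rw [Finset.mem_filter, Finset.mem_Icc]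
      exact ⟨⟨h3, by omega⟩, h5, h7⟩
    · rw [Finset.mem_filter]
      rintro ⟨-, -, h⟩
      exact h6 h
  · intro t ht
    rw [Finset.mem_filter] at ht ⊢
    exact ⟨ht.1, ht.2.1, Cond4_mono hX h t ht.2.2⟩

lemma od_arcs {d t : ℕ} (hd : 0 < d) (h2 : 2 ∣ d) {h : ZMod d} (hh : IsUnit h) (htd : t < d)
    (hodd : t % 2 = 1) {Y Z : ℕ → Finset (ZMod d)} (hY : Y t = arc d t h)
    (hZ : arc d (t + 1) h ⊆ Z t) : ¬ Lo Y t ∧ Lo Z t := by
  obtain ⟨r, rfl⟩ := h2
  have hr : 0 < r := by omega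
  constructor
  · unfold Lo
    rw [hY]
    have := Arce.od_arc_le hr hh t
    omega
  · unfold Lo
    have h1 := Arce.od_mono hZ
    rw [Arce.od_arc hr hh (by omega)] at h1
    omega

/-- an arc at a unit level raises the potential -/
lemma sn {d t : ℕ} (hd : 1 < d) {Y Z : ℕ → Finset (ZMod d)} (hZ : Monotone Z)
    (h1 : 1 ≤ t) (h2 : t < d) (hc : Nat.Coprime t d) {h : ZMod d}
    (hh : IsUnit h) (hYt : Y t = arc d t h) (hZt : arc d (t + 1) h ⊆ Z t) : RaiseG d Y Z := by
  classical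
  have nPl : ¬ Pl Y t := by
    unfold Pl
    rw [hYt, Arce.card_arc hh h2.le]
    omega
  have yPl : Pl Z t := by
    unfold Pl
    have h1 := Finset.card_le_card hZt
    rw [Arce.card_arc hh (by omega)] at h1
    exact h1
  have hodd : 2 ∣ d → t % 2 = 1 := by
    intro hd2
    rcases Nat.mod_two_eq_zero_or_one t with h2 | h2
    · exfalso
      have h3 : 2 ∣ t := Nat.dvd_of_mod_eq_zero h2
      have h4 : 2 ∣ Nat.gcd t d := Nat.dvd_gcd h3 hd2
      rw [hc] at h4
      omega
    · exact h2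
  refine ⟨t, h1, h2, Or.inl hc, ?_, ?_⟩
  · unfold Cond4
    split_ifs with c1 c2 c3 c4
    · exact nPl
    · have h2d : 2 ∣ d := by rw [c2]; norm_num
      exact (od_arcs (by omega) h2d hh h2 (hodd h2d) hYt hZt).1
    · have nLo := (od_arcs (by omega) c4 hh h2 (hodd c4) hYt hZt).1
      rintro (⟨_, h2 | h2⟩ | ⟨_, h2, _⟩ | ⟨_, _, h2⟩)
      · exact nPl h2
      · exact nLo h2
      · exact nPl h2
      · exact nPl h2
    · exact fun h => nPl h.1
    · exact nPl
  · unfold Cond4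
    split_ifs with c1 c2 c3 c4
    · exact yPl
    · have h2d : 2 ∣ d := by rw [c2]; norm_num
      exact (od_arcs (by omega) h2d hh h2 (hodd h2d) hYt hZt).2
    · have yLo := (od_arcs (by omega) c4 hh h2 (hodd c4) hYt hZt).2
      by_cases k1 : t % (2 * (d / 2).minFac) = (d / 2).minFac + 2
      · exact Or.inl ⟨k1, Or.inl yPl⟩
      · by_cases k2 : t % (2 * (d / 2).minFac) = (d / 2).minFac - 2
        · exact Or.inr (Or.inl ⟨k2, yPl, Or.inr yLo⟩)
        · exact Or.inr (Or.inr ⟨k1, k2, yPl⟩)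
    · refine ⟨yPl, fun _ => ?_⟩
      by_cases h5 : Pl Z (t + 1)
      · exact Or.inl h5
      · right
        refine ⟨h, t + 1, hh, ?_⟩
        have h6 : arc d (t + 1) h ⊆ Z (t + 1) := hZt.trans (hZ (Nat.le_succ t))
        symm
        apply Finset.eq_of_subset_of_card_le h6
        rw [Arce.card_arc hh (by omega)]
        unfold Pl at h5
        omega
    · exact yPl

/-- what happens in a cyclic group of order `m` -/
def Ev4 (m : ℕ) (Y Z : ℕ → Finset (ZMod m)) : Prop :=
  RaiseG m Y Z ∨ NewC m Y Z ∨ ∃ d, d ∣ m ∧ 1 < d ∧ d < m ∧ RaiseG d (res m d Y) (res m d Z)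

lemma arcG {m : ℕ} {g : ZMod m} {Y Z : ℕ → Finset (ZMod m)} (hg : IsUnit g)
    (hZ : Monotone Z) (h : ArcG m g Y Z) : Ev4 m Y Z := by
  obtain ⟨κ, k1, k2, k3, k4, k5⟩ := h
  right; right
  have hm : 0 < m := by omega
  set e := Nat.gcd κ m with he
  have he0 : 0 < e := Nat.gcd_pos_of_pos_left _ (by omega)
  have he1 : e ≠ 1 := k3
  have hem : e ∣ m := Nat.gcd_dvd_right _ _
  have hek : e ∣ κ := Nat.gcd_dvd_left _ _
  have hd : m / e ∣ m := Nat.div_dvd_of_dvd hem
  have hde : m / (m / e) = e := Nat.div_div_self hem hm.ne'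
  have hmul : m / e * e = m := Nat.div_mul_cancel hem
  have hkmul : κ / e * e = κ := Nat.div_mul_cancel hek
  have hdlt : m / e < m := by
    have h1 : 1 < e := by omega
    exact Nat.div_lt_self hm h1
  have ht0 : 1 ≤ κ / e := Nat.div_pos (Nat.le_of_dvd (by omega) hek) he0
  have htd : κ / e < m / e := by
    have : κ / e * e < m / e * e := by rw [hmul, hkmul]; exact k2
    exact Nat.lt_of_mul_lt_mul_right this
  have hd1 : 1 < m / e := by omega
  have hcop : Nat.Coprime (κ / e) (m / e) := Nat.coprime_div_gcd_div_gcd he0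
  obtain ⟨r1, r2, r3⟩ := Res.main m (m / e) (κ / e) g hd Y hm hg
  obtain ⟨-, -, r3⟩ := Res.main m (m / e) (κ / e) g hd Z hm hg
  have e1 : κ / e * (m / (m / e)) = κ := by rw [hde, hkmul]
  refine ⟨m / e, hd, hd1, hdlt, ?_⟩
  refine sn hd1 (res_mono hZ) ht0 htd hcop r1 (r2 htd.le ?_).1 (r3 htd ?_)
  · rw [e1]; exact k4
  · rw [e1]; exact k5

lemma raiseP {d : ℕ} (hd : IsPrimePow d) {Y Z : ℕ → Finset (ZMod d)} (h : RaiseP d Y Z) :
    RaiseG d Y Z := by
  obtain ⟨u, k1, k2, k3, k4, k5⟩ := h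
  refine ⟨u, k1, k2, Or.inl k3, ?_, ?_⟩
  · unfold Cond4; rw [if_pos hd]; exact k4
  · unfold Cond4; rw [if_pos hd]; exact k5

lemma raiseO {d : ℕ} (hd : ¬ IsPrimePow d) (h2 : ¬ 2 ∣ d) (hO : OrdB d)
    {Y Z : ℕ → Finset (ZMod d)} (h : RaiseO d Y Z) : RaiseG d Y Z := by
  have h6 : d ≠ 6 := by
    rintro rfl
    exact h2 (by norm_num)
  obtain ⟨u, k1, k2, k3, k4, k5⟩ := h
  refine ⟨u, k1, k2, Or.inl k3, ?_, ?_⟩
  · unfold Cond4; rw [if_neg hd, if_neg h6, if_pos hO, if_neg h2]; exact k4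
  · unfold Cond4; rw [if_neg hd, if_neg h6, if_pos hO, if_neg h2]; exact k5

lemma raiseE {d : ℕ} (hd : ¬ IsPrimePow d) (h2 : 2 ∣ d) (h6 : d ≠ 6) (hO : OrdB d)
    {Y Z : ℕ → Finset (ZMod d)} (h : RaiseE d (d / 2).minFac Y Z) : RaiseG d Y Z := by
  obtain ⟨u, k1, k2, k3, k4, k5⟩ := h
  refine ⟨u, k1, k2, Or.inl k3, ?_, ?_⟩
  · unfold Cond4; rw [if_neg hd, if_neg h6, if_pos hO, if_pos h2]; exact k4
  · unfold Cond4; rw [if_neg hd, if_neg h6, if_pos hO, if_pos h2]; exact k5

lemma ordB_dvd {p q a b d : ℕ} (hp : p.Prime) (hq : q.Prime) (hp2 : p ≠ 2) (hq2 : q ≠ 2)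
    (hpq : p ≠ q) (hd : d ∣ p ^ a * q ^ b) (h1 : 1 < d) : OrdB d := by
  obtain ⟨y, z, hy, hz, rfl⟩ := (Nat.dvd_mul).1 hd
  obtain ⟨i, -, rfl⟩ := (Nat.dvd_prime_pow hp).1 hy
  obtain ⟨j, -, rfl⟩ := (Nat.dvd_prime_pow hq).1 hz
  rcases Nat.eq_zero_or_pos i with hi | hi
  · subst hi
    rw [pow_zero, one_mul] at h1 ⊢
    left
    have hj : j ≠ 0 := by
      rintro rfl
      simp at h1
    exact hq.isPrimePow.pow hj
  · rcases Nat.eq_zero_or_pos j with hj | hj
    · subst hj
      rw [pow_zero, mul_one] at h1 ⊢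
      left
      exact hp.isPrimePow.pow (by omega)
    · exact Or.inr (Or.inr (Or.inl ⟨p, q, i, j, hp, hq, hp2, hq2, hpq, hi, hj, rfl⟩))

lemma six {m : ℕ} (hm : m = 2 * (2 * 1 + 1)) {g : ZMod m} {Y Z : ℕ → Finset (ZMod m)}
    (h : Step m g Y Z) : Ev4 m Y Z := by
  classical
  subst hm
  by_contra hcon
  have hN : ¬ New (2 * (2 * 1 + 1)) Y Z := fun hN => hcon (Or.inr (Or.inl hN.newC))
  refine Twoq.main_aux 1 le_rfl g Y Z h ?_ (by norm_num) hN
  apply Finset.card_le_card
  intro t ht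
  by_contra ht2
  apply hcon
  left
  unfold Twoq.FF at ht ht2
  rw [Finset.mem_filter, Finset.mem_range] at ht ht2
  obtain ⟨k1, k2, k3, k4⟩ := ht
  have hpp : ¬ IsPrimePow (2 * (2 * 1 + 1)) := by
    have := not_pp Nat.prime_two Nat.prime_three (by norm_num) (le_refl 1) (le_refl 1)
    simpa using this
  have h6 : 2 * (2 * 1 + 1) = 6 := by norm_num
  refine ⟨t, by omega, k1, Or.inl ?_, ?_, ?_⟩
  · have : t = 1 ∨ t = 5 := by omega
    rcases this with rfl | rfl <;> norm_num
  · unfold Cond4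
    rw [if_neg hpp, if_pos h6]
    intro h7
    apply ht2
    refine ⟨k1, k2, k3, ?_⟩
    unfold Lo od at h7
    unfold Twoq.OO
    have h8 : (Finset.filter (fun x => ((2 * (2 * 1 + 1) / 2 : ℕ) : ZMod (2 * (2 * 1 + 1))) * x ≠ 0)
        (Y t)) = Finset.filter (fun x => ¬ ((2 * 1 + 1 : ℕ) : ZMod (2 * (2 * 1 + 1))) * x = 0)
        (Y t) := by
      apply Finset.filter_congr
      intro x _
      rw [show (2 * (2 * 1 + 1) / 2 : ℕ) = 2 * 1 + 1 by norm_num]
    rw [h8] at h7
    omega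
  · unfold Cond4
    rw [if_neg hpp, if_pos h6]
    unfold Lo od
    unfold Twoq.OO at k4
    have h8 : (Finset.filter (fun x => ((2 * (2 * 1 + 1) / 2 : ℕ) : ZMod (2 * (2 * 1 + 1))) * x ≠ 0)
        (Z t)) = Finset.filter (fun x => ¬ ((2 * 1 + 1 : ℕ) : ZMod (2 * (2 * 1 + 1))) * x = 0)
        (Z t) := by
      apply Finset.filter_congr
      intro x _
      rw [show (2 * (2 * 1 + 1) / 2 : ℕ) = 2 * 1 + 1 by norm_num]
    rw [h8]
    omega

theorem ev4_step {m : ℕ} (hm2 : 2 ≤ m) {g : ZMod m} {Y Z : ℕ → Finset (ZMod m)}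
    (h : Step m g Y Z) : Ev4 m Y Z := by
  classical
  by_cases hO : OrdB m
  · rcases hO with hm | hm | ⟨p, q, a, b, hp, hq, hp2, hq2, hpq, ha, hb, rfl⟩ |
      ⟨q, b, hq, hq5, hb, rfl⟩
    · rcases FC_step hm h with h1 | h1
      · left
        by_contra hcon
        apply absurd h1
        push Not
        apply Finset.card_le_card
        intro t ht
        rw [Finset.mem_filter, Finset.mem_Icc] at ht ⊢
        refine ⟨ht.1, ht.2.1, ?_⟩
        by_contra h3
        apply hcon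
        refine ⟨t, ht.1.1, by omega, Or.inl ht.2.1, ?_, ?_⟩
        · unfold Cond4; rw [if_pos hm]; exact h3
        · unfold Cond4; rw [if_pos hm]; exact ht.2.2
      · exact Or.inr (Or.inl h1)
    · exact six (by rw [hm]) h
    · have hpp := not_pp hp hq hpq ha hb
      have hOB : OrdB (p ^ a * q ^ b) :=
        Or.inr (Or.inr (Or.inl ⟨p, q, a, b, hp, hq, hp2, hq2, hpq, ha, hb, rfl⟩))
      have h2 : ¬ 2 ∣ p ^ a * q ^ b := by
        intro h2
        rcases (Nat.Prime.dvd_mul Nat.prime_two).1 h2 with h3 | h3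
        · exact hp2 ((Nat.prime_dvd_prime_iff_eq Nat.prime_two hp).1
            (Nat.prime_two.dvd_of_dvd_pow h3)).symm
        · exact hq2 ((Nat.prime_dvd_prime_iff_eq Nat.prime_two hq).1
            (Nat.prime_two.dvd_of_dvd_pow h3)).symm
      rcases Odd.main Arc1.main Ari2.main p q a b g Y Z hp hq hp2 hq2 hpq ha hb h with h1 | h1
      · exact Or.inl (raiseO hpp h2 hOB h1)
      · obtain ⟨d, d1, d2, d3, d4⟩ := Arco.main Res.main _ g Y Z (by omega) h2 h.mono' h1
        right; right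
        refine ⟨d, d1, d2, d3, ?_⟩
        rcases d4 with ⟨c1, c2⟩ | ⟨c1, c2, c3⟩ | ⟨c1, c2, c3⟩
        · exact raiseP c1 c2
        · exact raiseO c1 c2 (ordB_dvd hp hq hp2 hq2 hpq d1 d2) c3
        · exact absurd (c2.trans d1) h2
    · have hq2 : (2 : ℕ) ≠ q := by omega
      have hpp : ¬ IsPrimePow (2 * q ^ b) := by
        have := not_pp Nat.prime_two hq hq2 le_rfl hb
        rwa [pow_one] at this
      have hOB : OrdB (2 * q ^ b) := Or.inr (Or.inr (Or.inr ⟨q, b, hq, hq5, hb, rfl⟩))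
      have h2 : 2 ∣ 2 * q ^ b := dvd_mul_right _ _
      have hmf : (2 * q ^ b / 2).minFac = q := by
        rw [Nat.mul_div_cancel_left _ (by norm_num : 0 < 2)]
        exact Nat.Prime.pow_minFac hq (by omega)
      have h6 : 2 * q ^ b ≠ 6 := by
        intro h7
        have h9 : q ^ b = 3 := by omega
        have h10 : q ≤ q ^ b := Nat.le_self_pow (by omega) q
        omega
      rcases Even.main Arc1.main q b g Y Z hq hq5 hb h with h1 | h1 | h1
      · exact Or.inl (raiseE hpp h2 h6 hOB (by rw [hmf]; exact h1))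
      · exact Or.inr (Or.inl h1)
      · exact arcG h.unit h.mono' h1
  · have hpp : ¬ IsPrimePow m := fun h => hO (Or.inl h)
    have h6 : m ≠ 6 := fun h => hO (Or.inr (Or.inl h))
    have hC : ∀ (X : ℕ → Finset (ZMod m)) (u : ℕ), Cond4 m X u = Pl X u := by
      intro X u
      unfold Cond4
      rw [if_neg hpp, if_neg h6, if_neg hO]
    obtain ⟨κ, k1, k2, k3, k4, k5, k6, k7⟩ := crossing hm2 h
    by_cases hcop : Nat.Coprime κ m
    · left
      refine ⟨κ, k1, by omega, Or.inl hcop, ?_, ?_⟩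
      · rw [hC]; unfold Pl; omega
      · rw [hC]; exact k7.trans (Finset.card_le_card k6)
    by_cases hW : (Y κ ∪ (Y κ).image (fun x => x + g)).card ≤ κ + 1
    · -- an arc
      have hm0 : 0 < m := by omega
      have h0 : (0 : ZMod m) ∈ Y κ := h.mono (Nat.zero_le κ) h.zero
      have hng : -g ∉ Y κ := fun hn => h.legal (h.mono k2 hn)
      obtain ⟨a1, a2⟩ := Arc1.main m g (Y κ) hm0 h.unit h0 hng (by rw [k4]; exact hW)
      rw [k4] at a1 a2
      exact arcG h.unit h.mono' ⟨κ, k1, by omega, hcop, a1, a2 ▸ k6⟩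
    · left
      have hκm : κ ≠ m - 1 := by
        intro h1
        apply hcop
        rw [h1]
        have h3 : Nat.Coprime (m - 1) (m - 1 + 1) := by simp
        rwa [Nat.sub_add_cancel (by omega)] at h3
      have hP : ¬ Pl Y (κ + 1) := by
        unfold Pl
        have := k3 (κ + 1) (by omega) (by omega)
        omega
      have hP' : Pl Z (κ + 1) := by
        unfold Pl
        have h1 := Finset.card_le_card k6
        have h2 := Finset.card_le_card (h.mono' (Nat.le_succ κ))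
        have h4 : (Z κ).card ≤ (Z (κ + 1)).card := h2
        omega
      by_cases hcop1 : Nat.Coprime (κ + 1) m
      · refine ⟨κ + 1, by omega, by omega, Or.inl hcop1, ?_, ?_⟩
        · rw [hC]; exact hP
        · rw [hC]; exact hP'
      by_cases hpar : κ % 2 = 1
      · refine ⟨κ, k1, by omega, Or.inr ⟨hO, hpar, fun h => hcop1 h.2⟩, ?_, ?_⟩
        · rw [hC]; unfold Pl; omega
        · rw [hC]; exact k7.trans (Finset.card_le_card k6)
      · refine ⟨κ + 1, by omega, by omega, Or.inr ⟨hO, by omega, fun h => hcop h.1⟩, ?_, ?_⟩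
        · rw [hC]; exact hP
        · rw [hC]; exact hP'

/-! ### the group level -/

variable {G : Type*} [Group G]

/-- invariance under the choice of the generator -/
lemma Phi4_gen (S : List G) (c y : G) (d : ℕ) [NeZero d] (hc : orderOf c = d)
    (hy : Subgroup.zpowers y = Subgroup.zpowers c) [Finite G] :
    Phi4 d (X S y d) = Phi4 d (X S c d) := by
  classical
  have hyd : orderOf y = d := by
    rw [← Nat.card_zpowers, hy, Nat.card_zpowers, hc]
  obtain ⟨n, hn⟩ := (Submonoid.mem_powers_iff _ _).1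
    ((mem_powers_iff_mem_zpowers (x := c) (y := y)).2 (by rw [← hy]; exact Subgroup.mem_zpowers y))
  have hd : 0 < d := Nat.pos_of_ne_zero (NeZero.ne d)
  have hcop : Nat.Coprime n d := by
    have h1 : orderOf (c ^ n) = orderOf c / Nat.gcd (orderOf c) n := orderOf_pow c
    rw [hn, hyd, hc] at h1
    have h2 : Nat.gcd d n ∣ d := Nat.gcd_dvd_left _ _
    have h4 : d / Nat.gcd d n * Nat.gcd d n = d := Nat.div_mul_cancel h2
    rw [← h1] at h4
    have h5 : Nat.gcd d n = 1 := by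
      have : d * Nat.gcd d n = d * 1 := by omega
      exact Nat.eq_of_mul_eq_mul_left hd this
    rw [Nat.coprime_comm]
    exact h5
  have hu : IsUnit (n : ZMod d) := (ZMod.isUnit_iff_coprime n d).2 hcop
  have hX : X S c d = fun k => (X S y d k).image (fun x => (n : ZMod d) * x) := by
    funext k
    ext j
    rw [Finset.mem_image]
    have key : ∀ i : ZMod d, c ^ ((n : ZMod d) * i).val = y ^ i.val := by
      intro i
      rw [ZMod.val_mul, pmod hc, ZMod.val_natCast, ← hn, ← pow_mul, pow_mul, pmod hc, ← pow_mul]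
    constructor
    · intro hj
      obtain ⟨v, hv⟩ := hu
      refine ⟨(v⁻¹ : (ZMod d)ˣ) * j, ?_, ?_⟩
      · rw [mem_X, ← key, ← hv, Units.mul_inv_cancel_left]
        exact mem_X.1 hj
      · rw [← hv, Units.mul_inv_cancel_left]
    · rintro ⟨i, hi, rfl⟩
      rw [mem_X, key]
      exact mem_X.1 hi
  have hcond : ∀ u, Cond4 d (X S y d) u ↔ Cond4 d (X S c d) u := by
    intro u
    obtain ⟨i1, i2, -⟩ := Inv.main d 0 u (n : ZMod d) (X S y d) hu
    obtain ⟨-, -, i3⟩ := Inv.main d (d / 2).minFac u (n : ZMod d) (X S y d) hu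
    have i4 := Inv.lo hu (X S y d) u
    rw [← hX] at i1 i2 i3 i4
    unfold Cond4
    split_ifs
    · exact i1
    · exact i4
    · exact i3
    · exact i2
    · exact i1
  unfold Phi4
  congr 1
  apply Finset.filter_congr
  intro u _
  rw [hcond u]

lemma step4 [Finite G] [∀ x : G, NeZero (orderOf x)] [DecidableEq (Subgroup G)]
    (E : Finset G) (hE1 : ∀ x ∈ E, x ≠ 1) (hpow : ∀ x ∈ E, ∀ i : ℕ, x ^ i ≠ 1 → x ^ i ∈ E)
    (gen : Subgroup G → G)
    (hgen : ∀ D ∈ E.image Subgroup.zpowers, gen D ∈ E ∧ Subgroup.zpowers (gen D) = D)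
    (S : List G) (g : G) (hg : g ∈ E) (h : ¬ Hit (S ++ [g])) :
    ∃ D ∈ E.image Subgroup.zpowers,
      Phi4 (orderOf (gen D)) (X S (gen D) (orderOf (gen D))) <
      Phi4 (orderOf (gen D)) (X (S ++ [g]) (gen D) (orderOf (gen D))) := by
  classical
  have : Fintype G := Fintype.ofFinite G
  have hC : Subgroup.zpowers g ∈ E.image Subgroup.zpowers := Finset.mem_image_of_mem _ hg
  obtain ⟨h1, h2⟩ := hgen _ hC
  set c := gen (Subgroup.zpowers g) with hc
  obtain ⟨a, hst⟩ := step_X (c := c) (m := orderOf c) rfl h2.symm h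
  have hc2 : 2 ≤ orderOf c := by
    have h3 := orderOf_pos c
    have h4 : orderOf c ≠ 1 := fun h => hE1 c h1 (orderOf_eq_one_iff.1 h)
    omega
  have sub : ∀ d, d ∣ orderOf c → 1 < d → d < orderOf c →
      RaiseG d (res (orderOf c) d (X S c (orderOf c)))
        (res (orderOf c) d (X (S ++ [g]) c (orderOf c))) →
      ∃ D ∈ E.image Subgroup.zpowers,
        Phi4 (orderOf (gen D)) (X S (gen D) (orderOf (gen D))) <
        Phi4 (orderOf (gen D)) (X (S ++ [g]) (gen D) (orderOf (gen D))) := by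
    intro d hd hd1 hd2 hR
    have hlt := Phi4_lt (res_mono (X_mono S c (orderOf c)))
      (res_sub (X_sub (List.sublist_append_left _ _) c _)) hR
    set y := c ^ (orderOf c / d) with hy
    have hmd : 0 < orderOf c / d := Nat.div_pos (Nat.le_of_dvd (orderOf_pos c) hd) (by omega)
    have hyo : orderOf y = d := by
      rw [hy, orderOf_pow_of_dvd hmd.ne' (Nat.div_dvd_of_dvd hd)]
      exact Nat.div_div_self hd (orderOf_pos c).ne'
    have hy1 : y ≠ 1 := by
      intro h6
      rw [h6, orderOf_one] at hyo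
      omega
    have hyE : y ∈ E := hpow c h1 _ hy1
    have hD : Subgroup.zpowers y ∈ E.image Subgroup.zpowers := Finset.mem_image_of_mem _ hyE
    obtain ⟨h6, h7⟩ := hgen _ hD
    have hNd : NeZero d := ⟨by omega⟩
    have hc'o : orderOf (gen (Subgroup.zpowers y)) = d := by
      rw [← Nat.card_zpowers, h7, Nat.card_zpowers, hyo]
    have e1 : ∀ T : List G, Phi4 d (res (orderOf c) d (X T c (orderOf c))) =
        Phi4 (orderOf (gen (Subgroup.zpowers y)))
          (X T (gen (Subgroup.zpowers y)) (orderOf (gen (Subgroup.zpowers y)))) := by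
      intro T
      have e2 : res (orderOf c) d (X T c (orderOf c)) = X T y d := by
        funext t
        exact res_X T c (orderOf c) d rfl hd t
      rw [e2, Phi4_gen T (gen (Subgroup.zpowers y)) y d hc'o h7.symm]
      have e3 : ∀ (n : ℕ) [NeZero n], orderOf (gen (Subgroup.zpowers y)) = n →
          Phi4 n (X T (gen (Subgroup.zpowers y)) n) =
          Phi4 (orderOf (gen (Subgroup.zpowers y)))
            (X T (gen (Subgroup.zpowers y)) (orderOf (gen (Subgroup.zpowers y)))) := by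
        intro n _ hn
        subst hn
        rfl
      exact e3 d hc'o
    refine ⟨_, hD, ?_⟩
    rw [← e1, ← e1]
    exact hlt
  rcases ev4_step hc2 hst with h3 | h3 | ⟨d, hd, hd1, hd2, hR⟩
  · exact ⟨_, hC, by
      rw [← hc]
      exact Phi4_lt (X_mono S c _) (X_sub (List.sublist_append_left _ _) c _) h3⟩
  · obtain ⟨p, t, pp, hpm, hpm', t1, t2, t3, h4, h5⟩ := h3
    have ppos : 0 < p := pp.pos
    have hNp : NeZero p := ⟨ppos.ne'⟩
    refine sub p hpm pp.one_lt hpm' ⟨t, t1, t2, Or.inl t3, ?_⟩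
    have key : ∀ T : List G, (res (orderOf c) p (X T c (orderOf c)) t).card = cnt (orderOf c) p t
        (X T c (orderOf c)) := by
      intro T
      have hmp : 0 < orderOf c / p := Nat.div_pos (Nat.le_of_dvd (orderOf_pos c) hpm) ppos
      have hyo : orderOf (c ^ (orderOf c / p)) = p := by
        rw [orderOf_pow_of_dvd hmp.ne' (Nat.div_dvd_of_dvd hpm)]
        exact Nat.div_div_self hpm (orderOf_pos c).ne'
      rw [res_X T c (orderOf c) p rfl hpm t, card_X T _ p hyo,
        card_cnt' T c (orderOf c) p t rfl ppos hpm]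
    unfold Cond4
    rw [if_pos pp, if_pos pp]
    unfold Pl
    rw [key, key]
    omega
  · exact sub d hd hd1 hd2 hR

lemma fiber_card [Finite G] [DecidableEq (Subgroup G)]
    (E : Finset G) (hE1 : ∀ x ∈ E, x ≠ 1) (hpow : ∀ x ∈ E, ∀ i : ℕ, x ^ i ≠ 1 → x ^ i ∈ E)
    (c : G) (h1 : c ∈ E) :
    (orderOf c).totient ≤ (E.filter (fun x => Subgroup.zpowers x = Subgroup.zpowers c)).card := by
  classical
  rw [Nat.totient_eq_card_coprime]
  apply Finset.card_le_card_of_injOn (fun a => c ^ a)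
  · intro a ha
    have ha' := Finset.mem_filter.1 ha
    have hco : Nat.Coprime (orderOf c) a := ha'.2
    have hz : Subgroup.zpowers (c ^ a) = Subgroup.zpowers c := by
      have hle : Subgroup.zpowers (c ^ a) ≤ Subgroup.zpowers c := by
        rw [Subgroup.zpowers_le]
        exact Subgroup.pow_mem _ (Subgroup.mem_zpowers _) _
      have hcard : Nat.card (Subgroup.zpowers c) ≤ Nat.card (Subgroup.zpowers (c ^ a)) := by
        rw [Nat.card_zpowers, Nat.card_zpowers, Nat.Coprime.orderOf_pow hco]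
      exact Subgroup.eq_of_le_of_card_ge hle hcard
    have hne : c ^ a ≠ 1 := by
      intro h
      rw [h, Subgroup.zpowers_one_eq_bot] at hz
      exact hE1 _ h1 (Subgroup.zpowers_eq_bot.1 hz.symm)
    show c ^ a ∈ (↑(E.filter (fun x => Subgroup.zpowers x = Subgroup.zpowers c)) : Set G)
    rw [Finset.mem_coe, Finset.mem_filter]
    exact ⟨hpow _ h1 a hne, hz⟩
  · intro a ha b hb hab
    have ha' := Finset.mem_range.1 (Finset.mem_filter.1 ha).1
    have hb' := Finset.mem_range.1 (Finset.mem_filter.1 hb).1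
    exact pow_injOn_Iio_orderOf (Set.mem_Iio.2 ha') (Set.mem_Iio.2 hb') hab

lemma sum_psi [Finite G] [DecidableEq (Subgroup G)]
    (E : Finset G) (hE1 : ∀ x ∈ E, x ≠ 1) (hpow : ∀ x ∈ E, ∀ i : ℕ, x ^ i ≠ 1 → x ^ i ∈ E)
    (gen : Subgroup G → G)
    (hgen : ∀ D ∈ E.image Subgroup.zpowers, gen D ∈ E ∧ Subgroup.zpowers (gen D) = D) :
    ∑ D ∈ E.image Subgroup.zpowers, (psi (orderOf (gen D)) : ℚ) ≤
      ∑ x ∈ E, (psi (orderOf x) : ℚ) / ((orderOf x).totient : ℚ) := by
  classical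
  rw [← Finset.sum_fiberwise_of_maps_to (s := E) (t := E.image Subgroup.zpowers)
    (g := Subgroup.zpowers) (fun x hx => Finset.mem_image_of_mem _ hx)]
  apply Finset.sum_le_sum
  intro D hD
  obtain ⟨h1, h2⟩ := hgen D hD
  have hφ : 0 < (orderOf (gen D)).totient := Nat.totient_pos.2 (orderOf_pos _)
  have hφ' : (0 : ℚ) < ((orderOf (gen D)).totient : ℚ) := by exact_mod_cast hφ
  have e1 : ∑ x ∈ E.filter (fun x => Subgroup.zpowers x = D),
      (psi (orderOf x) : ℚ) / ((orderOf x).totient : ℚ) =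
      ∑ x ∈ E.filter (fun x => Subgroup.zpowers x = D),
      (psi (orderOf (gen D)) : ℚ) / ((orderOf (gen D)).totient : ℚ) := by
    apply Finset.sum_congr rfl
    intro x hx
    have h3 : orderOf x = orderOf (gen D) := by
      rw [← Nat.card_zpowers, ← Nat.card_zpowers, (Finset.mem_filter.1 hx).2, h2]
    rw [h3]
  rw [e1, Finset.sum_const, nsmul_eq_mul]
  have h4 := fiber_card E hE1 hpow (gen D) h1
  rw [h2] at h4
  have h5 : ((orderOf (gen D)).totient : ℚ) ≤
      ((E.filter (fun x => Subgroup.zpowers x = D)).card : ℚ) := by exact_mod_cast h4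
  have h6 : (0 : ℚ) ≤ (psi (orderOf (gen D)) : ℚ) := Nat.cast_nonneg _
  calc (psi (orderOf (gen D)) : ℚ) = ((orderOf (gen D)).totient : ℚ) *
        ((psi (orderOf (gen D)) : ℚ) / ((orderOf (gen D)).totient : ℚ)) := by
          field_simp
    _ ≤ _ := by
          apply mul_le_mul_of_nonneg_right h5
          positivity

theorem main [Finite G]
    (E : Finset G) (hE1 : ∀ x ∈ E, x ≠ 1) (hpow : ∀ x ∈ E, ∀ i : ℕ, x ^ i ≠ 1 → x ^ i ∈ E)
    (S : List G) (hS : ∀ x ∈ S, x ∈ E)
    (hlen : ∑ x ∈ E, (psi (orderOf x) : ℚ) / ((orderOf x).totient : ℚ) < S.length) : Hit S := by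
  classical
  have hNZ : ∀ x : G, NeZero (orderOf x) := fun x => ⟨(orderOf_pos x).ne'⟩
  have hch : ∀ D : Subgroup G, ∃ c : G, D ∈ E.image Subgroup.zpowers →
      c ∈ E ∧ Subgroup.zpowers c = D := by
    intro D
    by_cases hD : D ∈ E.image Subgroup.zpowers
    · obtain ⟨c, hc, rfl⟩ := Finset.mem_image.1 hD
      exact ⟨c, fun _ => ⟨hc, rfl⟩⟩
    · exact ⟨1, fun h => absurd h hD⟩
  choose gen hgen using hch
  have main : ∀ T : List G, (∀ x ∈ T, x ∈ E) → ¬ Hit T →
      T.length ≤ ∑ D ∈ E.image Subgroup.zpowers,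
        Phi4 (orderOf (gen D)) (X T (gen D) (orderOf (gen D))) := by
    intro T
    induction T using List.reverseRecOn with
    | nil => intro _ _; simp
    | append_singleton T g ih =>
      intro hT hH
      have hH' : ¬ Hit T := fun h => hH (h.mono (List.sublist_append_left _ _))
      have h1 := ih (fun x hx => hT x (List.mem_append_left _ hx)) hH'
      obtain ⟨D, hD, hlt⟩ := step4 E hE1 hpow gen hgen T g (hT g (by simp)) hH
      rw [List.length_append, List.length_singleton]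
      have h2 : ∑ D ∈ E.image Subgroup.zpowers,
            Phi4 (orderOf (gen D)) (X T (gen D) (orderOf (gen D))) <
          ∑ D ∈ E.image Subgroup.zpowers,
            Phi4 (orderOf (gen D)) (X (T ++ [g]) (gen D) (orderOf (gen D))) :=
        Finset.sum_lt_sum (fun D _ => Phi4_mono (X_mono T _ _)
          (X_sub (List.sublist_append_left _ _) _ _)) ⟨D, hD, hlt⟩
      omega
  by_contra hH
  have h1 := main S hS hH
  have h2 : ∑ D ∈ E.image Subgroup.zpowers,
        Phi4 (orderOf (gen D)) (X S (gen D) (orderOf (gen D))) ≤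
      ∑ D ∈ E.image Subgroup.zpowers, psi (orderOf (gen D)) :=
    Finset.sum_le_sum (fun D _ => Phi4_le _ _)
  have h3 := sum_psi E hE1 hpow gen hgen
  have h4 : (S.length : ℚ) ≤ ∑ D ∈ E.image Subgroup.zpowers, (psi (orderOf (gen D)) : ℚ) := by
    exact_mod_cast h1.trans h2
  linarith

end Pool.Agent.Helper69.WZ.Grp4
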