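import Pool.Agent.Helper69.WZ.Stm

/-!
Project WZ, module UNI (helper95): uniform cosets.
-/

set_option autoImplicit false

namespace Pool.Agent.Helper69.WZ.Uni

open Finset

theorem cardker (m d : ℕ) [NeZero m] (hd : 0 < d) (hdm : d ∣ m) :
    ((univ : Finset (ZMod m)).filter (fun z => (d : ZMod m) * z = 0)).card = d := by
  obtain ⟨e, rfl⟩ := hdm
  have hm : 0 < d * e := Nat.pos_of_ne_zero (NeZero.ne _)
  have he : 0 < e := Nat.pos_of_mul_pos_left hm
  have h1 : (univ : Finset (ZMod (d * e))).filter (fun z => (d : ZMod (d * e)) * z = 0) =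
      (range d).image (fun j => ((j * e : ℕ) : ZMod (d * e))) := by
    ext z
    rw [mem_filter, mem_image]
    constructor
    · rintro ⟨-, h⟩
      have h2 : ((d * z.val : ℕ) : ZMod (d * e)) = 0 := by
        rw [Nat.cast_mul, ZMod.natCast_zmod_val, h]
      rw [ZMod.natCast_eq_zero_iff] at h2
      have h3 : e ∣ z.val := Nat.dvd_of_mul_dvd_mul_left hd h2
      obtain ⟨j, hj⟩ := h3
      refine ⟨j, ?_, ?_⟩
      · rw [mem_range]
        have h4 := ZMod.val_lt z
        rw [hj, mul_comm d e] at h4
        exact Nat.lt_of_mul_lt_mul_left h4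
      · rw [mul_comm j e, ← hj, ZMod.natCast_zmod_val]
    · rintro ⟨j, -, rfl⟩
      refine ⟨mem_univ _, ?_⟩
      rw [← Nat.cast_mul, ZMod.natCast_eq_zero_iff]
      exact ⟨j, by ring⟩
  rw [h1, card_image_of_injOn, card_range]
  intro i hi j hj h
  rw [coe_range, Set.mem_Iio] at hi hj
  have h2 := (ZMod.natCast_eq_natCast_iff' _ _ _).1 h
  rw [Nat.mod_eq_of_lt (Nat.mul_lt_mul_of_pos_right hi he),
    Nat.mod_eq_of_lt (Nat.mul_lt_mul_of_pos_right hj he)] at h2
  exact Nat.eq_of_mul_eq_mul_right he h2

theorem cardfib (m d : ℕ) [NeZero m] (hd : 0 < d) (hdm : d ∣ m) (x : ZMod m) :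
    ((univ : Finset (ZMod m)).filter (fun y => (d : ZMod m) * x = (d : ZMod m) * y)).card = d := by
  conv_rhs => rw [← cardker m d hd hdm]
  refine card_bij' (fun y _ => y - x) (fun z _ => z + x) ?_ ?_ ?_ ?_
  · intro y hy
    rw [mem_filter] at hy ⊢
    exact ⟨mem_univ _, by rw [mul_sub, ← hy.2, sub_self]⟩
  · intro z hz
    rw [mem_filter] at hz ⊢
    exact ⟨mem_univ _, by rw [mul_add, hz.2, zero_add]⟩
  · intro y _
    exact sub_add_cancel y x
  · intro z _
    exact add_sub_cancel_right z x

theorem arith (m d e N M : ℕ) (hd : 0 < d) (he : m = d * e) (h : m * N = M * d) : N * e = M := by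
  rw [he] at h
  have h5 : d * (N * e) = d * M := by linarith
  exact Nat.eq_of_mul_eq_mul_left hd h5

theorem unif_of_inv (m d : ℕ) [NeZero m] (hd : 0 < d) (hdm : d ∣ m) (g : ZMod m) (hg : IsUnit g)
    (Z : Finset (ZMod m))
    (h : ∀ c : ZMod m, (Z.filter (fun x => (d : ZMod m) * x = c + (d : ZMod m) * g)).card =
      (Z.filter (fun x => (d : ZMod m) * x = c)).card) : Unif m d Z := by
  have h0 : ∀ j : ℕ, (Z.filter (fun x => (d : ZMod m) * x = (d : ZMod m) * (j * g))).card =
      (Z.filter (fun x => (d : ZMod m) * x = 0)).card := by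
    intro j
    induction j with
    | zero => simp
    | succ j ih =>
      have h9 : (d : ZMod m) * (((j + 1 : ℕ) : ZMod m) * g) =
          (d : ZMod m) * ((j : ZMod m) * g) + (d : ZMod m) * g := by
        push_cast
        ring
      rw [h9, h, ih]
  have h1 : ∀ y : ZMod m, (Z.filter (fun x => (d : ZMod m) * x = (d : ZMod m) * y)).card =
      (Z.filter (fun x => (d : ZMod m) * x = 0)).card := by
    intro y
    obtain ⟨u, rfl⟩ := hg
    have h2 := h0 (y * (↑(u⁻¹) : ZMod m)).val
    rwa [ZMod.natCast_zmod_val, Units.inv_mul_cancel_right] at h2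
  have h3 : ∑ y : ZMod m, (Z.filter (fun x => (d : ZMod m) * x = (d : ZMod m) * y)).card =
      ∑ x ∈ Z, ((univ : Finset (ZMod m)).filter
        (fun y => (d : ZMod m) * x = (d : ZMod m) * y)).card := by
    simp only [card_filter]
    rw [sum_comm]
  simp only [h1, cardfib m d hd hdm, sum_const, card_univ, ZMod.card, smul_eq_mul] at h3
  intro y
  rw [h1]
  obtain ⟨e, he⟩ := hdm
  have h4 : m / d = e := by rw [he, Nat.mul_div_cancel_left _ hd]
  rw [h4]
  exact arith m d e _ _ hd he h3

theorem main : S_UNI := by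
  intro m d g Y hm hd hdm hg hY
  have hne : NeZero m := ⟨by omega⟩
  -- the two additional elements
  have c1 : ((Y ∪ Y.image (fun x => x + g)) \ Y).card = 1 := by
    rw [card_sdiff_of_subset subset_union_left, hY]
    omega
  have cI : (Y.image (fun x => x + g)).card = Y.card :=
    card_image_of_injective _ (add_left_injective g)
  have c2 : ((Y ∪ Y.image (fun x => x + g)) \ Y.image (fun x => x + g)).card = 1 := by
    rw [card_sdiff_of_subset subset_union_right, hY, cI]
    omega
  obtain ⟨y0, hy0⟩ := card_eq_one.1 c1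
  obtain ⟨z0, hz0⟩ := card_eq_one.1 c2
  have e1 : Y ∪ Y.image (fun x => x + g) = insert y0 Y := by
    rw [insert_eq, ← hy0, sdiff_union_of_subset subset_union_left]
  have e2 : Y ∪ Y.image (fun x => x + g) = insert z0 (Y.image (fun x => x + g)) := by
    rw [insert_eq, ← hz0, sdiff_union_of_subset subset_union_right]
  have n1 : y0 ∉ Y := (mem_sdiff.1 (hy0 ▸ mem_singleton_self y0)).2
  have n2 : z0 ∉ Y.image (fun x => x + g) := (mem_sdiff.1 (hz0 ▸ mem_singleton_self z0)).2
  -- the sum
  have hs : y0 = z0 + (Y.card : ZMod m) * g := by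
    have s1 : ∑ x ∈ insert y0 Y, x = ∑ x ∈ insert z0 (Y.image (fun x => x + g)), x := by
      rw [← e1, ← e2]
    rw [sum_insert n1, sum_insert n2, sum_image (fun _ _ _ _ h => add_left_injective g h),
      sum_add_distrib, sum_const, nsmul_eq_mul] at s1
    linear_combination s1
  -- the numbers
  have hN1 : ∀ c : ZMod m, ((Y ∪ Y.image (fun x => x + g)).filter (fun x => (d : ZMod m) * x = c)).card =
      (Y.filter (fun x => (d : ZMod m) * x = c)).card + if (d : ZMod m) * y0 = c then 1 else 0 := by
    intro c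
    rw [e1, filter_insert]
    split_ifs with h
    · rw [card_insert_of_notMem (fun h' => n1 (mem_filter.1 h').1)]
    · rfl
  have hN2 : ∀ c : ZMod m, ((Y ∪ Y.image (fun x => x + g)).filter
      (fun x => (d : ZMod m) * x = c + (d : ZMod m) * g)).card =
      (Y.filter (fun x => (d : ZMod m) * x = c)).card +
        if (d : ZMod m) * z0 = c + (d : ZMod m) * g then 1 else 0 := by
    intro c
    have e3 : ((Y.image (fun x => x + g)).filter
        (fun x => (d : ZMod m) * x = c + (d : ZMod m) * g)).card =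
        (Y.filter (fun x => (d : ZMod m) * x = c)).card := by
      rw [filter_image, card_image_of_injective _ (add_left_injective g)]
      congr 1
      refine filter_congr fun x _ => ?_
      rw [mul_add]
      exact add_left_inj _
    rw [e2, filter_insert]
    split_ifs with h
    · rw [card_insert_of_notMem (fun h' => n2 (mem_filter.1 h').1), e3]
    · rw [e3]; rfl
  constructor
  · rintro hdiv
    refine unif_of_inv m d hd hdm g hg Y fun c => ?_
    have hz : (d : ZMod m) * (Y.card : ZMod m) = 0 := by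
      obtain ⟨s, hs⟩ := hdiv
      rw [← Nat.cast_mul, ZMod.natCast_eq_zero_iff, hs, ← mul_assoc, Nat.mul_div_cancel' hdm]
      exact dvd_mul_right _ _
    have hd0 : (d : ZMod m) * y0 = (d : ZMod m) * z0 := by
      rw [hs]
      linear_combination g * hz
    have a1 := hN1 (c + (d : ZMod m) * g)
    have a2 := hN2 c
    rw [hd0] at a1
    omega
  · rintro hdiv
    refine unif_of_inv m d hd hdm g hg _ fun c => ?_
    have hz : (d : ZMod m) * ((Y.card : ZMod m) + 1) = 0 := by
      obtain ⟨s, hs⟩ := hdiv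
      have : (Y.card : ZMod m) + 1 = ((Y.card + 1 : ℕ) : ZMod m) := by push_cast; rfl
      rw [this, ← Nat.cast_mul, ZMod.natCast_eq_zero_iff, hs, ← mul_assoc, Nat.mul_div_cancel' hdm]
      exact dvd_mul_right _ _
    have hd0 : (d : ZMod m) * z0 = (d : ZMod m) * y0 + (d : ZMod m) * g := by
      rw [hs]
      linear_combination -g * hz
    rw [hN2 c, hN1 c, hd0]
    simp only [add_left_inj]

end Pool.Agent.Helper69.WZ.Uni
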